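import Pool.Agent.Helper96.GT.St.Base

/-!
# Project GT, piece A2: every open halfplane at `p` which contains points contains a neighbour of `p`

Proof. Let `q0` be a point of the halfplane. If `T p q0`, done. Otherwise some edges cross `p q0`
(`Tri.max`); take the edge `a b` whose crossing point `z` with the segment `p q0` is nearest to `p`
(finite minimum of the parameter `s`, `z = P p + s (P q0 - P p)`, `s = o c d p / (o c d p - o c d q0)`);
one of its end points, say `a`, has `0 < cr w (z - P p) ≤ cr w (P a - P p)`. Mirror symmetry: let
`σ = 1` or `-1` with `0 < σ * o P p q0 a`. Put `A x = σ cr (P q0 - P p) (x - P p)`, `B` = the function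
`op P a b` with the sign making `B p > 0`, `C` = the function `op P p a` with the sign making `C z > 0`;
the closed triangle `p z a` is `{A ≥ 0, B ≥ 0, C ≥ 0}`. Let `S` be the set of all points `v ≠ p` of the
family in this triangle (`a ∈ S`), and `v ∈ S` with the smallest angle from the ray `p q0`
(`0 ≤ σ * o P p v v'` for all `v' ∈ S`; compare `first_exists`/`last_exists`). `v` is in the
halfplane. If `T p v` fails, some edge `e f` crosses `p v` in a point `y` strictly between `p` and `v`; name
`e` the end point with `σ * o P p v e < 0`. Claim `e ∈ S` (contradiction to the choice of `v`):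
walking from `y` to `e` one stays on the side `σ cr (P v - P p) (x - P p) < 0`. `A e ≥ 0`: otherwise
the segment meets the line `p q0` at a point `x = p + s' (q0 - p)`; `s' ≤ 0` is impossible (wrong side of
the line `p v`), `0 < s' < s` contradicts the choice of the nearest edge, and for `s' ≥ s` the
segment has met the segment `z a` of the edge `a b` before (use `seg_meet` and `Tri.plane`). Then `C ≥ 0`
on the cone `{A ≥ 0, σ cr (P v - P p) (x - P p) ≤ 0}`, and `B e ≥ 0` since otherwise `e f` meets `z a`.
-/

set_option autoImplicit false

namespace Pool.Agent.Helper96.GT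

variable {ι : Type} {P : ι → ℝ × ℝ} {T : ι → ι → Prop}

theorem vis [Finite ι] (hP : GP P) (hT : Tri P T) (p : ι) (w : ℝ × ℝ)
    (h : ∃ q, 0 < cr w (P q - P p)) : ∃ q, T p q ∧ 0 < cr w (P q - P p) := by
  sorry

end Pool.Agent.Helper96.GT
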