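import Pool.Agent.Helper96.GT.St.Base

/-!
# Project GT, piece A3: two consecutive neighbours of `p` span a face

Proof. (a) No point is strictly inside the triangle `p q r`: otherwise let `v` be such a point with
`o P q r v` maximal. `v` is in the open sector (`0 < o P p q v`, `o P p r v = - o P r p v < 0`), so `T p v`
fails and an edge `c d` crosses the segment `p v` in a point `y` strictly between; `o q r y > o q r v`
(because `o q r p = o p q r > o q r v` by `o_sum`); name `c` the end point with `op q r (P c) ≥ op q r y`.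
If `c` is strictly inside the triangle: contradiction to the choice of `v`. Otherwise `exit2` for the lines
`p q` and `r p` on the segment from `y` to `c` gives a point `x` of the segment `c d` on the segment `p q`
or `r p` (`on_seg`; `op q r x > 0` on this segment), and `seg_meet` with `Tri.plane` gives `x = P p`, a
point of the segment `c d`, so `p = c` or `p = d` (general position), contradiction.
(b) `T q r`: otherwise an edge `c d` crosses the segment `q r` in `y`; let `0 < o q r c`. `y` satisfies
`0 < op p q y`, `0 < op r p y` (it is strictly between `q` and `r`). By (a) `c` is not strictly inside;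
`exit2` as before gives that `c = p`; then `d` is a neighbour of `p` in the open sector (the segment `p d`
passes through `y`), contradiction to `hno`.
-/

set_option autoImplicit false

namespace Pool.Agent.Helper96.GT

variable {ι : Type} {P : ι → ℝ × ℝ} {T : ι → ι → Prop}

/-- the crossing point of two segments. -/
private theorem A3_cross {a b c d : ι} (h : X P a b c d) :
    ∃ l m : ℝ, 0 < l ∧ l < 1 ∧ 0 < m ∧ m < 1 ∧
      (1 - l) • P a + l • P b = (1 - m) • P c + m • P d := by
  obtain ⟨h1, h2⟩ := h
  set D1 := o P a b c with hD1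
  set D2 := o P a b d with hD2
  set E1 := o P c d a with hE1
  set E2 := o P c d b with hE2
  have hK : D2 - D1 = E1 - E2 := by
    simp only [hD1, hD2, hE1, hE2, o, cr, Prod.fst_sub, Prod.snd_sub]
    ring
  have hK0 : E1 - E2 ≠ 0 := by
    intro h0
    have : E1 = E2 := by linarith
    rw [this] at h2
    nlinarith [mul_self_nonneg E2]
  have hD0 : D2 - D1 ≠ 0 := by rw [hK]; exact hK0
  refine ⟨E1 / (E1 - E2), D1 / (D1 - D2), ?_, ?_, ?_, ?_, ?_⟩
  · rcases lt_or_gt_of_ne (show E1 ≠ 0 by rintro h0; rw [h0] at h2; simp at h2) with h0 | h0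
    · have h3 : 0 < E2 := by nlinarith
      exact div_pos_of_neg_of_neg h0 (by linarith)
    · have h3 : E2 < 0 := by nlinarith
      exact div_pos h0 (by linarith)
  · rcases lt_or_gt_of_ne (show E1 ≠ 0 by rintro h0; rw [h0] at h2; simp at h2) with h0 | h0
    · have h3 : 0 < E2 := by nlinarith
      rw [div_lt_one_of_neg (by linarith)]
      linarith
    · have h3 : E2 < 0 := by nlinarith
      rw [div_lt_one (by linarith)]
      linarith
  · rcases lt_or_gt_of_ne (show D1 ≠ 0 by rintro h0; rw [h0] at h1; simp at h1) with h0 | h0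
    · have h3 : 0 < D2 := by nlinarith
      exact div_pos_of_neg_of_neg h0 (by linarith)
    · have h3 : D2 < 0 := by nlinarith
      exact div_pos h0 (by linarith)
  · rcases lt_or_gt_of_ne (show D1 ≠ 0 by rintro h0; rw [h0] at h1; simp at h1) with h0 | h0
    · have h3 : 0 < D2 := by nlinarith
      rw [div_lt_one_of_neg (by linarith)]
      linarith
    · have h3 : D2 < 0 := by nlinarith
      rw [div_lt_one (by linarith)]
      linarith
  · have hne : D1 - D2 ≠ 0 := fun h0 => hD0 (by linarith)
    have hDE : D1 - D2 = -(E1 - E2) := by linarith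
    have key : ∀ x y z w : ℝ, (E1 - E2) * (x - z) + E1 * (y - x) + D1 * (w - z) = 0 →
        (1 - E1 / (E1 - E2)) * x + E1 / (E1 - E2) * y =
          (1 - D1 / (D1 - D2)) * z + D1 / (D1 - D2) * w := by
      intro x y z w hx
      rw [hDE]
      field_simp
      linarith
    refine Prod.ext ?_ ?_
    · simp only [Prod.fst_add, Prod.smul_fst, smul_eq_mul]
      refine key _ _ _ _ ?_
      simp only [hD1, hE1, hE2, o, cr, Prod.fst_sub, Prod.snd_sub]
      ring
    · simp only [Prod.snd_add, Prod.smul_snd, smul_eq_mul]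
      refine key _ _ _ _ ?_
      simp only [hD1, hE1, hE2, o, cr, Prod.fst_sub, Prod.snd_sub]
      ring

private theorem A3_key (hP : GP P) (hT : Tri P T) {p q r c d : ι} (hq : T p q) (hr : T p r)
    (h : 0 < o P p q r) (hcd : T c d) {y : ℝ × ℝ} (hy : y ∈ segment ℝ (P c) (P d))
    (h1 : 0 < op P p q y) (h2 : 0 < op P r p y) (h3 : 0 ≤ op P q r y) (hc : 0 < o P q r c)
    (hin : ¬ (0 < o P p q c ∧ 0 < o P r p c)) : p = c ∨ p = d := by
  by_contra hne
  have hpc : p ≠ c := fun h' => hne (Or.inl h')
  have hpd : p ≠ d := fun h' => hne (Or.inr h')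
  have hcd' : c ≠ d := by
    rintro rfl
    exact hT.irrefl c hcd
  have hpq : p ≠ q := by
    rintro rfl
    exact hT.irrefl p hq
  have hpr : p ≠ r := by
    rintro rfl
    exact hT.irrefl p hr
  obtain ⟨s, t, hs, ht, hst, e1, e2, e3⟩ := exit2 (P := P) p q r p y (P c) h1 h2 hin
  set z := s • y + t • P c with hz
  have hqr : 0 < op P q r z := by
    rw [hz, op_comb q r y (P c) s t hst, op_P]
    have := mul_nonneg hs h3
    have := mul_pos ht hc
    linarith
  have hzs : z ∈ segment ℝ (P c) (P d) := by
    refine (convex_segment (P c) (P d)) hy (left_mem_segment ℝ (P c) (P d)) hs ht.le hst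
  have hfin : z = P p → False := by
    intro hzp
    have hzp' : P p ∈ segment ℝ (P c) (P d) := hzp ▸ hzs
    rcases e3 with e3 | e3
    · have hseg := on_seg (P := P) (a := p) (b := q) (c := r) h e3 hqr.le e2
      obtain ⟨-, h5⟩ := seg_meet hP hpq hcd' (fun h' => hpc h'.1) (fun h' => hpd h'.1)
        (hT.plane p q c d hq hcd) hseg hzs
      rw [hzp] at h5
      rcases h5 with h5 | h5
      · exact hpc (hP.inj h5)
      · exact hpd (hP.inj h5)
    · have hrpq : 0 < o P r p q := by rw [← o_rot]; exact h
      have hseg := on_seg (P := P) (a := r) (b := p) (c := q) hrpq e3 e1 hqr.le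
      obtain ⟨-, h5⟩ := seg_meet hP hpr.symm hcd' (fun h' => hpd h'.2) (fun h' => hpc h'.2)
        (hT.plane r p c d (hT.symm _ _ hr) hcd) hseg hzs
      rw [hzp] at h5
      rcases h5 with h5 | h5
      · exact hpc (hP.inj h5)
      · exact hpd (hP.inj h5)
  rcases e3 with e3 | e3
  · have hseg := on_seg (P := P) (a := p) (b := q) (c := r) h e3 hqr.le e2
    obtain ⟨h4, -⟩ := seg_meet hP hpq hcd' (fun h' => hpc h'.1) (fun h' => hpd h'.1)
      (hT.plane p q c d hq hcd) hseg hzs
    rcases h4 with h4 | h4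
    · exact hfin h4
    · rw [h4, op_left] at hqr
      exact lt_irrefl _ hqr
  · have hrpq : 0 < o P r p q := by rw [← o_rot]; exact h
    have hseg := on_seg (P := P) (a := r) (b := p) (c := q) hrpq e3 e1 hqr.le
    obtain ⟨h4, -⟩ := seg_meet hP hpr.symm hcd' (fun h' => hpd h'.2) (fun h' => hpc h'.2)
      (hT.plane r p c d (hT.symm _ _ hr) hcd) hseg hzs
    rcases h4 with h4 | h4
    · rw [h4, op_right] at hqr
      exact lt_irrefl _ hqr
    · exact hfin h4

private theorem A3_inside [Finite ι] (hP : GP P) (hT : Tri P T) {p q r : ι} (hq : T p q)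
    (hr : T p r) (h : 0 < o P p q r) (hno : ∀ c, T p c → ¬ (0 < o P p q c ∧ o P p r c < 0)) (v : ι) :
    ¬ (0 < o P p q v ∧ 0 < o P q r v ∧ 0 < o P r p v) := by
  intro hv0
  obtain ⟨v, ⟨hv1, hv2, hv3⟩, hmax⟩ := Set.exists_max_image
    {v : ι | 0 < o P p q v ∧ 0 < o P q r v ∧ 0 < o P r p v} (fun v => o P q r v)
    (Set.toFinite _) ⟨v, hv0⟩
  have hTv : ¬ T p v := by
    intro hT'
    refine hno v hT' ⟨hv1, ?_⟩
    rw [o_swap P r p v]
    linarith
  have hpv : p ≠ v := by
    rintro rfl
    rw [o_left] at hv1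
    exact lt_irrefl _ hv1
  obtain ⟨c, d, hcd, hX⟩ := hT.max p v hpv hTv
  have hpc : p ≠ c := by
    rintro rfl
    have := hX.1
    rw [o_left, zero_mul] at this
    exact lt_irrefl _ this
  have hpd : p ≠ d := by
    rintro rfl
    have := hX.1
    rw [o_left, mul_zero] at this
    exact lt_irrefl _ this
  obtain ⟨l, m, hl0, hl1, hm0, hm1, hlm⟩ := A3_cross hX
  set y := (1 - l) • P p + l • P v with hy
  have hy1 : 0 < op P p q y := by
    rw [hy, op_comb p q _ _ (1 - l) l (by ring), op_left, op_P]
    have := mul_pos hl0 hv1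
    linarith
  have hy2 : 0 < op P r p y := by
    rw [hy, op_comb r p _ _ (1 - l) l (by ring), op_right, op_P]
    have := mul_pos hl0 hv3
    linarith
  have hqrp : o P q r p = o P p q v + o P q r v + o P r p v := by
    rw [o_sum]
    exact o_rot P p q r
  have hy3 : o P q r v < op P q r y := by
    rw [hy, op_comb q r _ _ (1 - l) l (by ring), op_P, op_P, hqrp]
    have := mul_pos (sub_pos.2 hl1) (add_pos hv1 hv3)
    nlinarith
  have hyc : y ∈ segment ℝ (P c) (P d) := by
    rw [hlm]
    exact ⟨1 - m, m, by linarith, hm0.le, by ring, rfl⟩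
  have hyd : y ∈ segment ℝ (P d) (P c) := by
    rw [segment_symm]
    exact hyc
  have hym : op P q r y = (1 - m) * o P q r c + m * o P q r d := by
    rw [hlm, op_comb q r _ _ (1 - m) m (by ring), op_P, op_P]
  have hcase : op P q r y ≤ o P q r c ∨ op P q r y ≤ o P q r d := by
    by_contra hcon
    push Not at hcon
    obtain ⟨hc1, hc2⟩ := hcon
    have h5 := mul_lt_mul_of_pos_left hc1 (sub_pos.2 hm1)
    have h6 := mul_lt_mul_of_pos_left hc2 hm0
    nlinarith
  rcases hcase with hcase | hcase
  · have hc : 0 < o P q r c := by linarith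
    have hin : ¬ (0 < o P p q c ∧ 0 < o P r p c) := by
      rintro ⟨h5, h6⟩
      have := hmax c ⟨h5, hc, h6⟩
      linarith
    rcases A3_key hP hT hq hr h hcd hyc hy1 hy2 (by linarith) hc hin with h7 | h7
    · exact hpc h7
    · exact hpd h7
  · have hc : 0 < o P q r d := by linarith
    have hin : ¬ (0 < o P p q d ∧ 0 < o P r p d) := by
      rintro ⟨h5, h6⟩
      have := hmax d ⟨h5, hc, h6⟩
      linarith
    rcases A3_key hP hT hq hr h (hT.symm _ _ hcd) hyd hy1 hy2 (by linarith) hc hin with h7 | h7
    · exact hpd h7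
    · exact hpc h7

private theorem A3_edge [Finite ι] (hP : GP P) (hT : Tri P T) {p q r c d : ι} (hq : T p q)
    (hr : T p r) (h : 0 < o P p q r) (hno : ∀ c, T p c → ¬ (0 < o P p q c ∧ o P p r c < 0))
    (hcd : T c d) {y : ℝ × ℝ} {m : ℝ} (hm0 : 0 < m) (hm1 : m < 1)
    (hym : y = (1 - m) • P c + m • P d) (hy1 : 0 < op P p q y) (hy2 : 0 < op P r p y)
    (hy3 : op P q r y = 0) (hc : 0 < o P q r c) : False := by
  have hyc : y ∈ segment ℝ (P c) (P d) := by
    rw [hym]
    exact ⟨1 - m, m, by linarith, hm0.le, by ring, rfl⟩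
  have hin : ¬ (0 < o P p q c ∧ 0 < o P r p c) := fun h' =>
    A3_inside hP hT hq hr h hno c ⟨h'.1, hc, h'.2⟩
  rcases A3_key hP hT hq hr h hcd hyc hy1 hy2 hy3.symm.le hc hin with h7 | h7
  · subst h7
    rw [hym, op_comb p q _ _ (1 - m) m (by ring), op_left, op_P, mul_zero, zero_add] at hy1
    rw [hym, op_comb r p _ _ (1 - m) m (by ring), op_right, op_P, mul_zero, zero_add] at hy2
    have h8 : 0 < o P p q d := (mul_pos_iff_of_pos_left hm0).1 hy1
    have h9 : 0 < o P r p d := (mul_pos_iff_of_pos_left hm0).1 hy2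
    refine hno d hcd ⟨h8, ?_⟩
    rw [o_swap P r p d]
    linarith
  · subst h7
    have h8 : o P q r p = o P p q r := o_rot P p q r
    have h9 := hy3
    rw [hym, op_comb q r _ _ (1 - m) m (by ring), op_P, op_P, h8] at h9
    have h10 := mul_pos (sub_pos.2 hm1) hc
    have h11 := mul_pos hm0 h
    linarith

theorem sector [Finite ι] (hP : GP P) (hT : Tri P T) {p q r : ι} (hq : T p q) (hr : T p r)
    (h : 0 < o P p q r) (hno : ∀ c, T p c → ¬ (0 < o P p q c ∧ o P p r c < 0)) :
    Face P T p q r := by
  have hrpq : 0 < o P r p q := by rw [← o_rot]; exact h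
  have hqr : q ≠ r := by
    rintro rfl
    rw [o_right] at h
    exact lt_irrefl _ h
  refine ⟨hq, ?_, hT.symm _ _ hr, h, A3_inside hP hT hq hr h hno⟩
  by_contra hTqr
  obtain ⟨c, d, hcd, hX⟩ := hT.max q r hqr hTqr
  obtain ⟨l, m, hl0, hl1, hm0, hm1, hlm⟩ := A3_cross hX
  set y := (1 - l) • P q + l • P r with hy
  have hy1 : 0 < op P p q y := by
    rw [hy, op_comb p q _ _ (1 - l) l (by ring), op_right, op_P]
    have := mul_pos hl0 h
    linarith
  have hy2 : 0 < op P r p y := by
    rw [hy, op_comb r p _ _ (1 - l) l (by ring), op_left, op_P]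
    have := mul_pos (sub_pos.2 hl1) hrpq
    linarith
  have hy3 : op P q r y = 0 := by
    rw [hy, op_comb q r _ _ (1 - l) l (by ring), op_left, op_right]
    ring
  rcases lt_or_ge 0 (o P q r c) with hc | hc
  · exact A3_edge hP hT hq hr h hno hcd hm0 hm1 hlm hy1 hy2 hy3 hc
  · have hd : 0 < o P q r d := by
      have := hX.1
      by_contra hd
      push Not at hd
      nlinarith [mul_nonneg_of_nonpos_of_nonpos hc hd]
    refine A3_edge hP hT hq hr h hno (hT.symm _ _ hcd) (m := 1 - m) (by linarith) (by linarith)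
      ?_ hy1 hy2 hy3 hd
    rw [hlm]
    rw [add_comm]
    congr 1
    congr 1
    ring

end Pool.Agent.Helper96.GT
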