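import Pool.Agent.Helper96.GT.St.A2
import Pool.Agent.Helper96.GT.St.A3

/-!
# Project GT, piece A4: faces exist and are unique on each side of an edge

`face_exists`: `vis` with `w = P q - P p` gives a neighbour of `p` to the left of `p → q`; let `r` be the
counterclockwise first one (`first_exists` with `S c = T p c ∧ 0 < o P p q c`); `sector`.
`face_unique`: if `r ≠ r'`, let `o P p r r' < 0` (otherwise exchange the names); `r'` is not strictly
inside `p q r`, `0 < o p q r'`, `0 < o r p r'`, so `o q r r' < 0` and the edges `q r` and `p r'` cross.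
-/

set_option autoImplicit false

namespace Pool.Agent.Helper96.GT

variable {ι : Type} {P : ι → ℝ × ℝ} {T : ι → ι → Prop}

theorem face_exists [Finite ι] (hP : GP P) (hT : Tri P T) {p q : ι} (hq : T p q)
    (h : ∃ c, 0 < o P p q c) : ∃ r, Face P T p q r := by
  obtain ⟨q', hq', hpos⟩ := vis hP hT p (P q - P p) h
  obtain ⟨r, ⟨hr, hr0⟩, hmin⟩ := first_exists (P := P) p (P q - P p)
    (fun c => T p c ∧ 0 < o P p q c) (fun c hc => hc.2) ⟨q', hq', hpos⟩
  refine ⟨r, sector hP hT hq hr hr0 ?_⟩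
  rintro c hc ⟨h1, h2⟩
  exact absurd (hmin c ⟨hc, h1⟩) (not_le.2 h2)

private theorem face_unique_aux (hP : GP P) (hT : Tri P T) {p q r r' : ι} (h : Face P T p q r)
    (h' : Face P T p q r') (hne : r ≠ r') (hlt : o P p r r' < 0) : False := by
  have n1 := face_ne h
  have n2 := face_ne h'
  obtain ⟨h1, h2, h3, h4, h5⟩ := h
  obtain ⟨g1, g2, g3, g4, g5⟩ := h'
  have e1 : 0 < o P r p r' := by rw [o_swap]; linarith
  have e2 : ¬ 0 < o P q r r' := fun hc => h5 r' ⟨g4, hc, e1⟩
  have e3 : o P q r r' < 0 :=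
    lt_of_le_of_ne (not_lt.1 e2) (hP.ne q r r' n1.2.1 n2.2.1 hne)
  refine hT.plane q r p r' h2 (hT.symm _ _ g3) ⟨?_, ?_⟩
  · rw [o_rot]
    exact mul_neg_of_pos_of_neg h4 e3
  · rw [o_swap' P p q r', o_swap' P p r r']
    nlinarith

theorem face_unique (hP : GP P) (hT : Tri P T) {p q r r' : ι} (h : Face P T p q r)
    (h' : Face P T p q r') : r = r' := by
  by_contra hne
  have n1 := face_ne h
  have n2 := face_ne h'
  rcases lt_or_gt_of_ne (hP.ne p r r' n1.2.2 n2.2.2 hne) with h0 | h0
  · exact face_unique_aux hP hT h h' hne h0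
  · refine face_unique_aux hP hT h' h (Ne.symm hne) ?_
    rw [o_swap']
    linarith

end Pool.Agent.Helper96.GT
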