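import Pool.Agent.Helper96.GT.St.A4

/-!
# Project GT, piece A6: fans

Let `N = {q | T p q ∧ 0 < cr w (P q - P p)}`. `fan_ge`: every `b ∈ N` which is not the counterclockwise last
element has a `c ∈ N` with `Face P T p b c`: take the counterclockwise first `c` in
`{c ∈ N | 0 < o P p b c}` (`first_exists`) and use `sector` (a neighbour `d` with `0 < o p b d`, `o p c d < 0`
is in the halfplane because `b` and `c` are, so it is in `N`, contradiction to the choice of `c`). Two
elements of `N` which both are last are equal (`GP`). So `N` minus at most one element injects into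
the set on the right side.
`fan_le`: `(b, c) ↦ b` is injective on the faces (`face_unique`) and the last element `l` of `N`
(`last_exists`) is not in the image.
-/

set_option autoImplicit false

namespace Pool.Agent.Helper96.GT

variable {ι : Type} [Fintype ι] {P : ι → ℝ × ℝ} {T : ι → ι → Prop}

omit [Fintype ι] in
/-- a point in the sector between two points of an open halfplane is in the halfplane. -/
private theorem A6_half {p b c d : ι} {w : ℝ × ℝ} (hb : 0 < cr w (P b - P p))
    (hc : 0 < cr w (P c - P p)) (hbc : 0 < o P p b c) (hbd : 0 < o P p b d)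
    (hcd : o P p c d < 0) : 0 < cr w (P d - P p) := by
  have hid : o P p b c * cr w (P d - P p) =
      (-o P p c d) * cr w (P b - P p) + o P p b d * cr w (P c - P p) := by
    simp only [o, cr, Prod.fst_sub, Prod.snd_sub]; ring
  have h1 : 0 < o P p b c * cr w (P d - P p) := by
    rw [hid]
    exact add_pos (mul_pos (neg_pos.2 hcd) hb) (mul_pos hbd hc)
  exact (mul_pos_iff_of_pos_left hbc).1 h1

/-- the next neighbour in the halfplane spans a face. -/
private theorem A6_next (hP : GP P) (hT : Tri P T) (p b : ι) (w : ℝ × ℝ) (hb : T p b)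
    (hb' : 0 < cr w (P b - P p))
    (h : ∃ c, (T p c ∧ 0 < cr w (P c - P p)) ∧ 0 < o P p b c) :
    ∃ c, Face P T p b c ∧ 0 < cr w (P c - P p) := by
  obtain ⟨c, ⟨⟨hc1, hc2⟩, hc3⟩, hmin⟩ := first_exists (P := P) p w
    (fun c => (T p c ∧ 0 < cr w (P c - P p)) ∧ 0 < o P p b c) (fun q hq => hq.1.2) h
  refine ⟨c, sector hP hT hb hc1 hc3 ?_, hc2⟩
  rintro d hd ⟨h1, h2⟩
  have h3 := hmin d ⟨⟨hd, A6_half hb' hc2 hc3 h1 h2⟩, h1⟩
  linarith

omit [Fintype ι] in
private theorem A6_le_one {α : Type} [Fintype α] {q : α → Prop}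
    (h : ∀ a b, q a → q b → a = b) : cnt q ≤ 1 := by
  have h1 : cnt q ≤ cnt (fun _ : Unit => True) :=
    cnt_le_of_inj (fun _ => ()) (fun _ _ => trivial) (fun a b ha hb _ => h a b ha hb)
  have h2 := cnt_le_card (fun _ : Unit => True)
  rw [Fintype.card_unit] at h2
  exact h1.trans h2

theorem fan_ge (hP : GP P) (hT : Tri P T) (p : ι) (w : ℝ × ℝ) :
    cnt (fun q => T p q ∧ 0 < cr w (P q - P p)) ≤
      1 + cnt (fun e : ι × ι => Face P T p e.1 e.2 ∧ 0 < cr w (P e.1 - P p) ∧
        0 < cr w (P e.2 - P p)) := by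
  classical
  rw [cnt_split (fun q => T p q ∧ 0 < cr w (P q - P p))
    (fun b => ∀ c, (T p c ∧ 0 < cr w (P c - P p)) → o P p b c ≤ 0)]
  refine add_le_add ?_ ?_
  · refine A6_le_one ?_
    rintro b b' ⟨h1, h2⟩ ⟨h1', h2'⟩
    by_contra hne
    have e1 := h2 b' h1'
    have e2 := h2' b h1
    rw [o_swap'] at e2
    have hpb : p ≠ b := by
      rintro rfl
      exact hT.irrefl p h1.1
    have hpb' : p ≠ b' := by
      rintro rfl
      exact hT.irrefl p h1'.1
    exact hP.ne p b b' hpb hpb' hne (by linarith)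
  · have hex : ∀ b, ∃ c, ((T p b ∧ 0 < cr w (P b - P p)) ∧
        ¬ ∀ c, (T p c ∧ 0 < cr w (P c - P p)) → o P p b c ≤ 0) →
          Face P T p b c ∧ 0 < cr w (P c - P p) := by
      intro b
      by_cases hb : (T p b ∧ 0 < cr w (P b - P p)) ∧
        ¬ ∀ c, (T p c ∧ 0 < cr w (P c - P p)) → o P p b c ≤ 0
      · obtain ⟨⟨h1, h2⟩, h3⟩ := hb
        push Not at h3
        obtain ⟨c, hc, hc'⟩ := h3
        obtain ⟨c0, hc0⟩ := A6_next hP hT p b w h1 h2 ⟨c, hc, hc'⟩
        exact ⟨c0, fun _ => hc0⟩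
      · exact ⟨b, fun h => absurd h hb⟩
    choose g hg using hex
    refine cnt_le_of_inj (fun b => (b, g b)) ?_ ?_
    · intro b hb
      have := hg b hb
      exact ⟨this.1, hb.1.2, this.2⟩
    · intro b b' _ _ h
      exact congrArg Prod.fst h

theorem fan_le (hP : GP P) (hT : Tri P T) (p : ι) (w : ℝ × ℝ)
    (h : ∃ q, T p q ∧ 0 < cr w (P q - P p)) :
    1 + cnt (fun e : ι × ι => Face P T p e.1 e.2 ∧ 0 < cr w (P e.1 - P p) ∧
        0 < cr w (P e.2 - P p)) ≤ cnt (fun q => T p q ∧ 0 < cr w (P q - P p)) := by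
  classical
  obtain ⟨l, hl, hmax⟩ := last_exists (P := P) p w (fun q => T p q ∧ 0 < cr w (P q - P p))
    (fun q hq => hq.2) h
  rw [cnt_split (fun q => T p q ∧ 0 < cr w (P q - P p)) (fun q => q = l)]
  refine add_le_add ?_ ?_
  · exact cnt_pos ⟨l, hl, rfl⟩
  · refine cnt_le_of_inj (fun e : ι × ι => e.1) ?_ ?_
    · rintro ⟨b, c⟩ ⟨hf, h1, h2⟩
      refine ⟨⟨hf.1, h1⟩, ?_⟩
      rintro rfl
      have h3 := hmax c ⟨hT.symm _ _ hf.2.2.1, h2⟩
      have h4 := hf.2.2.2.1
      linarith
    · rintro ⟨b, c⟩ ⟨b', c'⟩ ⟨hf, -, -⟩ ⟨hf', -, -⟩ hbb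
      change b = b' at hbb
      subst hbb
      have hcc : c = c' := face_unique hP hT hf hf'
      rw [hcc]

end Pool.Agent.Helper96.GT
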