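import Pool.Agent.Helper96.GT.St.A6

/-!
# Project GT, piece A7: the number of edges of a maximal plane geometric graph

Let `F` be the number of triples `(a, b, c)` with `Face P T a b c` (three times the number of faces).
(1) `F + hd P ≤ dn T`: `(a, b, c) ↦ (a, b)` is injective (`face_unique`), its image consists of darts
which are not hull darts (`0 < o P a b c`), and hull darts are darts (`hd_adj`).
(2) Let `w` be generic (`gen_dir`) and `up a = {b | T a b ∧ 0 < cr w (P b - P a)}`. Every dart is up at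
exactly one end: `dn T = 2 * ∑ a, |up a|`. `fan_ge` for each `a` and, for the highest point `a₀`, `up a₀ = ∅`
(so it contributes `0`, not `1`): `∑ a |up a| ≤ (n - 1) + B`, `B` the number of triples with
`Face P T a b c`, `b, c ∈ up a`.
(3) `3 * B ≤ F`: the three rotations of these triples are disjoint sets of faces (`face_rot`; `a` is the
lowest vertex).
Together `dn + 2 hd + 6 ≤ 6 n`: `dn/2 ≤ n - 1 + F/3 ≤ n - 1 + (dn - hd)/3`.
-/

set_option autoImplicit false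

namespace Pool.Agent.Helper96.GT

variable {ι : Type} [Fintype ι] {P : ι → ℝ × ℝ} {T : ι → ι → Prop}

/-- antisymmetry of the height function. -/
private theorem cr_anti (w : ℝ × ℝ) (x y : ℝ × ℝ) : cr w (x - y) = - cr w (y - x) := by
  simp only [cr, Prod.fst_sub, Prod.snd_sub]; ring

private theorem cnt_zero {α : Type} [Fintype α] {p : α → Prop} (h : ∀ a, ¬ p a) : cnt p = 0 := by
  have h1 := cnt_add_of_disj (p := p) (q := p) (fun a ha => absurd ha (h a))
  have h2 : cnt (fun a => p a ∨ p a) = cnt p := cnt_congr fun a => or_self_iff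
  omega

private theorem a7_step1 (hP : GP P) (hT : Tri P T) :
    cnt (fun e : ι × ι × ι => Face P T e.1 e.2.1 e.2.2) + hd P ≤ dn T := by
  have h1 : cnt (fun e : ι × ι × ι => Face P T e.1 e.2.1 e.2.2) ≤
      cnt (fun e : ι × ι => ∃ c, Face P T e.1 e.2 c) := by
    refine cnt_le_of_inj (fun e => (e.1, e.2.1)) (fun a h => ⟨a.2.2, h⟩) ?_
    rintro ⟨a, b, c⟩ ⟨a', b', c'⟩ h h' hab
    have e1 : a = a' := congrArg Prod.fst hab
    have e2 : b = b' := congrArg Prod.snd hab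
    subst e1
    subst e2
    have e3 : c = c' := face_unique hP hT h h'
    subst e3
    rfl
  have h2 : cnt (fun e : ι × ι => (∃ c, Face P T e.1 e.2 c) ∨ HD P e.1 e.2) =
      cnt (fun e : ι × ι => ∃ c, Face P T e.1 e.2 c) + hd P := by
    refine cnt_add_of_disj ?_
    rintro e ⟨c, hc⟩ h
    exact h.2 c hc.2.2.2.1
  have h3 : cnt (fun e : ι × ι => (∃ c, Face P T e.1 e.2 c) ∨ HD P e.1 e.2) ≤ dn T := by
    refine cnt_mono ?_
    rintro e (⟨c, hc⟩ | h)
    · exact hc.1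
    · exact hd_adj hT h
  omega

private theorem a7_dn (hT : Tri P T) (w : ℝ × ℝ)
    (hw : ∀ a b, a ≠ b → cr w (P a - P b) ≠ 0) :
    dn T = 2 * ∑ a, cnt (fun b => T a b ∧ 0 < cr w (P b - P a)) := by
  have h1 : dn T = cnt (fun e : ι × ι => T e.1 e.2 ∧ 0 < cr w (P e.2 - P e.1)) +
      cnt (fun e : ι × ι => T e.1 e.2 ∧ ¬ 0 < cr w (P e.2 - P e.1)) :=
    cnt_split _ _
  have h2 : cnt (fun e : ι × ι => T e.1 e.2 ∧ ¬ 0 < cr w (P e.2 - P e.1)) =
      cnt (fun e : ι × ι => T e.1 e.2 ∧ 0 < cr w (P e.2 - P e.1)) := by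
    rw [cnt_swap]
    refine cnt_congr ?_
    rintro ⟨a, b⟩
    show (T b a ∧ ¬ 0 < cr w (P a - P b)) ↔ (T a b ∧ 0 < cr w (P b - P a))
    constructor
    · rintro ⟨h, h'⟩
      have hne : a ≠ b := by
        rintro rfl
        exact hT.irrefl a h
      have h0 := hw a b hne
      refine ⟨hT.symm _ _ h, ?_⟩
      rw [cr_anti w (P b) (P a)]
      have : cr w (P a - P b) < 0 := lt_of_le_of_ne (not_lt.1 h') h0
      linarith
    · rintro ⟨h, h'⟩
      refine ⟨hT.symm _ _ h, ?_⟩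
      rw [cr_anti w (P a) (P b)]
      intro h''
      linarith
  have h3 : cnt (fun e : ι × ι => T e.1 e.2 ∧ 0 < cr w (P e.2 - P e.1)) =
      ∑ a, cnt (fun b => T a b ∧ 0 < cr w (P b - P a)) := cnt_prod _
  omega

private theorem a7_step2 [Nonempty ι] (hP : GP P) (hT : Tri P T) (w : ℝ × ℝ) :
    (∑ a, cnt (fun b => T a b ∧ 0 < cr w (P b - P a))) + 1 ≤ Fintype.card ι +
      cnt (fun e : ι × ι × ι => Face P T e.1 e.2.1 e.2.2 ∧ 0 < cr w (P e.2.1 - P e.1) ∧
        0 < cr w (P e.2.2 - P e.1)) := by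
  classical
  obtain ⟨a0, ha0⟩ := Finite.exists_max (fun a : ι => cr w (P a))
  have hB : cnt (fun e : ι × ι × ι => Face P T e.1 e.2.1 e.2.2 ∧ 0 < cr w (P e.2.1 - P e.1) ∧
        0 < cr w (P e.2.2 - P e.1)) =
      ∑ a, cnt (fun e : ι × ι => Face P T a e.1 e.2 ∧ 0 < cr w (P e.1 - P a) ∧
        0 < cr w (P e.2 - P a)) := cnt_prod _
  have h1 : ∀ a, cnt (fun b => T a b ∧ 0 < cr w (P b - P a)) ≤ (if a = a0 then 0 else 1) +
      cnt (fun e : ι × ι => Face P T a e.1 e.2 ∧ 0 < cr w (P e.1 - P a) ∧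
        0 < cr w (P e.2 - P a)) := by
    intro a
    by_cases ha : a = a0
    · subst ha
      have : cnt (fun b => T a b ∧ 0 < cr w (P b - P a)) = 0 := by
        refine cnt_zero ?_
        rintro b ⟨_, hb⟩
        rw [cr_sub_right] at hb
        have := ha0 b
        linarith
      rw [this]
      exact Nat.zero_le _
    · rw [if_neg ha]
      exact fan_ge hP hT a w
  have h2 : (∑ a, cnt (fun b => T a b ∧ 0 < cr w (P b - P a))) ≤
      (∑ a, (if a = a0 then 0 else 1)) + ∑ a, cnt (fun e : ι × ι => Face P T a e.1 e.2 ∧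
        0 < cr w (P e.1 - P a) ∧ 0 < cr w (P e.2 - P a)) := by
    rw [← Finset.sum_add_distrib]
    exact Finset.sum_le_sum fun a _ => h1 a
  have h3 : (∑ a : ι, (if a = a0 then 0 else 1)) + 1 = Fintype.card ι := by
    have : ∀ a : ι, (if a = a0 then 0 else 1) + (if a = a0 then 1 else 0) = 1 := by
      intro a
      split_ifs <;> rfl
    have h4 : (∑ a : ι, (if a = a0 then 0 else 1)) + (∑ a : ι, (if a = a0 then 1 else 0)) =
        Fintype.card ι := by
      rw [← Finset.sum_add_distrib, Finset.sum_congr rfl fun a _ => this a]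
      simp
    have h5 : (∑ a : ι, (if a = a0 then 1 else 0)) = 1 := by simp
    rw [h5] at h4
    exact h4
  rw [hB]
  omega

private theorem a7_step3 (w : ℝ × ℝ) :
    3 * cnt (fun e : ι × ι × ι => Face P T e.1 e.2.1 e.2.2 ∧ 0 < cr w (P e.2.1 - P e.1) ∧
        0 < cr w (P e.2.2 - P e.1)) ≤ cnt (fun e : ι × ι × ι => Face P T e.1 e.2.1 e.2.2) := by
  set B := cnt (fun e : ι × ι × ι => Face P T e.1 e.2.1 e.2.2 ∧ 0 < cr w (P e.2.1 - P e.1) ∧
        0 < cr w (P e.2.2 - P e.1)) with hBdef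
  have h1 : B ≤ cnt (fun e : ι × ι × ι => Face P T e.1 e.2.1 e.2.2 ∧
      0 < cr w (P e.1 - P e.2.2) ∧ 0 < cr w (P e.2.1 - P e.2.2)) := by
    refine cnt_le_of_inj (fun e => (e.2.1, e.2.2, e.1)) ?_ ?_
    · rintro ⟨a, b, c⟩ ⟨h, h1, h2⟩
      exact ⟨face_rot h, h1, h2⟩
    · rintro ⟨a, b, c⟩ ⟨a', b', c'⟩ _ _ h
      simp only [Prod.mk.injEq] at h ⊢
      tauto
  have h2 : B ≤ cnt (fun e : ι × ι × ι => Face P T e.1 e.2.1 e.2.2 ∧
      0 < cr w (P e.2.2 - P e.2.1) ∧ 0 < cr w (P e.1 - P e.2.1)) := by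
    refine cnt_le_of_inj (fun e => (e.2.2, e.1, e.2.1)) ?_ ?_
    · rintro ⟨a, b, c⟩ ⟨h, h1, h2⟩
      exact ⟨face_rot (face_rot h), h1, h2⟩
    · rintro ⟨a, b, c⟩ ⟨a', b', c'⟩ _ _ h
      simp only [Prod.mk.injEq] at h ⊢
      tauto
  have h3 := cnt_add_of_disj (α := ι × ι × ι)
    (p := fun e => Face P T e.1 e.2.1 e.2.2 ∧ 0 < cr w (P e.2.1 - P e.1) ∧
        0 < cr w (P e.2.2 - P e.1))
    (q := fun e => Face P T e.1 e.2.1 e.2.2 ∧
      0 < cr w (P e.1 - P e.2.2) ∧ 0 < cr w (P e.2.1 - P e.2.2)) (by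
      rintro e ⟨_, _, h⟩ ⟨_, h', _⟩
      rw [cr_anti] at h
      linarith)
  have h4 := cnt_add_of_disj (α := ι × ι × ι)
    (p := fun e => (Face P T e.1 e.2.1 e.2.2 ∧ 0 < cr w (P e.2.1 - P e.1) ∧
        0 < cr w (P e.2.2 - P e.1)) ∨ (Face P T e.1 e.2.1 e.2.2 ∧
      0 < cr w (P e.1 - P e.2.2) ∧ 0 < cr w (P e.2.1 - P e.2.2)))
    (q := fun e => Face P T e.1 e.2.1 e.2.2 ∧
      0 < cr w (P e.2.2 - P e.2.1) ∧ 0 < cr w (P e.1 - P e.2.1)) (by
      rintro e (⟨_, h, _⟩ | ⟨_, _, h⟩) ⟨_, h', h''⟩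
      · rw [cr_anti] at h
        linarith
      · rw [cr_anti] at h
        linarith)
  have h5 : cnt (fun e : ι × ι × ι => ((Face P T e.1 e.2.1 e.2.2 ∧ 0 < cr w (P e.2.1 - P e.1) ∧
        0 < cr w (P e.2.2 - P e.1)) ∨ (Face P T e.1 e.2.1 e.2.2 ∧
      0 < cr w (P e.1 - P e.2.2) ∧ 0 < cr w (P e.2.1 - P e.2.2))) ∨ (Face P T e.1 e.2.1 e.2.2 ∧
      0 < cr w (P e.2.2 - P e.2.1) ∧ 0 < cr w (P e.1 - P e.2.1))) ≤
      cnt (fun e : ι × ι × ι => Face P T e.1 e.2.1 e.2.2) := by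
    refine cnt_mono ?_
    rintro e ((h | h) | h)
    · exact h.1
    · exact h.1
    · exact h.1
  rw [h4, h3] at h5
  omega

theorem euler [Nonempty ι] (hP : GP P) (hT : Tri P T) :
    dn T + 2 * hd P + 6 ≤ 6 * Fintype.card ι := by
  obtain ⟨w, _, hw⟩ := gen_dir hP.inj
  have h1 := a7_step1 hP hT
  have h2 := a7_dn hT w hw
  have h3 := a7_step2 hP hT w
  have h4 := a7_step3 (P := P) (T := T) w
  omega

end Pool.Agent.Helper96.GT
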