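import Pool.Agent.Helper96.GT.St.Base

/-!
# Project GT, piece B1: the tangent order

Notation: `α p = P (t p) - P p`, `φ p x = cr (α p) (x - P p)` (so `o P p (t p) q = φ p (P q)`); all of `M` has
`φ p ≥ 0`, hence every convex combination of points of `M` too.
`R_asymm`: `R p q` and `R q p`: `t p` is left of `p → q`, `t q` is right of it (`o_swap'`), so the segment
`t p, t q` meets the line `p q` in `z = P p + s (P q - P p)`; `φ p z ≥ 0` and `φ p q < 0` give `s ≤ 0`, `φ q z ≥ 0`
and `φ q p < 0` give `s ≥ 1`. (`z = (o p q (t p) • t q - o p q (t q) • t p) / (difference)`.)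
`R_cyc`: `R p q → 0 < cr (α p) (α q)` because `cr (α p) (α q) = φ p (t q) - φ p q`. Write (Cramer)
`m - p = x (α p) + y (α q)`, `q - p = c (α p) + d (α q)`; then `y ≥ 0`, `d < 0`, `c ≥ 0`, `x ≤ c`, and if `m` is
right of `p → q` then `x < 0`; but `φ r m ≥ 0`, `φ r p < 0` give
`0 < cr (α r) (m - p) = x cr (α r) (α p) + y cr (α r) (α q) ≤ 0`. By symmetry it is enough to prove the first
inequality.
-/

set_option autoImplicit false

namespace Pool.Agent.Helper96.GT

variable {ι : Type} {P : ι → ℝ × ℝ} {M : ι → Prop} {t : ι → ι}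

private theorem tan_nonneg (ht : Tan P M t) {p : ι} (hp : ¬ M p) {x : ι} (hx : M x) :
    0 ≤ o P p (t p) x := by
  by_cases h : x = t p
  · rw [h, o_right]
  · exact le_of_lt (ht.left p hp x hx h)

private theorem cr_pos_aux (ht : Tan P M t) {p q : ι} (hp : ¬ M p) (hq : ¬ M q)
    (h : R P t p q) : 0 < cr (P (t p) - P p) (P (t q) - P q) := by
  have h1 : 0 ≤ o P p (t p) (t q) := tan_nonneg ht hp (ht.mem q hq)
  have h2 : o P p (t p) q < 0 := h
  have h3 : cr (P (t p) - P p) (P (t q) - P q) = o P p (t p) (t q) - o P p (t p) q := by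
    simp only [o, cr, Prod.fst_sub, Prod.snd_sub]; ring
  rw [h3]; linarith

theorem R_asymm (hP : GP P) (ht : Tan P M t) {p q : ι} (hp : ¬ M p) (hq : ¬ M q)
    (h : R P t p q) : ¬ R P t q p := by
  intro h'
  have h1 := cr_pos_aux ht hp hq h
  have h2 := cr_pos_aux ht hq hp h'
  rw [cr_comm] at h2
  linarith

theorem R_cr (hP : GP P) (ht : Tan P M t) {p q : ι} (hp : ¬ M p) (hq : ¬ M q)
    (h : R P t p q) : 0 < cr (P (t p) - P p) (P (t q) - P q) :=
  cr_pos_aux ht hp hq h

theorem R_cyc (hP : GP P) (ht : Tan P M t) {p q r : ι} (hp : ¬ M p) (hq : ¬ M q) (hr : ¬ M r)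
    (h1 : R P t p q) (h2 : R P t q r) (h3 : R P t r p) (x : ι) (hx : M x) : 0 ≤ o P p q x := by
  have hA := R_cr hP ht hp hq h1
  have hB := R_cr hP ht hq hr h2
  have hC := R_cr hP ht hr hp h3
  have hv : 0 ≤ o P p (t p) x := tan_nonneg ht hp hx
  have hr' : 0 ≤ o P r (t r) x := tan_nonneg ht hr hx
  have hw : 0 ≤ o P q (t q) p := not_lt.1 (R_asymm hP ht hp hq h1)
  have hz : o P p (t p) q < 0 := h1
  have hrp : o P r (t r) p < 0 := h3
  by_contra hneg
  push Not at hneg
  have e1 : cr (P (t p) - P p) (P (t q) - P q) * o P p q x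
      = o P q (t q) p * o P p (t p) x
        - o P p (t p) q * cr (P x - P p) (P (t q) - P q) := by
    simp only [o, cr, Prod.fst_sub, Prod.snd_sub]; ring
  have e2 : cr (P (t p) - P p) (P (t q) - P q) * (o P r (t r) x - o P r (t r) p)
      = cr (P x - P p) (P (t q) - P q) * cr (P (t r) - P r) (P (t p) - P p)
        - o P p (t p) x * cr (P (t q) - P q) (P (t r) - P r) := by
    simp only [o, cr, Prod.fst_sub, Prod.snd_sub]; ring
  have f1 : cr (P (t p) - P p) (P (t q) - P q) * o P p q x < 0 := mul_neg_of_pos_of_neg hA hneg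
  have f2 : 0 ≤ o P q (t q) p * o P p (t p) x := mul_nonneg hw hv
  have f3 : 0 < o P p (t p) q * cr (P x - P p) (P (t q) - P q) := by linarith
  have hu : cr (P x - P p) (P (t q) - P q) < 0 := by
    by_contra hc
    push Not at hc
    have := mul_nonpos_of_nonpos_of_nonneg hz.le hc
    linarith
  have g1 : 0 < cr (P (t p) - P p) (P (t q) - P q) * (o P r (t r) x - o P r (t r) p) :=
    mul_pos hA (by linarith)
  have g2 : cr (P x - P p) (P (t q) - P q) * cr (P (t r) - P r) (P (t p) - P p) < 0 :=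
    mul_neg_of_neg_of_pos hu hC
  have g3 : 0 ≤ o P p (t p) x * cr (P (t q) - P q) (P (t r) - P r) := mul_nonneg hv hB.le
  linarith

end Pool.Agent.Helper96.GT
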