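import Pool.Agent.Helper96.GT.St.B1

/-!
# Project GT, piece B2: a face outside of `M` has a source or two crossing sides

`Z x y` (crossing) means neither `R x y` nor `R y x`.
`cross_exit`: if `Z a b` then `0 < o a (t a) b` and `0 < o b (t b) a` (`GP`), so `t a` is right and `m = t b` is
left of `a → b`, and the segment `t a, t b` meets the line `a b` in a point `z = P a + s (P b - P a)` with
`0 < s < 1` (`φ a z ≥ 0`, `φ b z ≥ 0`, notation of B1; `z ≠ a, b` because ... `s = 0` would give
`φ b z = φ b a`, fine: only `0 ≤ s ≤ 1` and `z` in the triangle is needed; if `s = 0` or `1` then `P a` or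
`P b` is a convex combination of `t a, t b`, impossible by `GP`). `m` is not strictly inside the face, so by
`exit2` (lines `b c`, `c a`) the segment from `z` to `m` meets the segment `b c` or `c a` in a point `x`
(`on_seg`); `x` is a convex combination of points of `M`, so `φ b x ≥ 0`, `φ c x ≥ 0` (or `φ c`, `φ a`), and `x` on the
segment `b c` gives `φ b c ≥ 0`, `φ c b ≥ 0` (`x ≠ b`, `x ≠ c` unless trivial: if `x = P b` then
`φ c x = φ c b ≥ 0` and, since `P b` cannot be a convex combination of `z`, `m` with ... use `0 < t` in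
`exit2` and `GP`).
`src_or_cross`: if some side is crossing, `cross_exit` (rotated by `face_rot`) gives a second one. If no
side is crossing and there is no source then the orientation is cyclic and `R_cyc` (three times, in the
right rotation) gives that the point `m` of `M` has `0 ≤ o` (hence `0 <`, `GP`) for all three sides: for the
cyclic orientation `a b c` this contradicts the emptiness of the face, for `a c b` it contradicts `o_sum`
and `0 < o P a b c`.
-/

set_option autoImplicit false

namespace Pool.Agent.Helper96.GT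

variable {ι : Type} {P : ι → ℝ × ℝ} {T : ι → ι → Prop} {M : ι → Prop} {t : ι → ι}

/-- crossing pairs. -/
def Z (P : ι → ℝ × ℝ) (t : ι → ι) (x y : ι) : Prop := ¬ R P t x y ∧ ¬ R P t y x

private theorem b2_nonneg (ht : Tan P M t) {p : ι} (hp : ¬ M p) {x : ι} (hx : M x) :
    0 ≤ op P p (t p) (P x) := by
  by_cases h : x = t p
  · rw [h, op_right]
  · exact (ht.left p hp x hx h).le

private theorem b2_seg {p q : ι} {x : ℝ × ℝ} (hx : x ∈ segment ℝ (P p) (P q))
    (h1 : 0 ≤ op P p (t p) x) (h2 : 0 ≤ op P q (t q) x) (h3 : x ≠ P p) (h4 : x ≠ P q) :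
    Z P t p q := by
  obtain ⟨u, v, hu, hv, huv, rfl⟩ := hx
  have hu0 : u ≠ 0 := by
    rintro rfl
    apply h4
    have : v = 1 := by linarith
    rw [this, zero_smul, one_smul, zero_add]
  have hv0 : v ≠ 0 := by
    rintro rfl
    apply h3
    have : u = 1 := by linarith
    rw [this, zero_smul, one_smul, add_zero]
  have hu' : 0 < u := lt_of_le_of_ne hu (Ne.symm hu0)
  have hv' : 0 < v := lt_of_le_of_ne hv (Ne.symm hv0)
  rw [op_comb _ _ _ _ _ _ huv, op_left, op_P] at h1
  rw [op_comb _ _ _ _ _ _ huv, op_left, op_P] at h2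
  constructor
  · intro h
    have h' : o P p (t p) q < 0 := h
    nlinarith
  · intro h
    have h' : o P q (t q) p < 0 := h
    nlinarith

/-- barycentric coordinates. -/
private theorem b2_bary (a b c p q : ι) (z : ℝ × ℝ) :
    o P a b c * op P p q z =
      op P b c z * o P p q a + op P c a z * o P p q b + op P a b z * o P p q c := by
  simp only [op, o, cr, Prod.fst_sub, Prod.snd_sub]; ring

theorem cross_exit (hP : GP P) (ht : Tan P M t) {a b c : ι} (hF : Face P T a b c)
    (ha : ¬ M a) (hb : ¬ M b) (hc : ¬ M c) (h : Z P t a b) : Z P t b c ∨ Z P t c a := by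
  obtain ⟨hab, hbc, hac⟩ := face_ne hF
  obtain ⟨-, -, -, hpos, hemp⟩ := hF
  have hta : M (t a) := ht.mem a ha
  have htb : M (t b) := ht.mem b hb
  have hne : ∀ p m, ¬ M p → M m → p ≠ m := fun p m hp hm e => hp (e ▸ hm)
  -- the two tangent points are on different sides
  have h1 : 0 < o P a (t a) b := by
    refine lt_of_le_of_ne (not_lt.1 h.1) (Ne.symm (hP.ne _ _ _ (hne a _ ha hta) hab ?_))
    exact (hne b _ hb hta).symm
  have h2 : 0 < o P b (t b) a := by
    refine lt_of_le_of_ne (not_lt.1 h.2) (Ne.symm (hP.ne _ _ _ (hne b _ hb htb) hab.symm ?_))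
    exact (hne a _ ha htb).symm
  have h1' : o P a b (t a) < 0 := by
    have := o_swap' P a (t a) b
    linarith
  have h2' : 0 < o P a b (t b) := by
    rw [← o_rot]; exact h2
  have htab : t a ≠ t b := by
    intro e
    rw [e] at h1'
    linarith
  set D : ℝ := o P a b (t b) - o P a b (t a) with hD
  have hDpos : 0 < D := by linarith
  set u : ℝ := o P a b (t b) / D with hu
  set v : ℝ := - o P a b (t a) / D with hv
  have hu0 : 0 < u := div_pos h2' hDpos
  have hv0 : 0 < v := div_pos (by linarith) hDpos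
  have huv : u + v = 1 := by
    rw [hu, hv, ← add_div, div_eq_one_iff_eq hDpos.ne']
    rw [hD]; ring
  set z : ℝ × ℝ := u • P (t a) + v • P (t b) with hz
  have hz0 : op P a b z = 0 := by
    rw [hz, op_comb _ _ _ _ _ _ huv, op_P, op_P, hu, hv]
    field_simp
    ring
  -- every point of the line through the tangent points is different from a, b, c
  have hline : op P (t a) (t b) z = 0 := by
    rw [hz, op_comb _ _ _ _ _ _ huv, op_left, op_right]; ring
  have hoff : ∀ p, ¬ M p → o P (t a) (t b) p ≠ 0 := fun p hp =>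
    hP.ne _ _ _ htab (hne p _ hp hta).symm (hne p _ hp htb).symm
  -- nonnegativity on M
  have hzp : ∀ p, ¬ M p → 0 ≤ op P p (t p) z := by
    intro p hp
    rw [hz, op_comb _ _ _ _ _ _ huv]
    have e1 := b2_nonneg ht hp hta
    have e2 := b2_nonneg ht hp htb
    positivity
  -- z is strictly inside the side a b
  have hsum := op_sum (P := P) a b c z
  have hca : 0 ≤ op P c a z := by
    have e := b2_bary (P := P) a b c a (t a) z
    rw [hz0, o_left, zero_mul, add_zero, mul_zero, zero_add] at e
    have e1 : 0 ≤ o P a b c * op P a (t a) z := mul_nonneg hpos.le (hzp a ha)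
    rw [e] at e1
    exact nonneg_of_mul_nonneg_left e1 h1
  have hbc0 : 0 ≤ op P b c z := by
    have e := b2_bary (P := P) a b c b (t b) z
    rw [hz0, o_left, zero_mul, add_zero, mul_zero, add_zero] at e
    have e1 : 0 ≤ o P a b c * op P b (t b) z := mul_nonneg hpos.le (hzp b hb)
    rw [e] at e1
    exact nonneg_of_mul_nonneg_left e1 h2
  have hbary := b2_bary (P := P) a b c (t a) (t b) z
  rw [hline, hz0, zero_mul, add_zero, mul_zero] at hbary
  have hca' : 0 < op P c a z := by
    refine lt_of_le_of_ne hca (fun e => ?_)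
    rw [← e, hz0] at hsum
    rw [← e, zero_mul, add_zero] at hbary
    have h3 : op P b c z = o P a b c := by linarith
    rw [h3] at hbary
    rcases mul_eq_zero.1 hbary.symm with h4 | h4
    · exact hpos.ne' h4
    · exact hoff a ha h4
  have hbc' : 0 < op P b c z := by
    refine lt_of_le_of_ne hbc0 (fun e => ?_)
    rw [← e, hz0] at hsum
    rw [← e, zero_mul, zero_add] at hbary
    have h3 : op P c a z = o P a b c := by linarith
    rw [h3] at hbary
    rcases mul_eq_zero.1 hbary.symm with h4 | h4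
    · exact hpos.ne' h4
    · exact hoff b hb h4
  -- the segment from z to t b leaves the face
  obtain ⟨s, r, hs, hr, hsr, g1, g2, g3⟩ := exit2 (P := P) b c c a z (P (t b)) hbc' hca'
    (fun e => hemp (t b) ⟨h2', e.1, e.2⟩)
  set x : ℝ × ℝ := s • z + r • P (t b) with hx
  have hxab : 0 < op P a b x := by
    rw [hx, op_comb _ _ _ _ _ _ hsr, hz0, mul_zero, zero_add, op_P]
    exact mul_pos hr h2'
  have hxp : ∀ p, ¬ M p → 0 ≤ op P p (t p) x := by
    intro p hp
    rw [hx, op_comb _ _ _ _ _ _ hsr]
    have e1 := hzp p hp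
    have e2 := b2_nonneg ht hp htb
    positivity
  have hxline : op P (t a) (t b) x = 0 := by
    rw [hx, op_comb _ _ _ _ _ _ hsr, hline, op_right]; ring
  have hxc : x ≠ P c := by
    intro e
    rw [e, op_P] at hxline
    exact hoff c hc hxline
  have hxa : x ≠ P a := by
    intro e
    rw [e, op_left] at hxab
    exact lt_irrefl _ hxab
  have hxb : x ≠ P b := by
    intro e
    rw [e, op_right] at hxab
    exact lt_irrefl _ hxab
  rcases g3 with g3 | g3
  · left
    have hseg : x ∈ segment ℝ (P b) (P c) :=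
      on_seg (P := P) (a := b) (b := c) (c := a) (by rw [o_rot]; exact hpos) g3 g2 hxab.le
    exact b2_seg hseg (hxp b hb) (hxp c hc) hxb hxc
  · right
    have hseg : x ∈ segment ℝ (P c) (P a) :=
      on_seg (P := P) (a := c) (b := a) (c := b) (by rw [o_rot, o_rot]; exact hpos) g3 hxab.le g1
    exact b2_seg hseg (hxp c hc) (hxp a ha) hxc hxa

theorem src_or_cross (hP : GP P) (ht : Tan P M t) (hM : ∃ m, M m) {a b c : ι}
    (hF : Face P T a b c) (ha : ¬ M a) (hb : ¬ M b) (hc : ¬ M c) :
    (R P t a b ∧ R P t a c) ∨ (R P t b c ∧ R P t b a) ∨ (R P t c a ∧ R P t c b) ∨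
      (Z P t a b ∧ Z P t b c) ∨ (Z P t b c ∧ Z P t c a) ∨ (Z P t c a ∧ Z P t a b) := by
  have hZs : ∀ p q, Z P t p q → Z P t q p := fun p q h => ⟨h.2, h.1⟩
  by_cases z1 : Z P t a b
  · rcases cross_exit hP ht hF ha hb hc z1 with h | h
    · tauto
    · tauto
  by_cases z2 : Z P t b c
  · rcases cross_exit hP ht (face_rot hF) hb hc ha z2 with h | h
    · tauto
    · tauto
  by_cases z3 : Z P t c a
  · rcases cross_exit hP ht (face_rot (face_rot hF)) hc ha hb z3 with h | h
    · tauto
    · tauto
  have hor : ∀ p q, ¬ Z P t p q → R P t p q ∨ R P t q p := by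
    intro p q h
    unfold Z at h
    tauto
  obtain ⟨m, hm⟩ := hM
  obtain ⟨hab, hbc, hac⟩ := face_ne hF
  obtain ⟨-, -, -, hpos, hemp⟩ := hF
  have hne : ∀ p, ¬ M p → p ≠ m := fun p hp e => hp (e ▸ hm)
  have hsum := o_sum P a b c m
  have c1 : ¬ (R P t a b ∧ R P t b c ∧ R P t c a) := by
    rintro ⟨k1, k2, k3⟩
    have e1 := R_cyc hP ht ha hb hc k1 k2 k3 m hm
    have e2 := R_cyc hP ht hb hc ha k2 k3 k1 m hm
    have e3 := R_cyc hP ht hc ha hb k3 k1 k2 m hm
    refine hemp m ⟨lt_of_le_of_ne e1 (Ne.symm ?_), lt_of_le_of_ne e2 (Ne.symm ?_),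
      lt_of_le_of_ne e3 (Ne.symm ?_)⟩
    · exact hP.ne _ _ _ hab (hne a ha) (hne b hb)
    · exact hP.ne _ _ _ hbc (hne b hb) (hne c hc)
    · exact hP.ne _ _ _ hac.symm (hne c hc) (hne a ha)
  have c2 : ¬ (R P t b a ∧ R P t a c ∧ R P t c b) := by
    rintro ⟨k1, k2, k3⟩
    have e1 := R_cyc hP ht hb ha hc k1 k2 k3 m hm
    have e2 := R_cyc hP ht ha hc hb k2 k3 k1 m hm
    have e3 := R_cyc hP ht hc hb ha k3 k1 k2 m hm
    rw [o_swap] at e1
    rw [o_swap] at e2
    rw [o_swap] at e3
    linarith
  rcases hor a b z1 with k1 | k1 <;> rcases hor b c z2 with k2 | k2 <;>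
    rcases hor c a z3 with k3 | k3 <;> tauto

end Pool.Agent.Helper96.GT
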