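import Pool.Agent.Helper96.GT.St.A6
import Pool.Agent.Helper96.GT.St.B2

/-!
# Project GT, piece B3: the main inequality for one triangulation

`u = #Mᶜ`, `dU` = darts of `T` outside of `M`, `D` = faces `a b c` with `a, b ∉ M`, `c ∈ M`, `h = hd P`.
(i) `dU ≤ f0 + D + h`, `f0` = number of triples `(a, b, c)` outside of `M` with `Face P T a b c`: a dart `(a, b)`
is a hull dart or has a face `a b c` (`face_exists`), `c ∉ M` or `c ∈ M` (choose `c`; injective).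
(ii) Let `A1 = #{(p, q, r) | Face P T p q r, outside of M, R p q, R p r}`. `fan_le` with `w = -(P (t p) - P p)`
(`R p q ↔ 0 < cr w (P q - P p)`; points with `R p q` are outside of `M`; `vis` and `hR` give that the fan is
not empty): `A1 + u ≤ a`, `a = #{(p, q) | T p q, p ∉ M, R p q}`.
(iii) `dU = 2 a + z`, `z = #{(p, q) | T p q, p, q ∉ M, Z p q}` (`R_asymm`, symmetry of `T`).
(iv) `f0 ≤ 3 A1 + B`, `B` = number of the other triples (no source); each of them has two crossing sides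
(`src_or_cross`), so `2 B ≤ 3 z`: the number of triples in `B` with crossing first side is at most `z`
(`face_unique`), and the same for the second and third side by rotation.
Together `2 dU ≤ 2 f0 + 2 D + 2 h ≤ 6 (a - u) + 3 z + 2 D + 2 h = 3 dU - 6 u + 2 D + 2 h`.
-/

set_option autoImplicit false

namespace Pool.Agent.Helper96.GT

variable {ι : Type} [Fintype ι] {P : ι → ℝ × ℝ} {T : ι → ι → Prop} {M : ι → Prop} {t : ι → ι}

private theorem cnt_zero {α : Type} [Fintype α] {p : α → Prop} (h : ∀ a, ¬ p a) : cnt p = 0 := by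
  classical
  refine Finset.card_eq_zero.2 (Finset.eq_empty_of_forall_notMem fun a ha => ?_)
  exact h a (Finset.mem_filter.1 ha).2

omit [Fintype ι] in
private theorem R_notM (ht : Tan P M t) {p q : ι} (hp : ¬ M p) (h : R P t p q) : ¬ M q := by
  intro hq
  by_cases hqt : q = t p
  · subst hqt
    have := o_right P p (t p)
    unfold R at h
    linarith
  · have := ht.left p hp q hq hqt
    unfold R at h
    linarith

omit [Fintype ι] in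
private theorem R_iff (p q : ι) :
    R P t p q ↔ 0 < cr (-(P (t p) - P p)) (P q - P p) := by
  unfold R o
  have : cr (-(P (t p) - P p)) (P q - P p) = - cr (P (t p) - P p) (P q - P p) := by
    simp only [cr, Prod.fst_neg, Prod.snd_neg, Prod.fst_sub, Prod.snd_sub]
    ring
  rw [this]
  constructor <;> intro h <;> linarith

/-- step (i). -/
private theorem step1 (hP : GP P) (hT : Tri P T) :
    cnt (fun e : ι × ι => T e.1 e.2 ∧ ¬ M e.1 ∧ ¬ M e.2) ≤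
      cnt (fun f : ι × ι × ι => Face P T f.1 f.2.1 f.2.2 ∧ ¬ M f.1 ∧ ¬ M f.2.1 ∧ ¬ M f.2.2) +
      cnt (fun f : ι × ι × ι => Face P T f.1 f.2.1 f.2.2 ∧ ¬ M f.1 ∧ ¬ M f.2.1 ∧ M f.2.2) +
      hd P := by
  classical
  have h1 := cnt_split (fun e : ι × ι => T e.1 e.2 ∧ ¬ M e.1 ∧ ¬ M e.2) (fun e => HD P e.1 e.2)
  have h2 : cnt (fun e : ι × ι => (T e.1 e.2 ∧ ¬ M e.1 ∧ ¬ M e.2) ∧ HD P e.1 e.2) ≤ hd P :=
    cnt_mono fun e he => he.2
  have h3 : cnt (fun e : ι × ι => (T e.1 e.2 ∧ ¬ M e.1 ∧ ¬ M e.2) ∧ ¬ HD P e.1 e.2) ≤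
      cnt (fun f : ι × ι × ι => Face P T f.1 f.2.1 f.2.2 ∧ ¬ M f.1 ∧ ¬ M f.2.1) := by
    have key : ∀ e : ι × ι, ((T e.1 e.2 ∧ ¬ M e.1 ∧ ¬ M e.2) ∧ ¬ HD P e.1 e.2) →
        ∃ r, Face P T e.1 e.2 r := by
      rintro ⟨a, b⟩ ⟨⟨hab, _, _⟩, hh⟩
      refine face_exists hP hT hab ?_
      by_contra hc
      refine hh ⟨?_, ?_⟩
      · intro hab'
        simp only at hab hab'
        subst hab'
        exact hT.irrefl _ hab
      · intro c hc'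
        exact hc ⟨c, hc'⟩
    let g : ι × ι → ι × ι × ι := fun e =>
      if h : ∃ r, Face P T e.1 e.2 r then (e.1, e.2, h.choose) else (e.1, e.2, e.1)
    have hg1 : ∀ e, (g e).1 = e.1 := by
      intro e
      simp only [g]
      split_ifs <;> rfl
    have hg2 : ∀ e, (g e).2.1 = e.2 := by
      intro e
      simp only [g]
      split_ifs <;> rfl
    refine cnt_le_of_inj g ?_ ?_
    · intro e he
      have hk := key e he
      have hg3 : g e = (e.1, e.2, hk.choose) := by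
        simp only [g]
        rw [dif_pos hk]
      rw [hg3]
      exact ⟨hk.choose_spec, he.1.2.1, he.1.2.2⟩
    · intro e e' _ _ hee
      apply Prod.ext
      · rw [← hg1 e, ← hg1 e', hee]
      · rw [← hg2 e, ← hg2 e', hee]
  have h4 := cnt_split (fun f : ι × ι × ι => Face P T f.1 f.2.1 f.2.2 ∧ ¬ M f.1 ∧ ¬ M f.2.1)
    (fun f => M f.2.2)
  have h5 : cnt (fun f : ι × ι × ι => (Face P T f.1 f.2.1 f.2.2 ∧ ¬ M f.1 ∧ ¬ M f.2.1) ∧ M f.2.2) =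
      cnt (fun f : ι × ι × ι => Face P T f.1 f.2.1 f.2.2 ∧ ¬ M f.1 ∧ ¬ M f.2.1 ∧ M f.2.2) :=
    cnt_congr fun f => by tauto
  have h6 : cnt (fun f : ι × ι × ι => (Face P T f.1 f.2.1 f.2.2 ∧ ¬ M f.1 ∧ ¬ M f.2.1) ∧ ¬ M f.2.2) =
      cnt (fun f : ι × ι × ι => Face P T f.1 f.2.1 f.2.2 ∧ ¬ M f.1 ∧ ¬ M f.2.1 ∧ ¬ M f.2.2) :=
    cnt_congr fun f => by tauto
  omega

/-- step (ii). -/
private theorem step2 (hP : GP P) (hT : Tri P T) (ht : Tan P M t)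
    (hR : ∀ p, ¬ M p → ∃ q, R P t p q) :
    cnt (fun f : ι × ι × ι => Face P T f.1 f.2.1 f.2.2 ∧ ¬ M f.1 ∧ R P t f.1 f.2.1 ∧
      R P t f.1 f.2.2) + cnt (fun p => ¬ M p) ≤
      cnt (fun e : ι × ι => T e.1 e.2 ∧ ¬ M e.1 ∧ R P t e.1 e.2) := by
  classical
  rw [cnt_prod, cnt_prod, cnt_sum, ← Finset.sum_add_distrib]
  refine Finset.sum_le_sum fun p _ => ?_
  by_cases hp : M p
  · rw [if_neg (not_not.2 hp)]
    have h0 : cnt (fun b : ι × ι => Face P T p b.1 b.2 ∧ ¬ M p ∧ R P t p b.1 ∧ R P t p b.2) = 0 :=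
      cnt_zero fun b hb => hb.2.1 hp
    simp only at h0 ⊢
    rw [h0]
    exact Nat.zero_le _
  · rw [if_pos hp]
    have hne : ∃ q, T p q ∧ 0 < cr (-(P (t p) - P p)) (P q - P p) := by
      refine vis hP hT p _ ?_
      obtain ⟨q, hq⟩ := hR p hp
      exact ⟨q, (R_iff p q).1 hq⟩
    have h1 := fan_le hP hT p (-(P (t p) - P p)) hne
    have h2 : cnt (fun e : ι × ι => Face P T p e.1 e.2 ∧ 0 < cr (-(P (t p) - P p)) (P e.1 - P p) ∧
        0 < cr (-(P (t p) - P p)) (P e.2 - P p)) =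
        cnt (fun b : ι × ι => Face P T p b.1 b.2 ∧ ¬ M p ∧ R P t p b.1 ∧ R P t p b.2) :=
      cnt_congr fun e => by rw [R_iff, R_iff]; tauto
    have h3 : cnt (fun q => T p q ∧ 0 < cr (-(P (t p) - P p)) (P q - P p)) =
        cnt (fun q => T p q ∧ ¬ M p ∧ R P t p q) :=
      cnt_congr fun q => by rw [R_iff]; tauto
    rw [h2, h3] at h1
    simp only
    omega

/-- step (iii). -/
private theorem step3 (hP : GP P) (hT : Tri P T) (ht : Tan P M t) :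
    cnt (fun e : ι × ι => T e.1 e.2 ∧ ¬ M e.1 ∧ ¬ M e.2) =
      2 * cnt (fun e : ι × ι => T e.1 e.2 ∧ ¬ M e.1 ∧ R P t e.1 e.2) +
      cnt (fun e : ι × ι => T e.1 e.2 ∧ ¬ M e.1 ∧ ¬ M e.2 ∧ Z P t e.1 e.2) := by
  have h1 := cnt_split (fun e : ι × ι => T e.1 e.2 ∧ ¬ M e.1 ∧ ¬ M e.2) (fun e => R P t e.1 e.2)
  have h2 := cnt_split (fun e : ι × ι => (T e.1 e.2 ∧ ¬ M e.1 ∧ ¬ M e.2) ∧ ¬ R P t e.1 e.2)
    (fun e => R P t e.2 e.1)
  have h3 : cnt (fun e : ι × ι => (T e.1 e.2 ∧ ¬ M e.1 ∧ ¬ M e.2) ∧ R P t e.1 e.2) =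
      cnt (fun e : ι × ι => T e.1 e.2 ∧ ¬ M e.1 ∧ R P t e.1 e.2) :=
    cnt_congr fun e => by
      constructor
      · rintro ⟨⟨h, h', _⟩, h''⟩
        exact ⟨h, h', h''⟩
      · rintro ⟨h, h', h''⟩
        exact ⟨⟨h, h', R_notM ht h' h''⟩, h''⟩
  have h4 : cnt (fun e : ι × ι => ((T e.1 e.2 ∧ ¬ M e.1 ∧ ¬ M e.2) ∧ ¬ R P t e.1 e.2) ∧
      R P t e.2 e.1) = cnt (fun e : ι × ι => T e.1 e.2 ∧ ¬ M e.1 ∧ R P t e.1 e.2) := by
    rw [cnt_swap]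
    refine cnt_congr fun e => ?_
    constructor
    · rintro ⟨⟨⟨h, _, h'⟩, _⟩, h''⟩
      exact ⟨hT.symm _ _ h, h', h''⟩
    · rintro ⟨h, h', h''⟩
      exact ⟨⟨⟨hT.symm _ _ h, R_notM ht h' h'', h'⟩, R_asymm hP ht h' (R_notM ht h' h'') h''⟩, h''⟩
  have h5 : cnt (fun e : ι × ι => ((T e.1 e.2 ∧ ¬ M e.1 ∧ ¬ M e.2) ∧ ¬ R P t e.1 e.2) ∧
      ¬ R P t e.2 e.1) = cnt (fun e : ι × ι => T e.1 e.2 ∧ ¬ M e.1 ∧ ¬ M e.2 ∧ Z P t e.1 e.2) :=
    cnt_congr fun e => by unfold Z; tauto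
  omega

/-- faces with three vertices outside of `M`. -/
private def F0 (P : ι → ℝ × ℝ) (T : ι → ι → Prop) (M : ι → Prop) (f : ι × ι × ι) : Prop :=
  Face P T f.1 f.2.1 f.2.2 ∧ ¬ M f.1 ∧ ¬ M f.2.1 ∧ ¬ M f.2.2

omit [Fintype ι] in
private theorem F0_rot {f : ι × ι × ι} (h : F0 P T M f) : F0 P T M (f.2.1, f.2.2, f.1) :=
  ⟨face_rot h.1, h.2.2.1, h.2.2.2, h.2.1⟩

/-- rotation does not change the count. -/
private theorem cnt_rot (p : ι × ι × ι → Prop) :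
    cnt (fun f : ι × ι × ι => p (f.2.1, f.2.2, f.1)) ≤ cnt p := by
  refine cnt_le_of_inj (fun f : ι × ι × ι => (f.2.1, f.2.2, f.1)) (fun f h => h) ?_
  rintro ⟨a, b, c⟩ ⟨a', b', c'⟩ _ _ h
  simp only [Prod.mk.injEq] at h
  obtain ⟨h1, h2, h3⟩ := h
  subst h1; subst h2; subst h3
  rfl

/-- step (iv), the crossing sides. -/
private theorem step4 (hP : GP P) (hT : Tri P T) :
    cnt (fun f : ι × ι × ι => F0 P T M f ∧ Z P t f.1 f.2.1) ≤
      cnt (fun e : ι × ι => T e.1 e.2 ∧ ¬ M e.1 ∧ ¬ M e.2 ∧ Z P t e.1 e.2) := by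
  refine cnt_le_of_inj (fun f : ι × ι × ι => (f.1, f.2.1)) ?_ ?_
  · rintro ⟨a, b, c⟩ ⟨⟨hF, ha, hb, _⟩, hz⟩
    exact ⟨hF.1, ha, hb, hz⟩
  · rintro ⟨a, b, c⟩ ⟨a', b', c'⟩ ⟨⟨hF, _⟩, _⟩ ⟨⟨hF', _⟩, _⟩ h
    simp only [Prod.mk.injEq] at h
    obtain ⟨h1, h2⟩ := h
    subst h1; subst h2
    have := face_unique hP hT hF hF'
    simp only at this
    subst this
    rfl

theorem um (hP : GP P) (hT : Tri P T) (hM : ∃ m, M m) (ht : Tan P M t)
    (hR : ∀ p, ¬ M p → ∃ q, R P t p q) (hH : ∀ a b, HD P a b → ¬ M a ∧ ¬ M b) :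
    6 * cnt (fun p => ¬ M p) ≤ cnt (fun e : ι × ι => T e.1 e.2 ∧ ¬ M e.1 ∧ ¬ M e.2) +
      2 * cnt (fun f : ι × ι × ι => Face P T f.1 f.2.1 f.2.2 ∧ ¬ M f.1 ∧ ¬ M f.2.1 ∧ M f.2.2) +
      2 * hd P := by
  classical
  have s1 := step1 (M := M) hP hT
  have s2 := step2 hP hT ht hR
  have s3 := step3 hP hT ht
  have s4 := step4 (M := M) (t := t) hP hT
  set z := cnt (fun e : ι × ι => T e.1 e.2 ∧ ¬ M e.1 ∧ ¬ M e.2 ∧ Z P t e.1 e.2) with hz
  set A1 := cnt (fun f : ι × ι × ι => Face P T f.1 f.2.1 f.2.2 ∧ ¬ M f.1 ∧ R P t f.1 f.2.1 ∧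
      R P t f.1 f.2.2) with hA1
  -- the second and third crossing side
  have s5 : cnt (fun f : ι × ι × ι => F0 P T M f ∧ Z P t f.2.1 f.2.2) ≤ z := by
    refine le_trans ?_ s4
    refine le_trans (cnt_mono ?_) (cnt_rot (fun f => F0 P T M f ∧ Z P t f.1 f.2.1))
    rintro f ⟨h, h'⟩
    exact ⟨F0_rot h, h'⟩
  have s6 : cnt (fun f : ι × ι × ι => F0 P T M f ∧ Z P t f.2.2 f.1) ≤ z := by
    refine le_trans ?_ s5
    refine le_trans (cnt_mono ?_) (cnt_rot (fun f => F0 P T M f ∧ Z P t f.2.1 f.2.2))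
    rintro f ⟨h, h'⟩
    exact ⟨F0_rot h, h'⟩
  -- the sources
  have s7 : cnt (fun f : ι × ι × ι => F0 P T M f ∧ R P t f.1 f.2.1 ∧ R P t f.1 f.2.2) ≤ A1 :=
    cnt_mono fun f h => ⟨h.1.1, h.1.2.1, h.2.1, h.2.2⟩
  have s8 : cnt (fun f : ι × ι × ι => F0 P T M f ∧ R P t f.2.1 f.2.2 ∧ R P t f.2.1 f.1) ≤ A1 := by
    refine le_trans ?_ s7
    refine le_trans (cnt_mono ?_)
      (cnt_rot (fun f => F0 P T M f ∧ R P t f.1 f.2.1 ∧ R P t f.1 f.2.2))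
    rintro f ⟨h, h'⟩
    exact ⟨F0_rot h, h'⟩
  have s9 : cnt (fun f : ι × ι × ι => F0 P T M f ∧ R P t f.2.2 f.1 ∧ R P t f.2.2 f.2.1) ≤ A1 := by
    refine le_trans ?_ s8
    refine le_trans (cnt_mono ?_)
      (cnt_rot (fun f => F0 P T M f ∧ R P t f.2.1 f.2.2 ∧ R P t f.2.1 f.1))
    rintro f ⟨h, h'⟩
    exact ⟨F0_rot h, h'⟩
  -- combine pointwise
  have s10 : 2 * cnt (F0 P T M) ≤
      2 * cnt (fun f : ι × ι × ι => F0 P T M f ∧ R P t f.1 f.2.1 ∧ R P t f.1 f.2.2) +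
      2 * cnt (fun f : ι × ι × ι => F0 P T M f ∧ R P t f.2.1 f.2.2 ∧ R P t f.2.1 f.1) +
      2 * cnt (fun f : ι × ι × ι => F0 P T M f ∧ R P t f.2.2 f.1 ∧ R P t f.2.2 f.2.1) +
      cnt (fun f : ι × ι × ι => F0 P T M f ∧ Z P t f.1 f.2.1) +
      cnt (fun f : ι × ι × ι => F0 P T M f ∧ Z P t f.2.1 f.2.2) +
      cnt (fun f : ι × ι × ι => F0 P T M f ∧ Z P t f.2.2 f.1) := by
    simp only [cnt_sum, Finset.mul_sum, ← Finset.sum_add_distrib]
    refine Finset.sum_le_sum fun f _ => ?_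
    by_cases hf : F0 P T M f
    · have := src_or_cross hP ht hM hf.1 hf.2.1 hf.2.2.1 hf.2.2.2
      simp only [hf, true_and, if_true]
      rcases this with h | h | h | h | h | h
      · rw [if_pos h]; omega
      · rw [if_pos (⟨h.1, h.2⟩ : R P t f.2.1 f.2.2 ∧ R P t f.2.1 f.1)]; omega
      · rw [if_pos (⟨h.1, h.2⟩ : R P t f.2.2 f.1 ∧ R P t f.2.2 f.2.1)]; omega
      · rw [if_pos h.1, if_pos h.2]; omega
      · rw [if_pos h.1, if_pos h.2]; omega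
      · rw [if_pos h.1, if_pos h.2]; omega
    · rw [if_neg hf]; omega
  have s11 : cnt (F0 P T M) = cnt (fun f : ι × ι × ι => Face P T f.1 f.2.1 f.2.2 ∧ ¬ M f.1 ∧
      ¬ M f.2.1 ∧ ¬ M f.2.2) := rfl
  omega

end Pool.Agent.Helper96.GT
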