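import Pool.Agent.Helper96.GT.Defs

/-!
# Project GT, base lemmas (owner helper96)
-/

set_option autoImplicit false

namespace Pool.Agent.Helper96.GT

variable {ι : Type} {P : ι → ℝ × ℝ}

/-- orientation of `a`, `b` and an arbitrary point `x` of the plane; `o P a b c = op P a b (P c)`. -/
def op (P : ι → ℝ × ℝ) (a b : ι) (x : ℝ × ℝ) : ℝ := cr (P b - P a) (x - P a)

theorem op_P (a b c : ι) : op P a b (P c) = o P a b c := rfl

theorem op_left (a b : ι) : op P a b (P a) = 0 := by
  simp only [op, cr, Prod.fst_sub, Prod.snd_sub]; ring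

theorem op_right (a b : ι) : op P a b (P b) = 0 := by
  simp only [op, cr, Prod.fst_sub, Prod.snd_sub]; ring

theorem op_comm (a b : ι) (x : ℝ × ℝ) : op P b a x = - op P a b x := by
  simp only [op, cr, Prod.fst_sub, Prod.snd_sub]; ring

/-- sum of the three barycentric values. -/
theorem op_sum (a b c : ι) (x : ℝ × ℝ) : op P a b x + op P b c x + op P c a x = o P a b c := by
  simp only [op, o, cr, Prod.fst_sub, Prod.snd_sub]; ring

/-- `op` is affine. -/
theorem op_comb (a b : ι) (x y : ℝ × ℝ) (s t : ℝ) (hst : s + t = 1) :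
    op P a b (s • x + t • y) = s * op P a b x + t * op P a b y := by
  have ht : t = 1 - s := by linarith
  subst ht
  simp only [op, cr, Prod.fst_sub, Prod.snd_sub, Prod.fst_add, Prod.snd_add, Prod.smul_fst,
    Prod.smul_snd, smul_eq_mul]
  ring

/-- `cr w` is affine. -/
theorem cr_comb (w x y z : ℝ × ℝ) (s t : ℝ) (hst : s + t = 1) :
    cr w (s • x + t • y - z) = s * cr w (x - z) + t * cr w (y - z) := by
  have ht : t = 1 - s := by linarith
  subst ht
  simp only [cr, Prod.fst_sub, Prod.snd_sub, Prod.fst_add, Prod.snd_add, Prod.smul_fst,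
    Prod.smul_snd, smul_eq_mul]
  ring

/-- the first point where a segment leaves an intersection of two open halfplanes. -/
theorem exit2 (a b a' b' : ι) (y x : ℝ × ℝ) (h1 : 0 < op P a b y) (h2 : 0 < op P a' b' y)
    (h : ¬ (0 < op P a b x ∧ 0 < op P a' b' x)) :
    ∃ s t : ℝ, 0 ≤ s ∧ 0 < t ∧ s + t = 1 ∧ 0 ≤ op P a b (s • y + t • x) ∧
      0 ≤ op P a' b' (s • y + t • x) ∧
      (op P a b (s • y + t • x) = 0 ∨ op P a' b' (s • y + t • x) = 0) := by
  set f0 := op P a b y
  set g0 := op P a' b' y
  set f1 := op P a b x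
  set g1 := op P a' b' x
  have key : ∀ t : ℝ, op P a b ((1 - t) • y + t • x) = (1 - t) * f0 + t * f1 ∧
      op P a' b' ((1 - t) • y + t • x) = (1 - t) * g0 + t * g1 := fun t =>
    ⟨op_comb a b y x (1 - t) t (by ring), op_comb a' b' y x (1 - t) t (by ring)⟩
  -- the parameters where the functions vanish
  rcases le_or_gt f1 0 with hf | hf
  · -- `f` vanishes at `tf`
    set tf := f0 / (f0 - f1) with htf
    have hd : 0 < f0 - f1 := by linarith
    have htf0 : 0 < tf := div_pos h1 hd
    have htf1 : tf ≤ 1 := by rw [htf, div_le_one hd]; linarith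
    have hfz : (1 - tf) * f0 + tf * f1 = 0 := by
      rw [htf]; field_simp; ring
    rcases le_or_gt 0 ((1 - tf) * g0 + tf * g1) with hg | hg
    · refine ⟨1 - tf, tf, by linarith, htf0, by ring, ?_, ?_, ?_⟩
      · rw [(key tf).1, hfz]
      · rw [(key tf).2]; exact hg
      · left; rw [(key tf).1, hfz]
    · -- `g` vanishes before
      have hg1 : g1 < 0 := by nlinarith
      set tg := g0 / (g0 - g1) with htg
      have hd' : 0 < g0 - g1 := by linarith
      have htg0 : 0 < tg := div_pos h2 hd'
      have hgz : (1 - tg) * g0 + tg * g1 = 0 := by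
        rw [htg]; field_simp; ring
      have hlt : tg < tf := by
        by_contra hcon
        push Not at hcon
        nlinarith
      refine ⟨1 - tg, tg, by linarith, htg0, by ring, ?_, ?_, ?_⟩
      · rw [(key tg).1]; nlinarith
      · rw [(key tg).2, hgz]
      · right; rw [(key tg).2, hgz]
  · have hg1 : g1 ≤ 0 := by
      by_contra hcon
      push Not at hcon
      exact h ⟨hf, hcon⟩
    set tg := g0 / (g0 - g1) with htg
    have hd' : 0 < g0 - g1 := by linarith
    have htg0 : 0 < tg := div_pos h2 hd'
    have htg1 : tg ≤ 1 := by rw [htg, div_le_one hd']; linarith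
    have hgz : (1 - tg) * g0 + tg * g1 = 0 := by
      rw [htg]; field_simp; ring
    refine ⟨1 - tg, tg, by linarith, htg0, by ring, ?_, ?_, ?_⟩
    · rw [(key tg).1]
      have := mul_nonneg (sub_nonneg.2 htg1) h1.le
      have := mul_pos htg0 hf
      linarith
    · rw [(key tg).2, hgz]
    · right; rw [(key tg).2, hgz]

/-- a point of the line `a b` in the closed triangle `a b c` is on the segment `a b`. -/
theorem on_seg {a b c : ι} (h : 0 < o P a b c) {z : ℝ × ℝ} (h1 : op P a b z = 0)
    (h2 : 0 ≤ op P b c z) (h3 : 0 ≤ op P c a z) : z ∈ segment ℝ (P a) (P b) := by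
  have hsum := op_sum (P := P) a b c z
  have hD : o P a b c ≠ 0 := h.ne'
  refine ⟨op P b c z / o P a b c, op P c a z / o P a b c, div_nonneg h2 h.le,
    div_nonneg h3 h.le, ?_, ?_⟩
  · rw [← add_div, div_eq_one_iff_eq hD]
    linarith
  · have e1 : o P a b c * z.1 = op P b c z * (P a).1 + op P c a z * (P b).1 +
        op P a b z * (P c).1 := by
      simp only [op, o, cr, Prod.fst_sub, Prod.snd_sub]; ring
    have e2 : o P a b c * z.2 = op P b c z * (P a).2 + op P c a z * (P b).2 +
        op P a b z * (P c).2 := by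
      simp only [op, o, cr, Prod.fst_sub, Prod.snd_sub]; ring
    rw [h1, zero_mul, add_zero] at e1 e2
    refine Prod.ext ?_ ?_
    · simp only [Prod.fst_add, Prod.smul_fst, smul_eq_mul]
      field_simp
      linarith
    · simp only [Prod.snd_add, Prod.smul_snd, smul_eq_mul]
      field_simp
      linarith

/-- two different segments which do not cross properly meet at most in a common end point. -/
theorem seg_meet (hP : GP P) {a b c d : ι} (hab : a ≠ b) (hcd : c ≠ d)
    (hne : ¬ (a = c ∧ b = d)) (hne' : ¬ (a = d ∧ b = c)) (hX : ¬ X P a b c d) {y : ℝ × ℝ}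
    (h1 : y ∈ segment ℝ (P a) (P b)) (h2 : y ∈ segment ℝ (P c) (P d)) :
    (y = P a ∨ y = P b) ∧ (y = P c ∨ y = P d) := by
  obtain ⟨s, t, hs, ht, hst, hy⟩ := h1
  obtain ⟨s', t', hs', ht', hst', hy'⟩ := h2
  have e1 : op P a b y = 0 := by
    rw [← hy, op_comb _ _ _ _ _ _ hst, op_left, op_right]; ring
  have e2 : op P c d y = 0 := by
    rw [← hy', op_comb _ _ _ _ _ _ hst', op_left, op_right]; ring
  have hin : ∀ e, y = P e → e = a ∨ e = b := by
    intro e he
    by_contra hcon
    push Not at hcon
    rw [he, op_P] at e1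
    exact hP.ne a b e hab hcon.1.symm hcon.2.symm e1
  have hin' : ∀ e, y = P e → e = c ∨ e = d := by
    intro e he
    by_contra hcon
    push Not at hcon
    rw [he, op_P] at e2
    exact hP.ne c d e hcd hcon.1.symm hcon.2.symm e2
  by_cases h3 : y = P c ∨ y = P d
  · refine ⟨?_, h3⟩
    rcases h3 with h3 | h3
    · rcases hin c h3 with h | h
      · left; rw [← h]; exact h3
      · right; rw [← h]; exact h3
    · rcases hin d h3 with h | h
      · left; rw [← h]; exact h3
      · right; rw [← h]; exact h3
  · exfalso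
    by_cases h4 : y = P a ∨ y = P b
    · apply h3
      rcases h4 with h4 | h4
      · rcases hin' a h4 with h | h
        · left; rw [← h]; exact h4
        · right; rw [← h]; exact h4
      · rcases hin' b h4 with h | h
        · left; rw [← h]; exact h4
        · right; rw [← h]; exact h4
    · push Not at h3 h4
      have hs0 : 0 < s := by
        rcases hs.lt_or_eq with h | h
        · exact h
        · exfalso
          have : t = 1 := by linarith
          rw [← h, this, zero_smul, one_smul, zero_add] at hy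
          exact h4.2 hy.symm
      have ht0 : 0 < t := by
        rcases ht.lt_or_eq with h | h
        · exact h
        · exfalso
          have : s = 1 := by linarith
          rw [← h, this, zero_smul, one_smul, add_zero] at hy
          exact h4.1 hy.symm
      have hs0' : 0 < s' := by
        rcases hs'.lt_or_eq with h | h
        · exact h
        · exfalso
          have : t' = 1 := by linarith
          rw [← h, this, zero_smul, one_smul, zero_add] at hy'
          exact h3.2 hy'.symm
      have ht0' : 0 < t' := by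
        rcases ht'.lt_or_eq with h | h
        · exact h
        · exfalso
          have : s' = 1 := by linarith
          rw [← h, this, zero_smul, one_smul, add_zero] at hy'
          exact h3.1 hy'.symm
      rw [← hy', op_comb _ _ _ _ _ _ hst', op_P, op_P] at e1
      rw [← hy, op_comb _ _ _ _ _ _ hst, op_P, op_P] at e2
      have hprod : ∀ (u v x z : ℝ), 0 < u → 0 < v → u * x + v * z = 0 → x ≠ 0 → x * z < 0 := by
        intro u v x z hu hv h hx
        have hz : z = -(u / v) * x := by
          field_simp
          linarith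
        rw [hz]
        have h5 : 0 < u / v := div_pos hu hv
        have h6 : 0 < x * x := mul_self_pos.2 hx
        nlinarith [mul_pos h5 h6]
      have hzero : ∀ (u v x z : ℝ), 0 < v → u * x + v * z = 0 → x = 0 → z = 0 := by
        intro u v x z hv h hx
        rw [hx, mul_zero, zero_add] at h
        rcases mul_eq_zero.1 h with h | h
        · exact absurd h hv.ne'
        · exact h
      have k1 : o P a b c ≠ 0 := by
        intro h0
        have h7 := hzero _ _ _ _ ht0' e1 h0
        have hc : c = a ∨ c = b := by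
          by_contra hcon
          push Not at hcon
          exact hP.ne a b c hab hcon.1.symm hcon.2.symm h0
        have hd : d = a ∨ d = b := by
          by_contra hcon
          push Not at hcon
          exact hP.ne a b d hab hcon.1.symm hcon.2.symm h7
        rcases hc with hc | hc <;> rcases hd with hd | hd
        · exact hcd (hc.trans hd.symm)
        · exact hne ⟨hc.symm, hd.symm⟩
        · exact hne' ⟨hd.symm, hc.symm⟩
        · exact hcd (hc.trans hd.symm)
      have k2 : o P c d a ≠ 0 := by
        intro h0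
        have h7 := hzero _ _ _ _ ht0 e2 h0
        have hc : a = c ∨ a = d := by
          by_contra hcon
          push Not at hcon
          exact hP.ne c d a hcd hcon.1.symm hcon.2.symm h0
        have hd : b = c ∨ b = d := by
          by_contra hcon
          push Not at hcon
          exact hP.ne c d b hcd hcon.1.symm hcon.2.symm h7
        rcases hc with hc | hc <;> rcases hd with hd | hd
        · exact hab (hc.trans hd.symm)
        · exact hne ⟨hc, hd⟩
        · exact hne' ⟨hc, hd⟩
        · exact hab (hc.trans hd.symm)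
      exact hX ⟨hprod _ _ _ _ hs0' ht0' e1 k1, hprod _ _ _ _ hs0 ht0 e2 k2⟩

/-- a generic direction. -/
theorem gen_dir [Finite ι] (hP : Function.Injective P) :
    ∃ w : ℝ × ℝ, w ≠ 0 ∧ ∀ a b, a ≠ b → cr w (P a - P b) ≠ 0 := by
  obtain ⟨s, hs⟩ := (Set.finite_range
    (fun e : ι × ι => (P e.1 - P e.2).2 / (P e.1 - P e.2).1)).infinite_compl.nonempty
  refine ⟨(1, s), by simp, fun a b hab h => ?_⟩
  simp only [cr, one_mul] at h
  by_cases h1 : (P a - P b).1 = 0
  · rw [h1, mul_zero, sub_zero] at h
    have : P a - P b = 0 := Prod.ext h1 h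
    exact hab (hP (sub_eq_zero.1 this))
  · apply hs
    refine ⟨(a, b), ?_⟩
    show (P a - P b).2 / (P a - P b).1 = s
    rw [div_eq_iff h1]
    linarith

/-- the counterclockwise first point, as seen from `p`, of a set in an open halfplane at `p`. -/
theorem first_exists [Finite ι] (p : ι) (w : ℝ × ℝ) (S : ι → Prop)
    (hS : ∀ q, S q → 0 < cr w (P q - P p)) (hne : ∃ q, S q) :
    ∃ l, S l ∧ ∀ c, S c → 0 ≤ o P p l c := by
  obtain ⟨l, hl, hmax⟩ := Set.exists_max_image {q | S q}
    (fun c => (w.1 * (P c - P p).1 + w.2 * (P c - P p).2) / cr w (P c - P p))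
    (Set.toFinite _) hne
  refine ⟨l, hl, fun c hc => ?_⟩
  have h1 := hmax c hc
  have hK := hS l hl
  have hK' := hS c hc
  rw [div_le_div_iff₀ hK' hK] at h1
  have hw : 0 < w.1 ^ 2 + w.2 ^ 2 := by
    rcases (add_nonneg (sq_nonneg w.1) (sq_nonneg w.2)).lt_or_eq with h | h
    · exact h
    · exfalso
      have a1 : w.1 = 0 := by nlinarith [sq_nonneg w.1, sq_nonneg w.2]
      have a2 : w.2 = 0 := by nlinarith [sq_nonneg w.1, sq_nonneg w.2]
      simp only [cr, a1, a2] at hK
      linarith
  have hid : (w.1 * (P c - P p).1 + w.2 * (P c - P p).2) * cr w (P l - P p) -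
      (w.1 * (P l - P p).1 + w.2 * (P l - P p).2) * cr w (P c - P p) =
      -((w.1 ^ 2 + w.2 ^ 2) * o P p l c) := by
    simp only [o, cr]; ring
  have h2 : 0 ≤ (w.1 ^ 2 + w.2 ^ 2) * o P p l c := by linarith
  exact nonneg_of_mul_nonneg_right h2 hw

/-- the counterclockwise last point. -/
theorem last_exists [Finite ι] (p : ι) (w : ℝ × ℝ) (S : ι → Prop)
    (hS : ∀ q, S q → 0 < cr w (P q - P p)) (hne : ∃ q, S q) :
    ∃ l, S l ∧ ∀ c, S c → o P p l c ≤ 0 := by
  obtain ⟨l, hl, hmax⟩ := Set.exists_min_image {q | S q}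
    (fun c => (w.1 * (P c - P p).1 + w.2 * (P c - P p).2) / cr w (P c - P p))
    (Set.toFinite _) hne
  refine ⟨l, hl, fun c hc => ?_⟩
  have h1 := hmax c hc
  have hK := hS l hl
  have hK' := hS c hc
  rw [div_le_div_iff₀ hK hK'] at h1
  have hw : 0 < w.1 ^ 2 + w.2 ^ 2 := by
    rcases (add_nonneg (sq_nonneg w.1) (sq_nonneg w.2)).lt_or_eq with h | h
    · exact h
    · exfalso
      have a1 : w.1 = 0 := by nlinarith [sq_nonneg w.1, sq_nonneg w.2]
      have a2 : w.2 = 0 := by nlinarith [sq_nonneg w.1, sq_nonneg w.2]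
      simp only [cr, a1, a2] at hK
      linarith
  have hid : (w.1 * (P c - P p).1 + w.2 * (P c - P p).2) * cr w (P l - P p) -
      (w.1 * (P l - P p).1 + w.2 * (P l - P p).2) * cr w (P c - P p) =
      -((w.1 ^ 2 + w.2 ^ 2) * o P p l c) := by
    simp only [o, cr]; ring
  have h2 : 0 ≤ (w.1 ^ 2 + w.2 ^ 2) * (-o P p l c) := by linarith
  have h3 := nonneg_of_mul_nonneg_right h2 hw
  linarith

/-- hull darts are edges. -/
theorem hd_adj {T : ι → ι → Prop} (hT : Tri P T) {a b : ι} (h : HD P a b) : T a b := by
  by_contra hcon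
  obtain ⟨c, d, -, h1, -⟩ := hT.max a b h.1 hcon
  have hc := h.2 c
  have hd := h.2 d
  push Not at hc hd
  nlinarith [mul_nonneg_of_nonpos_of_nonpos hc hd]

theorem face_rot {T : ι → ι → Prop} {a b c : ι} (h : Face P T a b c) : Face P T b c a := by
  obtain ⟨h1, h2, h3, h4, h5⟩ := h
  refine ⟨h2, h3, h1, ?_, fun v hv => h5 v ⟨hv.2.2, hv.1, hv.2.1⟩⟩
  rw [o_rot]; exact h4

theorem face_ne {T : ι → ι → Prop} {a b c : ι} (h : Face P T a b c) : a ≠ b ∧ b ≠ c ∧ a ≠ c := by
  obtain ⟨h1, h2, h3, h4, h5⟩ := h
  refine ⟨?_, ?_, ?_⟩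
  · rintro rfl; rw [o_same] at h4; exact lt_irrefl _ h4
  · rintro rfl; rw [o_right] at h4; exact lt_irrefl _ h4
  · rintro rfl; rw [o_left] at h4; exact lt_irrefl _ h4

end Pool.Agent.Helper96.GT
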