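import Pool.Agent.Helper96.GT.St.A4

/-!
# Project GT, piece C1: far edges with a face towards `M` are unique for each direction

Let `y` be the point of the segment `p q` with `cr w y = cr w (P m)`, `y'` the point of the segment `p' q'` with
the same value (they exist, strictly between the end points). Both are on the same side of `m` on the line
`{cr w x = cr w (P m)}` (because `m` is left of `p → q` and of `p' → q'`). If `y'` is between `m` and `y` (`y' = y`
allowed) then `p' q'` has the point `y'` in the closed triangle `p q m`, strictly left of `m p` and `q m`: the edge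
`p' q'` does not cross the sides (`exit2`, `on_seg`, `seg_meet`, `Tri.plane`) and `p'`, `q'` are not strictly inside,
so `p'`, `q'` are vertices of the triangle, and `p' = p`, `q' = q` (`cr w P p' < cr w P m < cr w P q'`; the only
vertex with smaller/larger value is `p`/`q`). So `y` is strictly between `m` and `y'`: i.e. with the affine functions
`g x = op p q x` and `g' x = op p' q' x` one has at `y'`: `g y' < 0`, and at `y`: `0 < g' y`.
The same at `m'` with the two edges exchanged. So the segment `p q` is on both sides of the line `p' q'`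
between `m` and `m'`: it meets this line in a point with `cr w` between `cr w (P m)` and `cr w (P m')`, which is on
the open segment `p' q'` too: the edges cross properly, contradiction.
-/

set_option autoImplicit false

namespace Pool.Agent.Helper96.GT

variable {ι : Type} {P : ι → ℝ × ℝ} {T : ι → ι → Prop}

private theorem C1_lin (w x y : ℝ × ℝ) (s t : ℝ) :
    cr w (s • x + t • y) = s * cr w x + t * cr w y := by
  simp only [cr, Prod.fst_add, Prod.snd_add, Prod.smul_fst, Prod.smul_snd, smul_eq_mul]
  ring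

/-- a point of the line `a b` between `a` and `b` is on the segment. -/
private theorem C1_seg (w : ℝ × ℝ) {a b : ι} {z : ℝ × ℝ} (h0 : op P a b z = 0)
    (hab : cr w (P a) < cr w (P b)) (h1 : cr w (P a) ≤ cr w z) (h2 : cr w z ≤ cr w (P b)) :
    z ∈ segment ℝ (P a) (P b) := by
  have hD : 0 < cr w (P b) - cr w (P a) := by linarith
  refine ⟨(cr w (P b) - cr w z) / (cr w (P b) - cr w (P a)),
    (cr w z - cr w (P a)) / (cr w (P b) - cr w (P a)), div_nonneg (by linarith) hD.le,
    div_nonneg (by linarith) hD.le, ?_, ?_⟩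
  · rw [← add_div, div_eq_one_iff_eq hD.ne']
    ring
  · simp only [op, cr, Prod.fst_sub, Prod.snd_sub] at h0
    simp only [cr] at hD
    refine Prod.ext ?_ ?_
    · simp only [cr, Prod.fst_add, Prod.smul_fst, smul_eq_mul]
      rw [div_mul_eq_mul_div, div_mul_eq_mul_div, ← add_div, div_eq_iff hD.ne']
      linear_combination w.1 * h0
    · simp only [cr, Prod.snd_add, Prod.smul_snd, smul_eq_mul]
      rw [div_mul_eq_mul_div, div_mul_eq_mul_div, ← add_div, div_eq_iff hD.ne']
      linear_combination w.2 * h0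

/-- the barycentric identity. -/
private theorem C1_bary (w : ℝ × ℝ) (p q m : ι) (x : ℝ × ℝ) :
    op P q m x * (cr w (P m) - cr w (P p)) =
      o P p q m * (cr w (P m) - cr w x) + op P m p x * (cr w (P q) - cr w (P m)) := by
  simp only [op, o, cr, Prod.fst_sub, Prod.snd_sub]
  ring

private theorem C1_A (hP : GP P) (hT : Tri P T) (w : ℝ × ℝ) {p q m p' q' : ι}
    (hF : Face P T p q m) (hE : T p' q') (h2 : 0 < o P p' q' m)
    (a1 : cr w (P p) < cr w (P m)) (a2 : cr w (P m) < cr w (P q))
    (b1 : cr w (P p') < cr w (P m)) (b2 : cr w (P m) < cr w (P q'))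
    (hy : 0 ≤ (cr w (P q') - cr w (P m)) * o P p q p' + (cr w (P m) - cr w (P p')) * o P p q q') :
    p = p' ∧ q = q' := by
  have hD : 0 < cr w (P q') - cr w (P p') := by linarith
  obtain ⟨s0, hs0⟩ : ∃ s0, s0 = (cr w (P q') - cr w (P m)) / (cr w (P q') - cr w (P p')) := ⟨_, rfl⟩
  obtain ⟨t0, ht0⟩ : ∃ t0, t0 = (cr w (P m) - cr w (P p')) / (cr w (P q') - cr w (P p')) := ⟨_, rfl⟩
  have hs0' : 0 < s0 := by rw [hs0]; exact div_pos (by linarith) hD
  have ht0' : 0 < t0 := by rw [ht0]; exact div_pos (by linarith) hD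
  have hst0 : s0 + t0 = 1 := by
    rw [hs0, ht0, ← add_div, div_eq_one_iff_eq hD.ne']
    ring
  have es0 : s0 * (cr w (P q') - cr w (P p')) = cr w (P q') - cr w (P m) := by
    rw [hs0, div_mul_cancel₀ _ hD.ne']
  have et0 : t0 * (cr w (P q') - cr w (P p')) = cr w (P m) - cr w (P p') := by
    rw [ht0, div_mul_cancel₀ _ hD.ne']
  obtain ⟨Y, hY⟩ : ∃ Y, Y = s0 • P p' + t0 • P q' := ⟨_, rfl⟩
  have hYseg : Y ∈ segment ℝ (P p') (P q') := ⟨s0, t0, hs0'.le, ht0'.le, hst0, hY.symm⟩
  have hfY : cr w Y = cr w (P m) := by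
    rw [hY, C1_lin]
    have : t0 = 1 - s0 := by linarith
    rw [this]
    linarith
  -- the position of `Y`
  have k1 : 0 < op P q m Y := by
    have e : op P q m Y * (cr w (P q') - cr w (P p')) =
        o P p' q' m * (cr w (P q) - cr w (P m)) := by
      rw [hY, op_comb q m _ _ s0 t0 hst0]
      calc (s0 * op P q m (P p') + t0 * op P q m (P q')) * (cr w (P q') - cr w (P p'))
          = (s0 * (cr w (P q') - cr w (P p'))) * op P q m (P p') +
            (t0 * (cr w (P q') - cr w (P p'))) * op P q m (P q') := by ring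
        _ = _ := by
          rw [es0, et0]
          simp only [op, o, cr, Prod.fst_sub, Prod.snd_sub]
          ring
    exact pos_of_mul_pos_left (by rw [e]; exact mul_pos h2 (by linarith)) hD.le
  have k2 : 0 < op P m p Y := by
    have e : op P m p Y * (cr w (P q') - cr w (P p')) =
        o P p' q' m * (cr w (P m) - cr w (P p)) := by
      rw [hY, op_comb m p _ _ s0 t0 hst0]
      calc (s0 * op P m p (P p') + t0 * op P m p (P q')) * (cr w (P q') - cr w (P p'))
          = (s0 * (cr w (P q') - cr w (P p'))) * op P m p (P p') +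
            (t0 * (cr w (P q') - cr w (P p'))) * op P m p (P q') := by ring
        _ = _ := by
          rw [es0, et0]
          simp only [op, o, cr, Prod.fst_sub, Prod.snd_sub]
          ring
    exact pos_of_mul_pos_left (by rw [e]; exact mul_pos h2 (by linarith)) hD.le
  have k3 : 0 ≤ op P p q Y := by
    have e : op P p q Y * (cr w (P q') - cr w (P p')) =
        (cr w (P q') - cr w (P m)) * o P p q p' + (cr w (P m) - cr w (P p')) * o P p q q' := by
      rw [hY, op_comb p q _ _ s0 t0 hst0]
      calc (s0 * op P p q (P p') + t0 * op P p q (P q')) * (cr w (P q') - cr w (P p'))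
          = (s0 * (cr w (P q') - cr w (P p'))) * op P p q (P p') +
            (t0 * (cr w (P q') - cr w (P p'))) * op P p q (P q') := by ring
        _ = _ := by rw [es0, et0]; rfl
    exact nonneg_of_mul_nonneg_left (by rw [e]; exact hy) hD
  obtain ⟨Tpq, Tqm, Tmp, hpos, hin⟩ := hF
  obtain ⟨npq, nqm, npm⟩ := face_ne (T := T) ⟨Tpq, Tqm, Tmp, hpos, hin⟩
  have npq' : p' ≠ q' := by
    intro h
    rw [h] at hD
    linarith
  have hne2 : ¬ (p = q' ∧ q = p') := by
    rintro ⟨h, -⟩
    rw [← h] at b2
    linarith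
  -- the case that `Y` is on the side `p q`
  rcases k3.eq_or_lt with k3 | k3
  · by_contra hne
    have hm := on_seg hpos k3.symm k1.le k2.le
    rcases (seg_meet hP npq npq' hne hne2 (hT.plane _ _ _ _ Tpq hE) hm hYseg).1 with h | h
    · rw [h] at hfY; linarith
    · rw [h] at hfY; linarith
  have hpos' : 0 < o P m p q := by rw [← o_rot]; exact hpos
  have hpos'' : 0 < o P q m p := by rw [o_rot]; exact hpos
  constructor
  · -- walk to `p'`
    obtain ⟨s, t, hs, ht, hst, z1, z2, z0⟩ := exit2 p q m p Y (P p') k3 k2 (by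
      rintro ⟨g1, g2⟩
      have g3 := C1_bary (P := P) w p q m (P p')
      have g4 : 0 < op P q m (P p') := by
        refine pos_of_mul_pos_left (b := cr w (P m) - cr w (P p)) ?_ (by linarith)
        rw [g3]
        have := mul_pos hpos (show 0 < cr w (P m) - cr w (P p') by linarith)
        have := mul_pos g2 (show 0 < cr w (P q) - cr w (P m) by linarith)
        linarith
      exact hin p' ⟨g1, g4, g2⟩)
    obtain ⟨z, hz⟩ : ∃ z, z = s • Y + t • P p' := ⟨_, rfl⟩
    rw [← hz] at z1 z2 z0
    have hfz : cr w z < cr w (P m) := by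
      rw [hz, C1_lin, hfY]
      have : s = 1 - t := by linarith
      rw [this]
      have := mul_pos ht (show 0 < cr w (P m) - cr w (P p') by linarith)
      linarith
    have g4 : 0 < op P q m z := by
      refine pos_of_mul_pos_left (b := cr w (P m) - cr w (P p)) ?_ (by linarith)
      rw [C1_bary (P := P) w p q m z]
      have := mul_pos hpos (show 0 < cr w (P m) - cr w z by linarith)
      have := mul_nonneg z2 (show 0 ≤ cr w (P q) - cr w (P m) by linarith)
      linarith
    have hzs : z ∈ segment ℝ (P p') (P q') := by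
      rw [hz]
      exact (convex_segment (𝕜 := ℝ) (P p') (P q')) hYseg (left_mem_segment ℝ _ _) hs ht.le hst
    have fin : (z = P p) → (z = P p' ∨ z = P q') → p = p' := by
      intro h3 h4
      rcases h4 with h4 | h4
      · exact hP.inj (h3.symm.trans h4)
      · rw [h4] at hfz; linarith
    rcases z0 with z0 | z0
    · by_contra hne
      have hm := on_seg hpos z0 g4.le z2
      obtain ⟨h3, h4⟩ := seg_meet hP npq npq' (fun h => hne h.1) hne2
        (hT.plane _ _ _ _ Tpq hE) hm hzs
      rcases h3 with h3 | h3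
      · exact hne (fin h3 h4)
      · rw [h3] at hfz; linarith
    · have hm := on_seg hpos' z0 z1 g4.le
      obtain ⟨h3, h4⟩ := seg_meet hP npm.symm npq' (by
        rintro ⟨h, -⟩
        rw [← h] at b1
        linarith) (by
        rintro ⟨h, -⟩
        rw [← h] at b2
        linarith) (hT.plane _ _ _ _ Tmp hE) hm hzs
      rcases h3 with h3 | h3
      · rw [h3] at hfz; linarith
      · exact fin h3 h4
  · -- walk to `q'`
    have hb : ∀ x, cr w (P m) < cr w x → 0 ≤ op P q m x → 0 < op P m p x := by
      intro x hx h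
      refine pos_of_mul_pos_left (b := cr w (P q) - cr w (P m)) ?_ (by linarith)
      have g3 := C1_bary (P := P) w p q m x
      have := mul_pos hpos (show 0 < cr w x - cr w (P m) by linarith)
      have := mul_nonneg h (show 0 ≤ cr w (P m) - cr w (P p) by linarith)
      linarith
    obtain ⟨s, t, hs, ht, hst, z1, z2, z0⟩ := exit2 p q q m Y (P q') k3 k1 (by
      rintro ⟨g1, g2⟩
      exact hin q' ⟨g1, g2, hb _ b2 g2.le⟩)
    obtain ⟨z, hz⟩ : ∃ z, z = s • Y + t • P q' := ⟨_, rfl⟩
    rw [← hz] at z1 z2 z0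
    have hfz : cr w (P m) < cr w z := by
      rw [hz, C1_lin, hfY]
      have : s = 1 - t := by linarith
      rw [this]
      have := mul_pos ht (show 0 < cr w (P q') - cr w (P m) by linarith)
      linarith
    have g4 : 0 < op P m p z := hb z hfz z2
    have hzs : z ∈ segment ℝ (P p') (P q') := by
      rw [hz]
      exact (convex_segment (𝕜 := ℝ) (P p') (P q')) hYseg (right_mem_segment ℝ _ _) hs ht.le hst
    have fin : (z = P q) → (z = P p' ∨ z = P q') → q = q' := by
      intro h3 h4
      rcases h4 with h4 | h4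
      · rw [h4] at hfz; linarith
      · exact hP.inj (h3.symm.trans h4)
    rcases z0 with z0 | z0
    · by_contra hne
      have hm := on_seg hpos z0 z2 g4.le
      obtain ⟨h3, h4⟩ := seg_meet hP npq npq' (fun h => hne h.2) hne2
        (hT.plane _ _ _ _ Tpq hE) hm hzs
      rcases h3 with h3 | h3
      · rw [h3] at hfz; linarith
      · exact hne (fin h3 h4)
    · have hm := on_seg hpos'' z0 g4.le z1
      obtain ⟨h3, h4⟩ := seg_meet hP nqm npq' (by
        rintro ⟨-, h⟩
        rw [← h] at b2
        linarith) (by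
        rintro ⟨-, h⟩
        rw [← h] at b1
        linarith) (hT.plane _ _ _ _ Tqm hE) hm hzs
      rcases h3 with h3 | h3
      · exact fin h3 h4
      · rw [h3] at hfz; linarith

theorem far_unique (hP : GP P) (hT : Tri P T) (w : ℝ × ℝ) {p q m p' q' m' : ι}
    (hF : Face P T p q m) (hF' : Face P T p' q' m')
    (h1 : 0 < o P p q m') (h2 : 0 < o P p' q' m)
    (a1 : cr w (P p) < cr w (P m)) (a2 : cr w (P m) < cr w (P q))
    (a3 : cr w (P p) < cr w (P m')) (a4 : cr w (P m') < cr w (P q))
    (b1 : cr w (P p') < cr w (P m)) (b2 : cr w (P m) < cr w (P q'))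
    (b3 : cr w (P p') < cr w (P m')) (b4 : cr w (P m') < cr w (P q')) :
    p = p' ∧ q = q' := by
  by_contra hne
  have c1 : (cr w (P q') - cr w (P m)) * o P p q p' + (cr w (P m) - cr w (P p')) * o P p q q' < 0 := by
    by_contra hc
    exact hne (C1_A hP hT w hF hF'.1 h2 a1 a2 b1 b2 (not_lt.1 hc))
  have c2 : (cr w (P q) - cr w (P m')) * o P p' q' p + (cr w (P m') - cr w (P p)) * o P p' q' q < 0 := by
    by_contra hc
    have := C1_A hP hT w hF' hF.1 h1 b3 b4 a3 a4 (not_lt.1 hc)
    exact hne ⟨this.1.symm, this.2.symm⟩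
  obtain ⟨G1, hG1⟩ : ∃ G1, G1 = (cr w (P q) - cr w (P m)) * o P p' q' p +
      (cr w (P m) - cr w (P p)) * o P p' q' q := ⟨_, rfl⟩
  obtain ⟨G2, hG2⟩ : ∃ G2, G2 = (cr w (P q) - cr w (P m')) * o P p' q' p +
      (cr w (P m') - cr w (P p)) * o P p' q' q := ⟨_, rfl⟩
  have hG1' : 0 < G1 := by
    have e : G1 = -((cr w (P q') - cr w (P m)) * o P p q p' +
        (cr w (P m) - cr w (P p')) * o P p q q') := by
      rw [hG1]
      simp only [o, cr, Prod.fst_sub, Prod.snd_sub]
      ring
    rw [e]; linarith
  rw [← hG2] at c2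
  have hGG : 0 < G1 - G2 := by linarith
  obtain ⟨l, hl⟩ : ∃ l, l = G1 / (G1 - G2) := ⟨_, rfl⟩
  have hl0 : 0 < l := by rw [hl]; positivity
  have hl1 : 0 < 1 - l := by
    have : 1 - l = -G2 / (G1 - G2) := by rw [hl]; field_simp; ring
    rw [this]; exact div_pos (by linarith) hGG
  obtain ⟨β, hβ⟩ : ∃ β, β = (1 - l) * cr w (P m) + l * cr w (P m') := ⟨_, rfl⟩
  have hconv : ∀ c, c < cr w (P m) → c < cr w (P m') → c < β := by
    intro c hc hc'
    have g1 := mul_pos hl1 (sub_pos.2 hc)
    have g2 := mul_pos hl0 (sub_pos.2 hc')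
    rw [hβ]; linarith
  have hconv' : ∀ c, cr w (P m) < c → cr w (P m') < c → β < c := by
    intro c hc hc'
    have g1 := mul_pos hl1 (sub_pos.2 hc)
    have g2 := mul_pos hl0 (sub_pos.2 hc')
    rw [hβ]; linarith
  have u1 := hconv _ a1 a3
  have u2 := hconv' _ a2 a4
  have u3 := hconv _ b1 b3
  have u4 := hconv' _ b2 b4
  have hD : 0 < cr w (P q) - cr w (P p) := by linarith
  obtain ⟨s, hs⟩ : ∃ s, s = (cr w (P q) - β) / (cr w (P q) - cr w (P p)) := ⟨_, rfl⟩
  obtain ⟨t, ht⟩ : ∃ t, t = (β - cr w (P p)) / (cr w (P q) - cr w (P p)) := ⟨_, rfl⟩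
  have hs0 : 0 < s := by rw [hs]; exact div_pos (by linarith) hD
  have ht0 : 0 < t := by rw [ht]; exact div_pos (by linarith) hD
  have hst : s + t = 1 := by
    rw [hs, ht, ← add_div, div_eq_one_iff_eq hD.ne']
    ring
  have es : s * (cr w (P q) - cr w (P p)) = cr w (P q) - β := by
    rw [hs, div_mul_cancel₀ _ hD.ne']
  have et : t * (cr w (P q) - cr w (P p)) = β - cr w (P p) := by
    rw [ht, div_mul_cancel₀ _ hD.ne']
  obtain ⟨z, hz⟩ : ∃ z, z = s • P p + t • P q := ⟨_, rfl⟩
  have hzs : z ∈ segment ℝ (P p) (P q) := ⟨s, t, hs0.le, ht0.le, hst, hz.symm⟩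
  have hfz : cr w z = β := by
    rw [hz, C1_lin]
    have : t = 1 - s := by linarith
    rw [this]
    linarith
  have hz0 : op P p' q' z = 0 := by
    have e : op P p' q' z * (cr w (P q) - cr w (P p)) = 0 := by
      rw [hz, op_comb p' q' _ _ s t hst]
      calc (s * op P p' q' (P p) + t * op P p' q' (P q)) * (cr w (P q) - cr w (P p))
          = (s * (cr w (P q) - cr w (P p))) * op P p' q' (P p) +
            (t * (cr w (P q) - cr w (P p))) * op P p' q' (P q) := by ring
        _ = (cr w (P q) - β) * o P p' q' p + (β - cr w (P p)) * o P p' q' q := by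
          rw [es, et]; rfl
        _ = (1 - l) * G1 + l * G2 := by rw [hG1, hG2, hβ]; ring
        _ = 0 := by rw [hl]; field_simp; ring
    exact (mul_eq_zero.1 e).resolve_right hD.ne'
  have hzs' : z ∈ segment ℝ (P p') (P q') :=
    C1_seg w hz0 (by linarith) (by rw [hfz]; linarith) (by rw [hfz]; linarith)
  have npq : p ≠ q := by
    intro h
    rw [h] at hD
    linarith
  have npq' : p' ≠ q' := by
    intro h
    rw [h] at u3
    linarith
  rcases (seg_meet hP npq npq' hne (by
    rintro ⟨h, -⟩
    rw [← h] at u4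
    linarith) (hT.plane _ _ _ _ hF.1 hF'.1) hzs hzs').1 with h | h
  · rw [h] at hfz; linarith
  · rw [h] at hfz; linarith

end Pool.Agent.Helper96.GT
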