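import Pool.Agent.Helper96.GT.St.B1

/-!
# Project GT, piece C2: pairs which are not linked

Notation of B1. `unlinked`: the cases `R p q, R q p` (impossible, `R_asymm`), `R p q, L q p`, `L p q, R q p`, `L p q, L q p`.
Case `R p q, L q p`: `t p` is left of `p → q`. If `m ∈ M` is right of `p → q`, the segment `t p, m` meets the line in
`z = P p + s (P q - P p)`, `s ≤ 0` (`φ p z ≥ 0`, `φ p q < 0`), and
`φ q z = (1 - s) φ q p ≥ φ q p > φ q (t p), φ q m`, contradiction (`φ q z` is between them).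
Case `L p q, L q p` is impossible: `φ p (t q) - φ p q = cr (α p) (α q)` and `φ q (t p) - φ q p = cr (α q) (α p)` have
opposite signs or are zero, but both are `< 0`.
`Opp_of_lt` (for C3): `α`-order: `q`, `q'` with `R p q`, `R p q'` and `0 < cr (α q) (α q')` give `R q q'`: by Cramer
`α q = a α p + b α q'` with `a, b > 0` (use `R_cr`), so `φ` in the direction `α q`: for `m ∈ M`,
`cr (α q) (m - q') = a cr (α p) (m - q') + b cr (α q') (m - q') > 0`; take `m = t q`.
`cr_ne` : the tangents of two different `q`, `q'` with `R p q`, `R p q'` are not parallel: otherwise they are the same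
line and `q, t q, q'` are collinear.
-/

set_option autoImplicit false

namespace Pool.Agent.Helper96.GT

variable {ι : Type} {P : ι → ℝ × ℝ} {M : ι → Prop} {t : ι → ι}

private theorem C2_pl (a b c d : ℝ × ℝ) :
    cr a b * cr c d - cr a c * cr b d + cr a d * cr b c = 0 := by
  simp only [cr]; ring

private theorem C2_left (ht : Tan P M t) {p m : ι} (hp : ¬ M p) (hm : M m) :
    0 ≤ o P p (t p) m := by
  by_cases h : m = t p
  · rw [h, o_right]
  · exact (ht.left p hp m hm h).le

/-- the case `R p q`, `L q p`. -/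
private theorem C2_RL (hP : GP P) (ht : Tan P M t) {p q : ι} (hp : ¬ M p) (hq : ¬ M q)
    (h1 : R P t p q) (h2 : L P M t q p) (m : ι) (hm : M m) : 0 < o P p q m := by
  by_contra hcon
  push Not at hcon
  have hqp : p ≠ q := by
    rintro rfl
    unfold R at h1
    rw [o_left] at h1
    exact lt_irrefl _ h1
  have hpm : p ≠ m := by rintro rfl; exact hp hm
  have hqm : q ≠ m := by rintro rfl; exact hq hm
  have hlt : o P p q m < 0 := lt_of_le_of_ne hcon (hP.ne p q m hqp hpm hqm)
  have a1 : cr (P (t p) - P p) (P q - P p) < 0 := h1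
  have a2 : 0 ≤ cr (P (t p) - P p) (P m - P p) := C2_left ht hp hm
  have a3 : cr (P q - P p) (P m - P p) < 0 := hlt
  have a4 : cr (P (t q) - P q) (P m - P q) < cr (P (t q) - P q) (P p - P q) := h2 m hm
  have a5 : cr (P (t q) - P q) (P (t p) - P q) < cr (P (t q) - P q) (P p - P q) :=
    h2 (t p) (ht.mem p hp)
  have a6 : 0 ≤ cr (P (t q) - P q) (P (t p) - P q) := C2_left ht hq (ht.mem p hp)
  set A := P (t p) - P p with hA
  set Q := P q - P p with hQ
  set V := P m - P p with hV
  set B := P (t q) - P q with hB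
  have e1 : P m - P q = V - Q := by rw [hV, hQ]; abel
  have e2 : P p - P q = 0 - Q := by rw [hQ]; abel
  have e3 : P (t p) - P q = A - Q := by rw [hA, hQ]; abel
  have e0 : cr B 0 = 0 := by simp [cr]
  clear_value A Q V B
  rw [e1, e2, cr_sub_right, cr_sub_right, e0] at a4
  rw [e3, e2, cr_sub_right, cr_sub_right, e0] at a5
  rw [e3, cr_sub_right] at a6
  have b1 : cr B V < 0 := by linarith
  have b2 : cr B A < 0 := by linarith
  have b3 : cr B Q < 0 := by linarith
  have hpl := C2_pl A Q V B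
  rw [cr_comm V B, cr_comm Q B, cr_comm A B] at hpl
  nlinarith [mul_pos_of_neg_of_neg a1 b1, mul_nonneg a2 (neg_nonneg.2 b3.le),
    mul_pos_of_neg_of_neg b2 a3]

theorem unlinked (hP : GP P) (ht : Tan P M t) {p q : ι} (hp : ¬ M p) (hq : ¬ M q)
    (h1 : R P t p q ∨ L P M t p q) (h2 : R P t q p ∨ L P M t q p) :
    (R P t p q ∧ L P M t q p ∧ ∀ m, M m → 0 < o P p q m) ∨
      (R P t q p ∧ L P M t p q ∧ ∀ m, M m → 0 < o P q p m) := by
  rcases h1 with h1 | h1 <;> rcases h2 with h2 | h2
  · exact absurd h2 (R_asymm hP ht hp hq h1)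
  · exact Or.inl ⟨h1, h2, C2_RL hP ht hp hq h1 h2⟩
  · exact Or.inr ⟨h2, h1, C2_RL hP ht hq hp h2 h1⟩
  · exfalso
    have a1 : cr (P (t p) - P p) (P (t q) - P p) < cr (P (t p) - P p) (P q - P p) :=
      h1 (t q) (ht.mem q hq)
    have a2 : cr (P (t q) - P q) (P (t p) - P q) < cr (P (t q) - P q) (P p - P q) :=
      h2 (t p) (ht.mem p hp)
    simp only [cr, Prod.fst_sub, Prod.snd_sub] at a1 a2
    nlinarith

theorem R_of_cr (hP : GP P) (ht : Tan P M t) {p q q' : ι} (hp : ¬ M p) (hq : ¬ M q) (hq' : ¬ M q')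
    (h1 : R P t p q) (h2 : R P t p q') (h : 0 < cr (P (t q) - P q) (P (t q') - P q')) :
    R P t q q' := by
  have a1 := R_cr hP ht hp hq h1
  have a2 := R_cr hP ht hp hq' h2
  have a3 : 0 ≤ cr (P (t q') - P q') (P (t q) - P q') := C2_left ht hq' (ht.mem q hq)
  have a4 : 0 ≤ cr (P (t p) - P p) (P (t q) - P p) := C2_left ht hp (ht.mem q hq)
  have a5 : cr (P (t p) - P p) (P q' - P p) < 0 := h2
  have a6 : 0 < cr (P (t p) - P p) (P (t q) - P q') := by
    have : cr (P (t p) - P p) (P (t q) - P q') =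
        cr (P (t p) - P p) (P (t q) - P p) - cr (P (t p) - P p) (P q' - P p) := by
      simp only [cr, Prod.fst_sub, Prod.snd_sub]; ring
    linarith
  have hpl := C2_pl (P (t p) - P p) (P (t q') - P q') (P (t q) - P q) (P (t q) - P q')
  rw [cr_comm (P (t q') - P q') (P (t q) - P q)] at hpl
  have e : cr (P (t q) - P q) (P (t q) - P q') = - cr (P (t q) - P q) (P q' - P q) := by
    simp only [cr, Prod.fst_sub, Prod.snd_sub]; ring
  rw [e] at hpl
  change cr (P (t q) - P q) (P q' - P q) < 0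
  by_contra hcon
  push Not at hcon
  nlinarith [mul_nonneg a2.le hcon, mul_nonneg a1.le a3, mul_pos a6 h]

theorem cr_ne (hP : GP P) (ht : Tan P M t) {p q q' : ι} (hp : ¬ M p) (hq : ¬ M q) (hq' : ¬ M q')
    (hne : q ≠ q') (h1 : R P t p q) (h2 : R P t p q') :
    cr (P (t q) - P q) (P (t q') - P q') ≠ 0 := by
  intro h
  have a1 := R_cr hP ht hp hq h1
  have a2 := R_cr hP ht hp hq' h2
  have a3 : 0 ≤ cr (P (t q') - P q') (P (t q) - P q') := C2_left ht hq' (ht.mem q hq)
  have a4 : 0 ≤ cr (P (t q) - P q) (P (t q') - P q) := C2_left ht hq (ht.mem q' hq')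
  have hne' : cr (P (t q) - P q) (P q' - P q) ≠ 0 :=
    hP.ne q (t q) q' (fun e => hq (by rw [e]; exact ht.mem q hq)) hne
      (fun e => hq' (by rw [← e]; exact ht.mem q hq))
  set A := P (t p) - P p with hA
  set B := P (t q) - P q with hB
  set B' := P (t q') - P q' with hB'
  set W := P q' - P q with hW
  have e1 : P (t q) - P q' = B - W := by rw [hB, hW]; abel
  have e2 : P (t q') - P q = B' + W := by rw [hB', hW]; abel
  clear_value A B B' W
  rw [e1, cr_sub_right, cr_comm B' B, h] at a3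
  rw [e2, cr_add_right, h] at a4
  have hpl := C2_pl A B B' W
  rw [h, mul_zero, add_zero] at hpl
  have b1 : cr B' W ≤ 0 := by linarith
  have b2 : 0 < cr B W := lt_of_le_of_ne (by linarith) (Ne.symm hne')
  nlinarith [mul_pos a2 b2, mul_nonneg a1.le (neg_nonneg.2 b1)]

end Pool.Agent.Helper96.GT
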