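import Pool.Agent.Helper96.GT.St.C2

/-!
# Project GT, piece C3: the number of pairs which are not far

`near_count`: for each `p ∉ M` let `S = {q ∉ M | R p q, L q p}`. By `cr_ne` exactly one of `0 < cr (α q) (α q')`,
`0 < cr (α q') (α q)` holds for different `q, q' ∈ S`; if `0 < cr (α q) (α q')` then `R q q'` (`R_of_cr`) and `L q p`,
so `q` is counted in `wt p q'`. So `wt p q' ≥ #{q ∈ S | 0 < cr (α q) (α q')}` and (a tournament: in the set `Q` of all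
`q'` with `wt p q' < δ` the sum of the indegrees is `|Q| (|Q| - 1) / 2` and at most `|Q| (δ - 1)`), `|Q| ≤ 2 δ`.
Sum over `p`.
`mid_count`: for each `r ∉ M` the sets `{q ∉ M | R r q}`, `{q ∉ M | L r q}` are disjoint (`M` is not empty) and have
at least `x` elements.
`nfar_count`: a pair `p ≠ q` outside of `M` which is not far is (by `unlinked`) in one of: not (`R p q` or `L p q`);
not (`R q p` or `L q p`); `R p q, L q p, wt p q < δ`; `R q p, L p q, wt q p < δ` (`wt` is symmetric). `cnt_swap`.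
-/

set_option autoImplicit false

namespace Pool.Agent.Helper96.GT

variable {ι : Type} [Fintype ι] {P : ι → ℝ × ℝ} {M : ι → Prop} {t : ι → ι}

theorem near_count (hP : GP P) (ht : Tan P M t) (δ : ℕ) :
    cnt (fun e : ι × ι => ¬ M e.1 ∧ ¬ M e.2 ∧ R P t e.1 e.2 ∧ L P M t e.2 e.1 ∧
      wt P M t e.1 e.2 < δ) ≤ 2 * δ * cnt (fun p => ¬ M p) := by
  sorry

theorem mid_count (hM : ∃ m, M m) (ht : Tan P M t) (x : ℕ)
    (h1 : ∀ r, ¬ M r → x ≤ cnt (fun q => ¬ M q ∧ R P t r q))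
    (h2 : ∀ r, ¬ M r → x ≤ cnt (fun q => ¬ M q ∧ L P M t r q)) :
    cnt (fun e : ι × ι => ¬ M e.1 ∧ ¬ M e.2 ∧ ¬ (R P t e.1 e.2 ∨ L P M t e.1 e.2)) +
      2 * x * cnt (fun p => ¬ M p) ≤ cnt (fun p => ¬ M p) * cnt (fun p => ¬ M p) := by
  sorry

theorem nfar_count (hP : GP P) (hM : ∃ m, M m) (ht : Tan P M t) (x δ : ℕ)
    (h1 : ∀ r, ¬ M r → x ≤ cnt (fun q => ¬ M q ∧ R P t r q))
    (h2 : ∀ r, ¬ M r → x ≤ cnt (fun q => ¬ M q ∧ L P M t r q)) :
    cnt (fun e : ι × ι => e.1 ≠ e.2 ∧ ¬ M e.1 ∧ ¬ M e.2 ∧ ¬ Far P M t δ e.1 e.2) +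
      4 * x * cnt (fun p => ¬ M p) ≤
        2 * (cnt (fun p => ¬ M p) * cnt (fun p => ¬ M p)) + 4 * δ * cnt (fun p => ¬ M p) := by
  sorry

end Pool.Agent.Helper96.GT
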