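import Pool.Agent.Helper96.GT.St.C1
import Pool.Agent.Helper96.GT.St.C2

/-!
# Project GT, piece C4: the number of faces towards `M`

Let `D` be the number of triples `(a, b, c)` with `Face P T a b c`, `a, b ∉ M`, `c ∈ M`. `(a, b, c) ↦ (a, b)` is
injective (`face_unique`). The triples with `(a, b)` not far are at most as many as the darts outside of `M`
which are not far. For the far ones: `unlinked` gives that all of `M` is left of `a → b` (the face vertex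
`c ∈ M` is). For each `r ∉ M` at most one of these triples has `R r a ∧ L r b` and at most one has `L r a ∧ R r b`
(`far_unique` with `w = P (t r) - P r`, and with `-w`; note `o P r (t r) q = cr w (P q) - cr w (P r)`, so `R r a` says
`cr w (P a) < cr w (P r) = cr w (P (t r)) ≤ cr w (P m)` for all `m ∈ M` and `L r b` says
`cr w (P m) < cr w (P b)`). Double counting of the pairs (triple, `r`): `δ * #far ≤ ∑ wt ≤ 2 * #Mᶜ`.
-/

set_option autoImplicit false

namespace Pool.Agent.Helper96.GT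

variable {ι : Type} [Fintype ι] {P : ι → ℝ × ℝ} {T : ι → ι → Prop} {M : ι → Prop} {t : ι → ι}

omit [Fintype ι] in
private theorem C4_o (r x : ι) : o P r (t r) x = cr (P (t r) - P r) (P x) - cr (P (t r) - P r) (P r) := by
  unfold o
  rw [cr_sub_right]

private theorem C4_neg (u x : ℝ × ℝ) : cr (-u) x = - cr u x := by
  simp only [cr, Prod.fst_neg, Prod.snd_neg]; ring

/-- the triples towards `M` whose first dart is far. -/
private def DF (P : ι → ℝ × ℝ) (T : ι → ι → Prop) (M : ι → Prop) (t : ι → ι) (δ : ℕ)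
    (f : ι × ι × ι) : Prop :=
  (Face P T f.1 f.2.1 f.2.2 ∧ ¬ M f.1 ∧ ¬ M f.2.1 ∧ M f.2.2) ∧ Far P M t δ f.1 f.2.1

private theorem C4_left (hP : GP P) (ht : Tan P M t) {δ : ℕ} {f : ι × ι × ι}
    (h : DF P T M t δ f) (m : ι) (hm : M m) : 0 < o P f.1 f.2.1 m := by
  obtain ⟨⟨hF, h1, h2, h3⟩, hf1, hf2, -⟩ := h
  rcases unlinked hP ht h1 h2 hf1 hf2 with ⟨-, -, h4⟩ | ⟨-, -, h4⟩
  · exact h4 m hm
  · exfalso
    have h5 := h4 _ h3
    have h6 : 0 < o P f.1 f.2.1 f.2.2 := hF.2.2.2.1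
    rw [o_swap] at h5
    linarith

private theorem C4_one (p : ι × ι × ι → Prop) (h : ∀ a b, p a → p b → a = b) : cnt p ≤ 1 := by
  classical
  unfold cnt
  refine Finset.card_le_one.2 ?_
  intro a ha b hb
  exact h a b (Finset.mem_filter.1 ha).2 (Finset.mem_filter.1 hb).2

private theorem C4_uniq (hP : GP P) (hT : Tri P T) (ht : Tan P M t) {δ : ℕ} (w : ℝ × ℝ)
    {f g : ι × ι × ι} (hf : DF P T M t δ f) (hg : DF P T M t δ g)
    (f1 : ∀ m, M m → cr w (P f.1) < cr w (P m)) (f2 : ∀ m, M m → cr w (P m) < cr w (P f.2.1))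
    (g1 : ∀ m, M m → cr w (P g.1) < cr w (P m)) (g2 : ∀ m, M m → cr w (P m) < cr w (P g.2.1)) :
    f = g := by
  have mf : M f.2.2 := hf.1.2.2.2
  have mg : M g.2.2 := hg.1.2.2.2
  obtain ⟨e1, e2⟩ := far_unique hP hT w hf.1.1 hg.1.1 (C4_left hP ht hf _ mg)
    (C4_left hP ht hg _ mf) (f1 _ mf) (f2 _ mf) (f1 _ mg) (f2 _ mg) (g1 _ mf) (g2 _ mf)
    (g1 _ mg) (g2 _ mg)
  have hF := hf.1.1
  rw [e1, e2] at hF
  have e3 := face_unique hP hT hF hg.1.1
  exact Prod.ext e1 (Prod.ext e2 e3)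

omit [Fintype ι] in
private theorem C4_R (ht : Tan P M t) {r a : ι} (hr : ¬ M r) (h : R P t r a) (m : ι) (hm : M m) :
    cr (P (t r) - P r) (P a) < cr (P (t r) - P r) (P m) := by
  have h1 : o P r (t r) a < 0 := h
  have h2 : 0 ≤ o P r (t r) m := by
    by_cases hmt : m = t r
    · rw [hmt, o_right]
    · exact (ht.left r hr m hm hmt).le
  rw [C4_o] at h1 h2
  linarith

omit [Fintype ι] in
private theorem C4_L {r b : ι} (h : L P M t r b) (m : ι) (hm : M m) :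
    cr (P (t r) - P r) (P m) < cr (P (t r) - P r) (P b) := by
  have h1 := h m hm
  rw [C4_o, C4_o] at h1
  linarith

private theorem C4_two (hP : GP P) (hT : Tri P T) (ht : Tan P M t) (δ : ℕ) (r : ι) (hr : ¬ M r) :
    cnt (fun f : ι × ι × ι => DF P T M t δ f ∧
      ((R P t r f.1 ∧ L P M t r f.2.1) ∨ (L P M t r f.1 ∧ R P t r f.2.1))) ≤ 2 := by
  have h1 : cnt (fun f : ι × ι × ι => DF P T M t δ f ∧ R P t r f.1 ∧ L P M t r f.2.1) ≤ 1 := by
    refine C4_one _ fun f g hf hg => ?_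
    exact C4_uniq hP hT ht (P (t r) - P r) hf.1 hg.1 (C4_R ht hr hf.2.1) (C4_L hf.2.2)
      (C4_R ht hr hg.2.1) (C4_L hg.2.2)
  have h2 : cnt (fun f : ι × ι × ι => DF P T M t δ f ∧ L P M t r f.1 ∧ R P t r f.2.1) ≤ 1 := by
    refine C4_one _ fun f g hf hg => ?_
    have k1 : ∀ {a : ι}, L P M t r a → ∀ m, M m →
        cr (-(P (t r) - P r)) (P a) < cr (-(P (t r) - P r)) (P m) := by
      intro a ha m hm
      rw [C4_neg, C4_neg]
      exact neg_lt_neg (C4_L ha m hm)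
    have k2 : ∀ {a : ι}, R P t r a → ∀ m, M m →
        cr (-(P (t r) - P r)) (P m) < cr (-(P (t r) - P r)) (P a) := by
      intro a ha m hm
      rw [C4_neg, C4_neg]
      exact neg_lt_neg (C4_R ht hr ha m hm)
    exact C4_uniq hP hT ht (-(P (t r) - P r)) hf.1 hg.1 (k1 hf.2.1) (k2 hf.2.2)
      (k1 hg.2.1) (k2 hg.2.2)
  calc cnt (fun f : ι × ι × ι => DF P T M t δ f ∧
      ((R P t r f.1 ∧ L P M t r f.2.1) ∨ (L P M t r f.1 ∧ R P t r f.2.1)))
      ≤ cnt (fun f : ι × ι × ι => (DF P T M t δ f ∧ R P t r f.1 ∧ L P M t r f.2.1) ∨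
        (DF P T M t δ f ∧ L P M t r f.1 ∧ R P t r f.2.1)) := by
        refine cnt_mono fun f hf => ?_
        rcases hf with ⟨hf, h | h⟩
        · exact Or.inl ⟨hf, h⟩
        · exact Or.inr ⟨hf, h⟩
    _ ≤ _ := cnt_or_le _ _
    _ ≤ 2 := by omega

private theorem C4_far (hP : GP P) (hT : Tri P T) (ht : Tan P M t) (δ : ℕ) :
    δ * cnt (DF P T M t δ) ≤ 2 * cnt (fun p => ¬ M p) := by
  classical
  let Q : (ι × ι × ι) → ι → Prop := fun f r => ¬ M r ∧
    ((R P t r f.1 ∧ L P M t r f.2.1) ∨ (L P M t r f.1 ∧ R P t r f.2.1))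
  have e1 : δ * cnt (DF P T M t δ) ≤ cnt (fun z : (ι × ι × ι) × ι => DF P T M t δ z.1 ∧ Q z.1 z.2) := by
    rw [cnt_prod (α := ι × ι × ι) (β := ι), cnt_sum (p := DF P T M t δ), Finset.mul_sum]
    refine Finset.sum_le_sum fun f _ => ?_
    by_cases hf : DF P T M t δ f
    · rw [if_pos hf, mul_one]
      have h1 : δ ≤ wt P M t f.1 f.2.1 := hf.2.2.2
      refine h1.trans ?_
      exact cnt_mono fun r hr => ⟨hf, hr⟩
    · rw [if_neg hf]
      simp
  have e2 : cnt (fun z : (ι × ι × ι) × ι => DF P T M t δ z.1 ∧ Q z.1 z.2) ≤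
      2 * cnt (fun p => ¬ M p) := by
    rw [cnt_swap, cnt_prod, cnt_sum (p := fun p => ¬ M p), Finset.mul_sum]
    refine Finset.sum_le_sum fun r _ => ?_
    by_cases hr : M r
    · have h0 : cnt (fun b : ι × ι × ι => DF P T M t δ b ∧ Q b r) = 0 := by
        rw [cnt_sum]
        exact Finset.sum_eq_zero fun f _ => if_neg fun hf => hf.2.1 hr
      change cnt (fun b : ι × ι × ι => DF P T M t δ b ∧ Q b r) ≤ _
      rw [h0]
      exact Nat.zero_le _
    · rw [if_pos hr, mul_one]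
      refine (cnt_mono ?_).trans (C4_two hP hT ht δ r hr)
      intro f hf
      exact ⟨hf.1, hf.2.2⟩
  exact e1.trans e2

theorem D_count (hP : GP P) (hT : Tri P T) (ht : Tan P M t) (δ : ℕ) :
    δ * cnt (fun f : ι × ι × ι => Face P T f.1 f.2.1 f.2.2 ∧ ¬ M f.1 ∧ ¬ M f.2.1 ∧ M f.2.2) ≤
      δ * cnt (fun e : ι × ι => T e.1 e.2 ∧ ¬ M e.1 ∧ ¬ M e.2 ∧ ¬ Far P M t δ e.1 e.2) +
      2 * cnt (fun p => ¬ M p) := by
  rw [cnt_split (fun f : ι × ι × ι => Face P T f.1 f.2.1 f.2.2 ∧ ¬ M f.1 ∧ ¬ M f.2.1 ∧ M f.2.2)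
    (fun f => Far P M t δ f.1 f.2.1), mul_add, add_comm]
  refine Nat.add_le_add ?_ (C4_far hP hT ht δ)
  refine Nat.mul_le_mul_left _ ?_
  refine cnt_le_of_inj (fun f => (f.1, f.2.1)) ?_ ?_
  · rintro f ⟨⟨h1, h2, h3, -⟩, h4⟩
    exact ⟨h1.1, h2, h3, h4⟩
  · rintro f g ⟨⟨h1, -⟩, -⟩ ⟨⟨h2, -⟩, -⟩ h
    have e1 : f.1 = g.1 := (Prod.ext_iff.1 h).1
    have e2 : f.2.1 = g.2.1 := (Prod.ext_iff.1 h).2
    rw [e1, e2] at h1
    exact Prod.ext e1 (Prod.ext e2 (face_unique hP hT h1 h2))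

end Pool.Agent.Helper96.GT
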