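import Pool.Agent.Helper96.GT.St.Base

/-!
# Project GT, piece D1: depth

`depth_spec`, `depth_le`: `Nat.sInf_mem`, `Nat.sInf_le`. `depth_lt`: the open halfplane at `q` in direction `w` is
contained in the one at `p` and misses `q`. `depth_hd`: direction `w = P b - P a`. `cnt_depth_zero`: if `depth p = 0`
there is `w ≠ 0` with `cr w (P q - P p) ≤ 0` for all `q`; then (order the other points around `p`; all in a closed
halfplane whose boundary contains at most one other point, because of `GP`; so after a tiny rotation of `w` they are in
an open one, or treat the boundary point separately) there is `l ≠ p` with `0 < o P p l c` for all other `c`,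
so `(l, p)` is a hull dart; `p ↦ (l, p)` is injective. `two_mul_le_us`: a generic direction `w` (`gen_dir`): the `y`
points with fewer than `y` points strictly above and the `y` points with fewer than `y` points strictly below.
-/

set_option autoImplicit false

namespace Pool.Agent.Helper96.GT

variable {ι : Type} [Fintype ι] {P : ι → ℝ × ℝ}

theorem depth_spec (P : ι → ℝ × ℝ) (p : ι) :
    ∃ w : ℝ × ℝ, w ≠ 0 ∧ cnt (fun q => 0 < cr w (P q - P p)) = depth P p := by
  sorry

theorem depth_le (P : ι → ℝ × ℝ) (p : ι) {w : ℝ × ℝ} (hw : w ≠ 0) :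
    depth P p ≤ cnt (fun q => 0 < cr w (P q - P p)) := by
  sorry

theorem depth_lt {p q : ι} {w : ℝ × ℝ} (hw : w ≠ 0)
    (h : cnt (fun q => 0 < cr w (P q - P p)) = depth P p) (hq : 0 < cr w (P q - P p)) :
    depth P q < depth P p := by
  sorry

theorem depth_hd (hP : GP P) {a b : ι} (h : HD P a b) : depth P a = 0 ∧ depth P b = 0 := by
  sorry

theorem us_one_le (hP : GP P) (hn : 2 ≤ Fintype.card ι) : us P 1 ≤ hd P := by
  sorry

theorem two_mul_le_us (hP : GP P) (y : ℕ) (hy : 2 * y ≤ Fintype.card ι) : 2 * y ≤ us P y := by
  sorry

end Pool.Agent.Helper96.GT
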