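import Pool.Agent.Helper96.GT.St.D1

/-!
# Project GT, piece D2: tangents to the deep region

`exists_tan`: `M p = (x ≤ depth P p)`. For `p ∉ M` take `w` from `depth_spec`: all `q` with `0 < cr w (P q - P p)` have
smaller depth (`depth_lt`), so all of `M` has `cr w (P q - P p) ≤ 0`, with equality for at most one `q` (`GP`).
Let `l` be the counterclockwise first point of `M` as seen from `p` (`first_exists` for the open halfplane of
`-w`; treat the boundary point separately: it is either first or last).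
`R_size`: `{q | R r q}` is the open halfplane at `t r` in the direction `-(P (t r) - P r)`, it has at least
`depth (t r) ≥ x` points, none of them in `M` (`Tan.left`). `L_size`: let `m` be a point of `M` with
`cr w (P m)` maximal, `w = P (t r) - P r`; the open halfplane at `m` in the direction `w`.
-/

set_option autoImplicit false

namespace Pool.Agent.Helper96.GT

variable {ι : Type} [Fintype ι] {P : ι → ℝ × ℝ}

/-- vectors in the plane: the sign of `cr u v` for `u` parallel to `w` and `v` to the left of `w`. -/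
private theorem D2_sign {u v w : ℝ × ℝ} (hu : u ≠ 0) (hw : w ≠ 0) (h0 : cr w u = 0)
    (hv : 0 < cr w v) : (0 < u.1 * w.1 + u.2 * w.2 ∧ 0 < cr u v) ∨
      (u.1 * w.1 + u.2 * w.2 < 0 ∧ cr u v < 0) := by
  have hw2 : 0 < w.1 ^ 2 + w.2 ^ 2 := by
    rcases eq_or_ne w.1 0 with h1 | h1
    · rcases eq_or_ne w.2 0 with h2 | h2
      · exact absurd (Prod.ext h1 h2) hw
      · positivity
    · positivity
  have hu2 : 0 < u.1 ^ 2 + u.2 ^ 2 := by
    rcases eq_or_ne u.1 0 with h1 | h1
    · rcases eq_or_ne u.2 0 with h2 | h2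
      · exact absurd (Prod.ext h1 h2) hu
      · positivity
    · positivity
  have h1 : (w.1 ^ 2 + w.2 ^ 2) * cr u v = (u.1 * w.1 + u.2 * w.2) * cr w v := by
    simp only [cr] at h0 ⊢
    linear_combination (- (w.1 * v.1 + w.2 * v.2)) * h0
  have h2 : (u.1 * w.1 + u.2 * w.2) ^ 2 = (w.1 ^ 2 + w.2 ^ 2) * (u.1 ^ 2 + u.2 ^ 2) := by
    simp only [cr] at h0
    linear_combination (-(w.1 * u.2 - w.2 * u.1)) * h0
  have h3 : u.1 * w.1 + u.2 * w.2 ≠ 0 := by
    intro h
    rw [h] at h2
    have := mul_pos hw2 hu2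
    rw [← h2] at this
    norm_num at this
  rcases lt_or_gt_of_ne h3 with h | h
  · right
    refine ⟨h, ?_⟩
    have h4 : (u.1 * w.1 + u.2 * w.2) * cr w v < 0 := mul_neg_of_neg_of_pos h hv
    rw [← h1] at h4
    by_contra hc
    push Not at hc
    exact absurd h4 (not_lt.2 (mul_nonneg hw2.le hc))
  · left
    refine ⟨h, ?_⟩
    have h4 : 0 < (u.1 * w.1 + u.2 * w.2) * cr w v := mul_pos h hv
    rw [← h1] at h4
    exact (mul_pos_iff_of_pos_left hw2).1 h4

private theorem D2_tan (hP : GP P) (x : ℕ) (hM : ∃ m, x ≤ depth P m) (p : ι)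
    (hp : ¬ x ≤ depth P p) :
    ∃ l, x ≤ depth P l ∧ ∀ c, x ≤ depth P c → c ≠ l → 0 < o P p l c := by
  obtain ⟨w, hw, hc⟩ := depth_spec P p
  have hne : ∀ m, x ≤ depth P m → m ≠ p := fun m hm h => hp (h ▸ hm)
  have hw' : -w ≠ 0 := neg_ne_zero.2 hw
  have hneg : ∀ v : ℝ × ℝ, cr (-w) v = - cr w v := fun v => by
    simp only [cr, Prod.fst_neg, Prod.snd_neg]; ring
  have hle : ∀ m, x ≤ depth P m → 0 ≤ cr (-w) (P m - P p) := by
    intro m hm
    rw [hneg]
    by_contra h
    push Not at h
    have h1 : 0 < cr w (P m - P p) := by linarith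
    have h2 := depth_lt hw hc h1
    omega
  by_cases hS : ∃ m, x ≤ depth P m ∧ 0 < cr (-w) (P m - P p)
  · obtain ⟨l, ⟨hl1, hl2⟩, hl3⟩ := first_exists (P := P) p (-w)
      (fun m => x ≤ depth P m ∧ 0 < cr (-w) (P m - P p)) (fun q hq => hq.2) hS
    have hl4 : ∀ c, x ≤ depth P c → 0 < cr (-w) (P c - P p) → c ≠ l → 0 < o P p l c := by
      intro c h1 h2 h3
      exact lt_of_le_of_ne (hl3 c ⟨h1, h2⟩)
        (Ne.symm (hP.ne p l c (hne l hl1).symm (hne c h1).symm h3.symm))
    by_cases hB : ∃ b, x ≤ depth P b ∧ cr (-w) (P b - P p) = 0 ∧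
        0 < (P b - P p).1 * (-w).1 + (P b - P p).2 * (-w).2
    · obtain ⟨b, hb1, hb2, hb3⟩ := hB
      have hb0 : P b - P p ≠ 0 := sub_ne_zero.2 (fun h => hne b hb1 (hP.inj h))
      refine ⟨b, hb1, fun c hc1 hc2 => ?_⟩
      rcases (hle c hc1).lt_or_eq with h | h
      · rcases D2_sign hb0 hw' hb2 h with h' | h'
        · exact h'.2
        · exact absurd hb3 (not_lt.2 h'.1.le)
      · exfalso
        have hc0 : P c - P p ≠ 0 := sub_ne_zero.2 (fun h => hne c hc1 (hP.inj h))
        refine hP.ne p b c (hne b hb1).symm (hne c hc1).symm (Ne.symm hc2) ?_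
        -- both parallel to `w`
        have e1 := hb2
        have e2 := h.symm
        rw [hneg] at e1 e2
        have e1' : w.1 * (P b - P p).2 - w.2 * (P b - P p).1 = 0 := by
          simp only [cr] at e1; linarith
        have e2' : w.1 * (P c - P p).2 - w.2 * (P c - P p).1 = 0 := by
          simp only [cr] at e2; linarith
        have f1 : w.1 * cr (P b - P p) (P c - P p) = 0 := by
          simp only [cr]
          linear_combination (P b - P p).1 * e2' - (P c - P p).1 * e1'
        have f2 : w.2 * cr (P b - P p) (P c - P p) = 0 := by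
          simp only [cr]
          linear_combination (P b - P p).2 * e2' - (P c - P p).2 * e1'
        show cr (P b - P p) (P c - P p) = 0
        rcases mul_eq_zero.1 f1 with g | g
        · rcases mul_eq_zero.1 f2 with g' | g'
          · exact absurd (Prod.ext g g') hw
          · exact g'
        · exact g
    · push Not at hB
      refine ⟨l, hl1, fun c hc1 hc2 => ?_⟩
      rcases (hle c hc1).lt_or_eq with h | h
      · exact hl4 c hc1 h hc2
      · have hc0 : P c - P p ≠ 0 := sub_ne_zero.2 (fun h => hne c hc1 (hP.inj h))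
        rcases D2_sign hc0 hw' h.symm hl2 with h' | h'
        · exact absurd h'.1 (not_lt.2 (hB c hc1 h.symm))
        · have : o P p l c = - o P p c l := o_swap' P p c l
          rw [this]
          have h2 : o P p c l < 0 := h'.2
          linarith
  · push Not at hS
    obtain ⟨m, hm⟩ := hM
    refine ⟨m, hm, fun c hc1 hc2 => ?_⟩
    exfalso
    have e1 : cr (-w) (P m - P p) = 0 := le_antisymm (hS m hm) (hle m hm)
    have e2 : cr (-w) (P c - P p) = 0 := le_antisymm (hS c hc1) (hle c hc1)
    refine hP.ne p m c (hne m hm).symm (hne c hc1).symm (Ne.symm hc2) ?_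
    rw [hneg] at e1 e2
    have e1' : w.1 * (P m - P p).2 - w.2 * (P m - P p).1 = 0 := by
      simp only [cr] at e1; linarith
    have e2' : w.1 * (P c - P p).2 - w.2 * (P c - P p).1 = 0 := by
      simp only [cr] at e2; linarith
    have f1 : w.1 * cr (P m - P p) (P c - P p) = 0 := by
      simp only [cr]
      linear_combination (P m - P p).1 * e2' - (P c - P p).1 * e1'
    have f2 : w.2 * cr (P m - P p) (P c - P p) = 0 := by
      simp only [cr]
      linear_combination (P m - P p).2 * e2' - (P c - P p).2 * e1'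
    show cr (P m - P p) (P c - P p) = 0
    rcases mul_eq_zero.1 f1 with g | g
    · rcases mul_eq_zero.1 f2 with g' | g'
      · exact absurd (Prod.ext g g') hw
      · exact g'
    · exact g

theorem exists_tan (hP : GP P) (x : ℕ) (hM : ∃ m, x ≤ depth P m) :
    ∃ t : ι → ι, Tan P (fun p => x ≤ depth P p) t := by
  classical
  refine ⟨fun p => if h : ¬ x ≤ depth P p then Classical.choose (D2_tan hP x hM p h) else p, ?_, ?_⟩
  · intro p hp
    have := (Classical.choose_spec (D2_tan hP x hM p hp)).1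
    simp only [dif_pos hp]
    exact this
  · intro p hp c hc hne
    have := (Classical.choose_spec (D2_tan hP x hM p hp)).2 c hc
    simp only [dif_pos hp] at hne ⊢
    exact this hne

theorem R_size (hP : GP P) (x : ℕ) {t : ι → ι} (ht : Tan P (fun p => x ≤ depth P p) t) (r : ι)
    (hr : ¬ x ≤ depth P r) : x ≤ cnt (fun q => ¬ x ≤ depth P q ∧ R P t r q) := by
  have hm : x ≤ depth P (t r) := ht.mem r hr
  have hne : t r ≠ r := fun h => hr (h ▸ hm)
  have hw : -(P (t r) - P r) ≠ 0 := neg_ne_zero.2 (sub_ne_zero.2 fun h => hne (hP.inj h))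
  have h1 := depth_le P (t r) hw
  have key : ∀ q, cr (-(P (t r) - P r)) (P q - P (t r)) = - o P r (t r) q := fun q => by
    simp only [o, cr, Prod.fst_neg, Prod.snd_neg, Prod.fst_sub, Prod.snd_sub]; ring
  refine hm.trans (h1.trans (cnt_mono fun q hq => ?_))
  rw [key] at hq
  have hR : o P r (t r) q < 0 := by linarith
  refine ⟨fun hq' => ?_, hR⟩
  rcases eq_or_ne q (t r) with h | h
  · rw [h, o_right] at hR
    exact lt_irrefl _ hR
  · exact absurd (ht.left r hr q hq' h) (not_lt.2 hR.le)

theorem L_size (hP : GP P) (x : ℕ) {t : ι → ι} (ht : Tan P (fun p => x ≤ depth P p) t) (r : ι)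
    (hr : ¬ x ≤ depth P r) :
    x ≤ cnt (fun q => ¬ x ≤ depth P q ∧ L P (fun p => x ≤ depth P p) t r q) := by
  classical
  have hm : x ≤ depth P (t r) := ht.mem r hr
  have hne : t r ≠ r := fun h => hr (h ▸ hm)
  have hw : P (t r) - P r ≠ 0 := sub_ne_zero.2 fun h => hne (hP.inj h)
  obtain ⟨m, hm1, hm2⟩ := Finset.exists_max_image (Finset.univ.filter fun m => x ≤ depth P m)
    (fun m => o P r (t r) m) ⟨t r, Finset.mem_filter.2 ⟨Finset.mem_univ _, hm⟩⟩
  have hm3 : x ≤ depth P m := (Finset.mem_filter.1 hm1).2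
  have hm4 : ∀ c, x ≤ depth P c → o P r (t r) c ≤ o P r (t r) m := fun c hc =>
    hm2 c (Finset.mem_filter.2 ⟨Finset.mem_univ _, hc⟩)
  have key : ∀ q, cr (P (t r) - P r) (P q - P m) = o P r (t r) q - o P r (t r) m := fun q => by
    simp only [o, cr, Prod.fst_sub, Prod.snd_sub]; ring
  refine hm3.trans ((depth_le P m hw).trans (cnt_mono fun q hq => ?_))
  rw [key] at hq
  refine ⟨fun hq' => ?_, fun c hc => ?_⟩
  · have := hm4 q hq'
    linarith
  · have := hm4 c hc
    linarith

end Pool.Agent.Helper96.GT
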