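import Pool.Agent.Helper96.GT.St.A2
import Pool.Agent.Helper96.GT.St.D1

/-!
# Project GT, piece E1: over-coverage near the boundary

`mult a b` = number of layers containing `a b` (at least `1`). `deh`: for `p` with `1 ≤ depth p` and its depth
halfplane `H` (direction `w`), every layer has a neighbour of `p` in `H` (`vis`), so `∑_{q ∈ H} mult p q ≥ k` and
`∑_{q ∈ H} (mult p q - 1) ≥ k - depth p`. Summing over a set `S` of points: the ordered pairs `(p, q)` and `(q, p)`,
`p ∈ S`, `q ∈ H_p` are all different because `depth q < depth p` (`depth_lt`).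
-/

set_option autoImplicit false

namespace Pool.Agent.Helper96.GT

variable {ι : Type} [Fintype ι] {P : ι → ℝ × ℝ}

/-- the multiplicity of a pair. -/
noncomputable def mult {k : ℕ} (T : Fin k → ι → ι → Prop) (a b : ι) : ℕ := cnt (fun i => T i a b)

omit [Fintype ι] in
theorem mult_symm {k : ℕ} {T : Fin k → ι → ι → Prop} (hT : ∀ i, Tri P (T i)) (a b : ι) :
    mult T a b = mult T b a :=
  cnt_congr fun i => ⟨(hT i).symm a b, (hT i).symm b a⟩

open Classical in
private theorem deh_point (hP : GP P) {k : ℕ} {T : Fin k → ι → ι → Prop}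
    (hT : ∀ i, Tri P (T i)) (p : ι) (hp : 1 ≤ depth P p) (w : ℝ × ℝ)
    (hw : cnt (fun q => 0 < cr w (P q - P p)) = depth P p) :
    (k : ℤ) - depth P p ≤
      ∑ q, (if 0 < cr w (P q - P p) then ((mult T p q : ℤ) - 1) else 0) := by
  have hex : ∃ q, 0 < cr w (P q - P p) := by
    by_contra h
    push Not at h
    have h0 : cnt (fun q => 0 < cr w (P q - P p)) = 0 := by
      unfold cnt
      rw [Finset.card_eq_zero, Finset.filter_eq_empty_iff]
      intro q _
      exact not_lt.2 (h q)
    omega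
  have h1 : (∑ q, (if 0 < cr w (P q - P p) then ((mult T p q : ℤ) - 1) else 0)) =
      ∑ q, (if 0 < cr w (P q - P p) then (mult T p q : ℤ) else 0) - depth P p := by
    rw [← hw, cnt_sum, Nat.cast_sum, ← Finset.sum_sub_distrib]
    refine Finset.sum_congr rfl fun q _ => ?_
    split_ifs <;> simp
  have h2 : (k : ℤ) ≤ ∑ q, (if 0 < cr w (P q - P p) then (mult T p q : ℤ) else 0) := by
    have h3 : (∑ q, (if 0 < cr w (P q - P p) then (mult T p q : ℤ) else 0)) =
        ∑ i : Fin k, ∑ q, (if 0 < cr w (P q - P p) ∧ T i p q then (1 : ℤ) else 0) := by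
      rw [Finset.sum_comm]
      refine Finset.sum_congr rfl fun q _ => ?_
      by_cases hq : 0 < cr w (P q - P p)
      · rw [if_pos hq, mult, cnt_sum, Nat.cast_sum]
        refine Finset.sum_congr rfl fun i _ => ?_
        by_cases hi : T i p q
        · rw [if_pos hi, if_pos ⟨hq, hi⟩]; rfl
        · rw [if_neg hi, if_neg (fun h => hi h.2)]; rfl
      · rw [if_neg hq]
        symm
        refine Finset.sum_eq_zero fun i _ => ?_
        rw [if_neg (fun h => hq h.1)]
    rw [h3]
    have h4 : (k : ℤ) = ∑ _i : Fin k, (1 : ℤ) := by simp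
    rw [h4]
    refine Finset.sum_le_sum fun i _ => ?_
    obtain ⟨q, hq1, hq2⟩ := vis hP (hT i) p w hex
    have h5 : (if 0 < cr w (P q - P p) ∧ T i p q then (1 : ℤ) else 0) ≤
        ∑ q, (if 0 < cr w (P q - P p) ∧ T i p q then (1 : ℤ) else 0) :=
      Finset.single_le_sum (f := fun q => if 0 < cr w (P q - P p) ∧ T i p q then (1 : ℤ) else 0)
        (fun q _ => by split_ifs <;> norm_num) (Finset.mem_univ q)
    rw [if_pos ⟨hq2, hq1⟩] at h5
    exact h5
  rw [h1]
  linarith

open Classical in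
/-- Let `S` be a set of points with positive depth. The over-coverage of the ordered pairs
`(p, q)` with `p ∈ S` or `q ∈ S` is at least `2 ∑_{p ∈ S} (k - depth p)`. -/
theorem deh (hP : GP P) {k : ℕ} {T : Fin k → ι → ι → Prop} (hT : ∀ i, Tri P (T i))
    (hcov : ∀ a b, a ≠ b → ∃ i, T i a b) (S : ι → Prop) (hS : ∀ p, S p → 1 ≤ depth P p) :
    2 * ∑ p, (if S p then ((k : ℤ) - depth P p) else 0) ≤
      ∑ e : ι × ι, (if e.1 ≠ e.2 ∧ (S e.1 ∨ S e.2) then ((mult T e.1 e.2 : ℤ) - 1) else 0) := by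
  choose w hw0 hw using depth_spec P
  have key : ∀ p q, S p → 0 < cr (w p) (P q - P p) → depth P q < depth P p := fun p q _ h =>
    depth_lt (hw0 p) (hw p) h
  set A : ι × ι → ℤ := fun e =>
    if S e.1 ∧ 0 < cr (w e.1) (P e.2 - P e.1) then ((mult T e.1 e.2 : ℤ) - 1) else 0 with hA
  have hsum : ∑ e : ι × ι, A e = ∑ e : ι × ι, A (e.2, e.1) :=
    (Equiv.sum_comp (Equiv.prodComm ι ι) A).symm
  have hpt : ∀ e : ι × ι, A e + A (e.2, e.1) ≤
      (if e.1 ≠ e.2 ∧ (S e.1 ∨ S e.2) then ((mult T e.1 e.2 : ℤ) - 1) else 0) := by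
    rintro ⟨p, q⟩
    have hpos : p ≠ q → (0 : ℤ) ≤ (mult T p q : ℤ) - 1 := by
      intro hpq
      have : 0 < mult T p q := cnt_pos (hcov p q hpq)
      omega
    simp only [hA]
    by_cases h1 : S p ∧ 0 < cr (w p) (P q - P p)
    · have hlt := key p q h1.1 h1.2
      have hne : p ≠ q := fun h => by rw [h] at hlt; exact lt_irrefl _ hlt
      have h2 : ¬ (S q ∧ 0 < cr (w q) (P p - P q)) := fun h2 =>
        lt_asymm hlt (key q p h2.1 h2.2)
      rw [if_pos h1, if_neg h2, if_pos ⟨hne, Or.inl h1.1⟩, add_zero]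
    · rw [if_neg h1, zero_add]
      by_cases h2 : S q ∧ 0 < cr (w q) (P p - P q)
      · have hlt := key q p h2.1 h2.2
        have hne : p ≠ q := fun h => by rw [h] at hlt; exact lt_irrefl _ hlt
        rw [if_pos h2, if_pos ⟨hne, Or.inr h2.1⟩, mult_symm hT q p]
      · rw [if_neg h2]
        split_ifs with h3
        · exact hpos h3.1
        · exact le_rfl
  have hle : ∑ p, (if S p then ((k : ℤ) - depth P p) else 0) ≤ ∑ e : ι × ι, A e := by
    rw [Fintype.sum_prod_type]
    refine Finset.sum_le_sum fun p _ => ?_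
    by_cases hp : S p
    · rw [if_pos hp]
      refine (deh_point hP hT p (hS p hp) (w p) (hw p)).trans (le_of_eq ?_)
      refine Finset.sum_congr rfl fun q _ => ?_
      simp only [hA, hp, true_and]
    · rw [if_neg hp]
      refine le_of_eq (Finset.sum_eq_zero fun q _ => ?_).symm
      simp only [hA, hp, false_and, if_false]
  calc 2 * ∑ p, (if S p then ((k : ℤ) - depth P p) else 0)
      ≤ ∑ e : ι × ι, A e + ∑ e : ι × ι, A (e.2, e.1) := by rw [← hsum]; linarith
    _ = ∑ e : ι × ι, (A e + A (e.2, e.1)) := by rw [Finset.sum_add_distrib]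
    _ ≤ _ := Finset.sum_le_sum fun e _ => hpt e

end Pool.Agent.Helper96.GT
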