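import Pool.Agent.Helper96.GT.St.A7
import Pool.Agent.Helper96.GT.St.B3
import Pool.Agent.Helper96.GT.St.C3
import Pool.Agent.Helper96.GT.St.C4
import Pool.Agent.Helper96.GT.St.D2
import Pool.Agent.Helper96.GT.St.E1

/-!
# Project GT, piece E2: the two inequalities for the whole drawing

Notation: `n` points, `k` layers, `u y = us P y`, `C2 = ∑_{a ≠ b} (mult a b - 1)`, `h = hd P`.
`∑ i, dn (T i) = ∑_{a ≠ b} mult a b = n (n - 1) + C2`; with `euler`: `n (n - 1) + C2 + 2 h k + 6 k ≤ 6 n k`.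
-/

set_option autoImplicit false

namespace Pool.Agent.Helper96.GT

private theorem E2_double {α β : Type} [Fintype α] [Fintype β] (p : α → β → Prop) :
    ∑ a, cnt (p a) = ∑ b, cnt (fun a => p a b) := by
  have h1 := cnt_prod (fun e : α × β => p e.1 e.2)
  have h2 := cnt_prod (fun e : β × α => p e.2 e.1)
  have h3 := cnt_swap (fun e : α × β => p e.1 e.2)
  simp only at h1 h2 h3
  rw [← h1, ← h2, h3]

variable {ι : Type} [Fintype ι] {P : ι → ℝ × ℝ}

open Classical in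
/-- the over-coverage of the pairs in `A`. -/
private noncomputable def ov {k : ℕ} (T : Fin k → ι → ι → Prop) (A : ι × ι → Prop) : ℤ :=
  ∑ e : ι × ι, (if A e then ((mult T e.1 e.2 : ℤ) - 1) else 0)

private theorem E2_sum {k : ℕ} (T : Fin k → ι → ι → Prop) (A : ι × ι → Prop) :
    ((∑ i, cnt (fun e : ι × ι => T i e.1 e.2 ∧ A e) : ℕ) : ℤ) = ov T A + cnt A := by
  classical
  unfold ov
  rw [E2_double, cnt_sum (p := A)]
  push_cast
  rw [← Finset.sum_add_distrib]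
  apply Finset.sum_congr rfl
  intro e _
  by_cases h : A e
  · rw [if_pos h, if_pos h]
    have : cnt (fun i => T i e.1 e.2 ∧ A e) = mult T e.1 e.2 :=
      cnt_congr fun i => ⟨fun h' => h'.1, fun h' => ⟨h', h⟩⟩
    rw [this]; ring
  · rw [if_neg h, if_neg h]
    have : cnt (fun i => T i e.1 e.2 ∧ A e) = 0 := by
      have h2 : cnt (fun i => T i e.1 e.2 ∧ A e) = cnt (fun _ : Fin k => False) :=
        cnt_congr fun i => ⟨fun h' => h h'.2, fun h' => h'.elim⟩
      rw [h2]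
      simp [cnt]
    rw [this]; simp

omit [Fintype ι] in
private theorem E2_mult {k : ℕ} {T : Fin k → ι → ι → Prop}
    (hcov : ∀ a b, a ≠ b → ∃ i, T i a b) {a b : ι} (h : a ≠ b) :
    (0 : ℤ) ≤ (mult T a b : ℤ) - 1 := by
  have : 0 < mult T a b := cnt_pos (hcov a b h)
  omega

private theorem ov_mono {k : ℕ} {T : Fin k → ι → ι → Prop}
    (hcov : ∀ a b, a ≠ b → ∃ i, T i a b) {A B : ι × ι → Prop} (h : ∀ e, A e → B e)
    (hB : ∀ e, B e → e.1 ≠ e.2) : ov T A ≤ ov T B := by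
  classical
  unfold ov
  apply Finset.sum_le_sum
  intro e _
  by_cases h1 : B e
  · rw [if_pos h1]
    have := E2_mult hcov (hB e h1)
    split_ifs
    · exact le_refl _
    · exact this
  · rw [if_neg h1, if_neg (fun h' => h1 (h e h'))]

private theorem ov_add {k : ℕ} (T : Fin k → ι → ι → Prop) {A B : ι × ι → Prop}
    (h : ∀ e, A e → ¬ B e) : ov T A + ov T B = ov T (fun e => A e ∨ B e) := by
  classical
  unfold ov
  rw [← Finset.sum_add_distrib]
  apply Finset.sum_congr rfl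
  intro e _
  by_cases h1 : A e
  · rw [if_pos h1, if_neg (h e h1), if_pos (Or.inl h1), add_zero]
  · rw [if_neg h1, zero_add]
    by_cases h2 : B e
    · rw [if_pos h2, if_pos (Or.inr h2)]
    · rw [if_neg h2, if_neg (fun h' => h'.elim h1 h2)]

open Classical in
/-- the sum of `k - depth` over `S`. -/
private noncomputable def dsum (P : ι → ℝ × ℝ) (k : ℕ) (S : ι → Prop) : ℤ :=
  ∑ p, (if S p then ((k : ℤ) - depth P p) else 0)

private theorem E2_deh (hP : GP P) {k : ℕ} {T : Fin k → ι → ι → Prop} (hT : ∀ i, Tri P (T i))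
    (hcov : ∀ a b, a ≠ b → ∃ i, T i a b) (S : ι → Prop) (hS : ∀ p, S p → 1 ≤ depth P p) :
    2 * dsum P k S ≤ ov T (fun e => e.1 ≠ e.2 ∧ (S e.1 ∨ S e.2)) := by
  classical
  have h := deh hP hT hcov S hS
  unfold dsum ov
  convert h

/-- the number of ordered pairs of different elements of a set. -/
private theorem E2_pairs (p : ι → Prop) :
    cnt (fun e : ι × ι => e.1 ≠ e.2 ∧ p e.1 ∧ p e.2) + cnt p = cnt p * cnt p := by
  classical
  have h1 := cnt_split (fun e : ι × ι => p e.1 ∧ p e.2) (fun e => e.1 = e.2)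
  have h2 : cnt (fun e : ι × ι => p e.1 ∧ p e.2) = cnt p * cnt p := by
    rw [cnt_prod]
    have h3 : ∀ a, cnt (fun b => p a ∧ p b) = if p a then cnt p else 0 := by
      intro a
      by_cases h : p a
      · rw [if_pos h]; exact cnt_congr fun b => ⟨fun h' => h'.2, fun h' => ⟨h, h'⟩⟩
      · rw [if_neg h]
        have h4 : cnt (fun b => p a ∧ p b) = cnt (fun _ : ι => False) :=
          cnt_congr fun i => ⟨fun h' => h h'.1, fun h' => h'.elim⟩
        rw [h4]; simp [cnt]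
    simp only [h3]
    rw [← Finset.sum_filter, Finset.sum_const, smul_eq_mul]
    congr 1
  have h5 : cnt (fun e : ι × ι => (p e.1 ∧ p e.2) ∧ e.1 = e.2) = cnt p := by
    apply le_antisymm
    · refine cnt_le_of_inj (fun e => e.1) (fun e h => h.1.1) (fun e e' h h' hh => ?_)
      exact Prod.ext hh (by rw [← h.2, ← h'.2]; exact hh)
    · exact cnt_le_of_inj (fun a => (a, a)) (fun a h => ⟨⟨h, h⟩, rfl⟩)
        (fun a b _ _ h => congrArg Prod.fst h)
  have h6 : cnt (fun e : ι × ι => (p e.1 ∧ p e.2) ∧ ¬ e.1 = e.2) =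
      cnt (fun e : ι × ι => e.1 ≠ e.2 ∧ p e.1 ∧ p e.2) :=
    cnt_congr fun e => by tauto
  omega

private theorem E2_us (x k : ℕ) :
    ∑ y ∈ Finset.Ico x k, ((us P (y + 1) : ℤ) - us P x) =
      dsum P k (fun p => x ≤ depth P p ∧ depth P p < k) := by
  classical
  unfold dsum
  have h1 : ∀ y ∈ Finset.Ico x k, ((us P (y + 1) : ℤ) - us P x) =
      ∑ p, (if x ≤ depth P p ∧ depth P p ≤ y then (1 : ℤ) else 0) := by
    intro y hy
    rw [Finset.mem_Ico] at hy
    unfold us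
    rw [cnt_sum, cnt_sum]
    push_cast
    rw [← Finset.sum_sub_distrib]
    apply Finset.sum_congr rfl
    intro p _
    split_ifs <;> omega
  rw [Finset.sum_congr rfl h1, Finset.sum_comm]
  apply Finset.sum_congr rfl
  intro p _
  by_cases h : x ≤ depth P p ∧ depth P p < k
  · rw [if_pos h]
    have h2 : ∑ y ∈ Finset.Ico x k, (if x ≤ depth P p ∧ depth P p ≤ y then (1 : ℤ) else 0) =
        ∑ y ∈ Finset.Ico (depth P p) k, (1 : ℤ) := by
      rw [← Finset.sum_filter]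
      apply Finset.sum_congr _ (fun _ _ => rfl)
      ext y
      simp only [Finset.mem_filter, Finset.mem_Ico]
      omega
    rw [h2]
    simp only [Finset.sum_const, Nat.card_Ico, mul_one, nsmul_eq_mul]
    omega
  · rw [if_neg h]
    apply Finset.sum_eq_zero
    intro y hy
    rw [Finset.mem_Ico] at hy
    rw [if_neg]
    intro h'
    apply h
    omega

private theorem E2_base (hP : GP P) (hn : 2 ≤ Fintype.card ι) {k : ℕ}
    {T : Fin k → ι → ι → Prop} (hT : ∀ i, Tri P (T i)) :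
    (Fintype.card ι : ℤ) * (Fintype.card ι - 1) +
      ov T (fun e => e.1 ≠ e.2) + 2 * hd P * k ≤ 6 * Fintype.card ι * k := by
  have : Nonempty ι := Fintype.card_pos_iff.1 (by omega)
  have h1 : ∑ i, (dn (T i) + 2 * hd P + 6) ≤ ∑ _i : Fin k, 6 * Fintype.card ι :=
    Finset.sum_le_sum fun i _ => euler hP (hT i)
  rw [Finset.sum_add_distrib, Finset.sum_add_distrib] at h1
  simp only [Finset.sum_const, Finset.card_univ, Fintype.card_fin, smul_eq_mul] at h1
  have h2 : ∀ i, dn (T i) = cnt (fun e : ι × ι => T i e.1 e.2 ∧ e.1 ≠ e.2) := by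
    intro i
    refine cnt_congr fun e => ⟨fun h => ⟨h, fun h' => ?_⟩, fun h => h.1⟩
    rw [h'] at h
    exact (hT i).irrefl _ h
  simp only [h2] at h1
  have h3 := E2_sum T (fun e => e.1 ≠ e.2)
  have h4 := E2_pairs (ι := ι) (fun _ => True)
  have h5 : cnt (fun _ : ι => True) = Fintype.card ι := by simp [cnt]
  have h6 : cnt (fun e : ι × ι => e.1 ≠ e.2 ∧ True ∧ True) = cnt (fun e : ι × ι => e.1 ≠ e.2) :=
    cnt_congr fun e => by tauto
  rw [h5, h6] at h4
  zify at h1 h4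
  push_cast at h3
  rw [h3] at h1
  generalize ov T (fun e => e.1 ≠ e.2) = C at *
  generalize (cnt (fun e : ι × ι => e.1 ≠ e.2) : ℤ) = N at *
  nlinarith

theorem ineqA (hP : GP P) (hn : 2 ≤ Fintype.card ι) {k : ℕ} {T : Fin k → ι → ι → Prop}
    (hT : ∀ i, Tri P (T i)) (hcov : ∀ a b, a ≠ b → ∃ i, T i a b) :
    ((Fintype.card ι : ℝ) * (Fintype.card ι - 1) +
      2 * ∑ y ∈ Finset.range k, (us P (y + 1) : ℝ) ≤ 6 * Fintype.card ι * k) := by
  classical
  have h0 := E2_base hP hn hT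
  have h1 := E2_deh hP hT hcov (fun p => 1 ≤ depth P p ∧ depth P p < k) (fun p h => h.1)
  have h2 : ov T (fun e => e.1 ≠ e.2 ∧ ((1 ≤ depth P e.1 ∧ depth P e.1 < k) ∨
      (1 ≤ depth P e.2 ∧ depth P e.2 < k))) ≤ ov T (fun e => e.1 ≠ e.2) :=
    ov_mono hcov (fun e h => h.1) (fun e h => h)
  have h3 := E2_us (P := P) 0 k
  have h4 : us P 0 = 0 := by
    unfold us
    have : cnt (fun p => depth P p < 0) = cnt (fun _ : ι => False) :=
      cnt_congr fun p => ⟨fun h => absurd h (Nat.not_lt_zero _), fun h => h.elim⟩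
    rw [this]; simp [cnt]
  rw [h4] at h3
  have h5 : dsum P k (fun p => 0 ≤ depth P p ∧ depth P p < k) ≤
      dsum P k (fun p => 1 ≤ depth P p ∧ depth P p < k) + us P 1 * k := by
    unfold dsum us
    rw [cnt_sum]
    push_cast
    rw [Finset.sum_mul, ← Finset.sum_add_distrib]
    apply Finset.sum_le_sum
    intro p _
    by_cases hp : depth P p < 1
    · have : depth P p = 0 := by omega
      simp only [this]
      split_ifs <;> simp_all
    · have h6 : (0 ≤ depth P p ∧ depth P p < k) ↔ (1 ≤ depth P p ∧ depth P p < k) := by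
        omega
      simp only [h6]
      split_ifs <;> simp_all
  have h7 := us_one_le hP hn
  have h8 : (us P 1 : ℤ) * k ≤ hd P * k := by
    have : (us P 1 : ℤ) ≤ hd P := by exact_mod_cast h7
    exact mul_le_mul_of_nonneg_right this (by positivity)
  have key : (Fintype.card ι : ℤ) * (Fintype.card ι - 1) +
      2 * ∑ y ∈ Finset.range k, (us P (y + 1) : ℤ) ≤ 6 * Fintype.card ι * k := by
    rw [Finset.range_eq_Ico]
    simp only [Nat.cast_zero, sub_zero] at h3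
    rw [h3]
    linarith
  have key2 : (((Fintype.card ι : ℤ) * (Fintype.card ι - 1) +
      2 * ∑ y ∈ Finset.range k, (us P (y + 1) : ℤ) : ℤ) : ℝ) ≤
      ((6 * Fintype.card ι * k : ℤ) : ℝ) := by exact_mod_cast key
  push_cast at key2
  exact key2

theorem ineqB (hP : GP P) (hn : 2 ≤ Fintype.card ι) {k : ℕ} {T : Fin k → ι → ι → Prop}
    (hT : ∀ i, Tri P (T i)) (hcov : ∀ a b, a ≠ b → ∃ i, T i a b) (x δ : ℕ) (hx : 1 ≤ x)
    (hxk : x ≤ k) (hδ : 1 ≤ δ) (hu : us P x < Fintype.card ι) :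
    6 * (us P x : ℝ) * δ * k +
        6 * δ * ∑ y ∈ Finset.Ico x k, ((us P (y + 1) : ℝ) - us P x) ≤
      3 * δ * (6 * Fintype.card ι * k - Fintype.card ι * (Fintype.card ι - 1)) +
        δ * (us P x : ℝ) ^ 2 + 4 * δ * us P x * (us P x - 2 * x)
          + 8 * (δ : ℝ) ^ 2 * us P x + 4 * us P x * k := by
  classical
  have h0 := E2_base hP hn hT
  -- the deep region
  set M : ι → Prop := fun p => x ≤ depth P p with hMdef
  have hM : ∃ m, M m := by
    by_contra hcon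
    push Not at hcon
    have : us P x = Fintype.card ι := by
      unfold us
      have : cnt (fun p => depth P p < x) = cnt (fun _ : ι => True) :=
        cnt_congr fun p => ⟨fun _ => trivial, fun _ => not_le.1 (hcon p)⟩
      rw [this]; simp [cnt]
    omega
  obtain ⟨t, ht⟩ := exists_tan hP x hM
  have hcu : cnt (fun p => ¬ M p) = us P x := cnt_congr fun p => not_le
  have hR1 := R_size hP x ht
  have hL1 := L_size hP x ht
  have hR : ∀ p, ¬ M p → ∃ q, R P t p q := by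
    intro p hp
    by_contra hcon
    push Not at hcon
    have h1 := hR1 p hp
    have : cnt (fun q => ¬ x ≤ depth P q ∧ R P t p q) = cnt (fun _ : ι => False) :=
      cnt_congr fun q => ⟨fun h => hcon q h.2, fun h => h.elim⟩
    rw [this] at h1
    simp [cnt] at h1
    omega
  have hH : ∀ a b, HD P a b → ¬ M a ∧ ¬ M b := by
    intro a b h
    obtain ⟨h1, h2⟩ := depth_hd hP h
    simp only [hMdef]
    omega
  set u := us P x with hudef
  -- one layer
  have hlay : ∀ i, 6 * u * δ ≤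
      δ * cnt (fun e : ι × ι => T i e.1 e.2 ∧ (e.1 ≠ e.2 ∧ ¬ M e.1 ∧ ¬ M e.2)) +
      2 * δ * cnt (fun e : ι × ι => T i e.1 e.2 ∧
        (e.1 ≠ e.2 ∧ ¬ M e.1 ∧ ¬ M e.2 ∧ ¬ Far P M t δ e.1 e.2)) + 4 * u + 2 * hd P * δ := by
    intro i
    have h1 := um hP (hT i) hM ht hR hH
    have h2 := D_count hP (hT i) ht δ
    rw [hcu] at h1 h2
    have h3 : cnt (fun e : ι × ι => T i e.1 e.2 ∧ ¬ M e.1 ∧ ¬ M e.2) =
        cnt (fun e : ι × ι => T i e.1 e.2 ∧ (e.1 ≠ e.2 ∧ ¬ M e.1 ∧ ¬ M e.2)) := by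
      refine cnt_congr fun e => ⟨fun h => ⟨h.1, fun h' => ?_, h.2⟩, fun h => ⟨h.1, h.2.2⟩⟩
      have h4 := h.1
      rw [h'] at h4
      exact (hT i).irrefl _ h4
    have h5 : cnt (fun e : ι × ι => T i e.1 e.2 ∧ ¬ M e.1 ∧ ¬ M e.2 ∧ ¬ Far P M t δ e.1 e.2) =
        cnt (fun e : ι × ι => T i e.1 e.2 ∧
          (e.1 ≠ e.2 ∧ ¬ M e.1 ∧ ¬ M e.2 ∧ ¬ Far P M t δ e.1 e.2)) := by
      refine cnt_congr fun e => ⟨fun h => ⟨h.1, fun h' => ?_, h.2⟩, fun h => ⟨h.1, h.2.2⟩⟩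
      have h4 := h.1
      rw [h'] at h4
      exact (hT i).irrefl _ h4
    rw [h3] at h1
    rw [h5] at h2
    have h6 := Nat.mul_le_mul_right δ h1
    generalize cnt (fun e : ι × ι => T i e.1 e.2 ∧ (e.1 ≠ e.2 ∧ ¬ M e.1 ∧ ¬ M e.2)) = xA at *
    generalize cnt (fun e : ι × ι => T i e.1 e.2 ∧
          (e.1 ≠ e.2 ∧ ¬ M e.1 ∧ ¬ M e.2 ∧ ¬ Far P M t δ e.1 e.2)) = xB at *
    generalize cnt (fun f : ι × ι × ι => Face P (T i) f.1 f.2.1 f.2.2 ∧ ¬ M f.1 ∧
      ¬ M f.2.1 ∧ M f.2.2) = xD at *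
    nlinarith
  -- all layers
  have hsum : ∑ _i : Fin k, 6 * u * δ ≤ ∑ i,
      (δ * cnt (fun e : ι × ι => T i e.1 e.2 ∧ (e.1 ≠ e.2 ∧ ¬ M e.1 ∧ ¬ M e.2)) +
      2 * δ * cnt (fun e : ι × ι => T i e.1 e.2 ∧
        (e.1 ≠ e.2 ∧ ¬ M e.1 ∧ ¬ M e.2 ∧ ¬ Far P M t δ e.1 e.2)) + 4 * u + 2 * hd P * δ) :=
    Finset.sum_le_sum fun i _ => hlay i
  rw [Finset.sum_add_distrib, Finset.sum_add_distrib, Finset.sum_add_distrib, ← Finset.mul_sum,
    ← Finset.mul_sum] at hsum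
  simp only [Finset.sum_const, Finset.card_univ, Fintype.card_fin, smul_eq_mul] at hsum
  have hA := E2_sum T (fun e => e.1 ≠ e.2 ∧ ¬ M e.1 ∧ ¬ M e.2)
  have hB := E2_sum T (fun e => e.1 ≠ e.2 ∧ ¬ M e.1 ∧ ¬ M e.2 ∧ ¬ Far P M t δ e.1 e.2)
  have hAc := E2_pairs (ι := ι) (fun p => ¬ M p)
  rw [hcu] at hAc
  have hBc := nfar_count hP hM ht x δ hR1 hL1
  rw [hcu] at hBc
  -- over-coverage
  set cU : ℤ := ov T (fun e => e.1 ≠ e.2 ∧ ¬ M e.1 ∧ ¬ M e.2) with hcU
  have hBle : ov T (fun e => e.1 ≠ e.2 ∧ ¬ M e.1 ∧ ¬ M e.2 ∧ ¬ Far P M t δ e.1 e.2) ≤ cU :=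
    ov_mono hcov (fun e h => ⟨h.1, h.2.1, h.2.2.1⟩) (fun e h => h.1)
  have hdeh := E2_deh hP hT hcov (fun p => x ≤ depth P p ∧ depth P p < k)
    (fun p h => le_trans hx h.1)
  have hC : ov T (fun e => e.1 ≠ e.2 ∧ ((x ≤ depth P e.1 ∧ depth P e.1 < k) ∨
      (x ≤ depth P e.2 ∧ depth P e.2 < k))) + cU ≤ ov T (fun e => e.1 ≠ e.2) := by
    rw [hcU, ov_add]
    · exact ov_mono hcov (fun e h => h.elim (fun h => h.1) (fun h => h.1)) (fun e h => h)
    · rintro e ⟨-, h2 | h2⟩ h3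
      · exact h3.2.1 h2.1
      · exact h3.2.2 h2.1
  have hus := E2_us (P := P) x k
  set Sd : ℤ := dsum P k (fun p => x ≤ depth P p ∧ depth P p < k) with hSd
  zify at hsum hAc hBc
  push_cast at hA hB
  rw [← Finset.mul_sum, hA, hB] at hsum
  have hδ' : (1 : ℤ) ≤ δ := by exact_mod_cast hδ
  have hk0 : (0 : ℤ) ≤ k := by positivity
  have hh0 : (0 : ℤ) ≤ hd P := by positivity
  have hu0 : (0 : ℤ) ≤ u := by positivity
  have key : 6 * (u : ℤ) * δ * k +
        6 * δ * ∑ y ∈ Finset.Ico x k, ((us P (y + 1) : ℤ) - u) ≤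
      3 * δ * (6 * Fintype.card ι * k - Fintype.card ι * (Fintype.card ι - 1)) +
        δ * (u : ℤ) ^ 2 + 4 * δ * u * (u - 2 * x)
          + 8 * (δ : ℤ) ^ 2 * u + 4 * u * k := by
    rw [hus]
    set BB : ℤ := ov T (fun e => e.1 ≠ e.2 ∧ ¬ M e.1 ∧ ¬ M e.2 ∧ ¬ Far P M t δ e.1 e.2)
    set nA : ℤ := (cnt (fun e : ι × ι => e.1 ≠ e.2 ∧ ¬ M e.1 ∧ ¬ M e.2) : ℤ)
    set nB : ℤ := (cnt (fun e : ι × ι => e.1 ≠ e.2 ∧ ¬ M e.1 ∧ ¬ M e.2 ∧
      ¬ Far P M t δ e.1 e.2) : ℤ)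
    set C2 : ℤ := ov T (fun e => e.1 ≠ e.2)
    set S1 : ℤ := ov T (fun e => e.1 ≠ e.2 ∧ ((x ≤ depth P e.1 ∧ depth P e.1 < k) ∨
      (x ≤ depth P e.2 ∧ depth P e.2 < k)))
    have e1 : (δ : ℤ) * (BB) ≤ δ * cU := mul_le_mul_of_nonneg_left hBle (by positivity)
    have e2 : (δ : ℤ) * nB ≤ δ * (2 * (u * u) + 4 * δ * u - 4 * x * u) :=
      mul_le_mul_of_nonneg_left (by linarith) (by positivity)
    have e3 : (δ : ℤ) * (2 * Sd + cU) ≤ δ * (6 * Fintype.card ι * k -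
        Fintype.card ι * (Fintype.card ι - 1) - 2 * hd P * k) :=
      mul_le_mul_of_nonneg_left (by linarith) (by positivity)
    have e4 : nA = u * u - u := by linarith
    rw [e4] at hsum
    have e5 : 0 ≤ (hd P : ℤ) * k * δ := by positivity
    have e6 : 0 ≤ (δ : ℤ) * u := by positivity
    nlinarith
  have key2 : ((6 * (u : ℤ) * δ * k +
        6 * δ * ∑ y ∈ Finset.Ico x k, ((us P (y + 1) : ℤ) - u) : ℤ) : ℝ) ≤
      ((3 * δ * (6 * Fintype.card ι * k - Fintype.card ι * (Fintype.card ι - 1)) +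
        δ * (u : ℤ) ^ 2 + 4 * δ * u * (u - 2 * x)
          + 8 * (δ : ℤ) ^ 2 * u + 4 * u * k : ℤ) : ℝ) := by exact_mod_cast key
  push_cast at key2
  exact key2

end Pool.Agent.Helper96.GT
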