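import Mathlib

/-!
# Project GT, piece F1: the optimisation

Let `q = (6 n k - n (n - 1)) / 2`, `S = ∑_{y ≤ k} u y`, `η = 10 δ k + 5 k ^ 2 / δ` (any such bound for the error terms,
`n ≤ 7 k` by (A) for large `n`), `κ x = ∑_{y ≤ x} u y + (q - S) + η` for `0 ≤ x ≤ k`.
Assume `n > c k` with `c > 3 + √(34/5) > 5.6`. (A) gives `κ 0 ≥ η ≥ 0`. (B) divided by `6 δ` gives, for `1 ≤ x ≤ k` with
`u x < n`: `κ x ≥ (7/3) x u - (5/6) u ^ 2`, `u = u x` (here `∑_{x<y≤k} (u y - u x) = S - ∑_{y≤x} u y - (k - x) u x`); for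
`u x = n` the right side is negative, since `n > 5.6 x`. Let `x₀` be a minimiser of `κ x / x ^ 2` on `1 ≤ x ≤ k`, `ρ` the
minimum. If `ρ < 11/10`: `u x₀ = κ x₀ - κ (x₀ - 1) ≤ ρ (2 x₀ - 1) ≤ 2 ρ x₀`, and `u x₀ ≥ 2 x₀`; `(7/3) x u - (5/6) u ^ 2` is
decreasing in `u ≥ 2 x`, so `ρ x₀² ≥ (14/3 ρ - 10/3 ρ²) x₀²`, i.e. `ρ ≥ 11/10` (`ρ > 0`). So `κ k ≥ (11/10) k²`, that is
`q + η ≥ (11/10) k²`: `3 n k - n²/2 + n/2 + η ≥ (11/10) k²`, `(n - 3 k)² ≤ (34/5) k² + n + 2 η`. With `δ` large, fixed, and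
`k → ∞` this contradicts `n > c k`.
-/

set_option autoImplicit false

namespace Pool.Agent.Helper96.GT

private lemma F1_opt (k : ℕ) (hk : 0 < k) (w : ℕ → ℝ) (κ0 : ℝ) (hκ0 : 0 < κ0)
    (hw : ∀ x : ℕ, 1 ≤ x → x ≤ k → 2 * (x : ℝ) ≤ w x)
    (hB : ∀ x : ℕ, 1 ≤ x → x ≤ k → 7 / 3 * x * w x - 5 / 6 * (w x) ^ 2 ≤
      κ0 + ∑ y ∈ Finset.range x, w (y + 1)) :
    11 / 10 * (k : ℝ) ^ 2 ≤ κ0 + ∑ y ∈ Finset.range k, w (y + 1) := by
  set κ : ℕ → ℝ := fun x => κ0 + ∑ y ∈ Finset.range x, w (y + 1) with hκ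
  have hstep : ∀ x : ℕ, κ (x + 1) = κ x + w (x + 1) := by
    intro x
    simp only [hκ, Finset.sum_range_succ]
    ring
  have hpos : ∀ x : ℕ, x ≤ k → 0 < κ x := by
    intro x hx
    simp only [hκ]
    have h : 0 ≤ ∑ y ∈ Finset.range x, w (y + 1) := by
      refine Finset.sum_nonneg fun y hy => ?_
      have hy' := Finset.mem_range.1 hy
      have := hw (y + 1) (by omega) (by omega)
      refine le_trans ?_ this
      positivity
    linarith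
  have hB' : ∀ x : ℕ, 1 ≤ x → x ≤ k → 7 / 3 * x * w x - 5 / 6 * (w x) ^ 2 ≤ κ x := hB
  obtain ⟨x0, hx0, hmin⟩ := Finset.exists_min_image (Finset.Icc 1 k) (fun x => κ x / (x : ℝ) ^ 2)
    ⟨1, Finset.mem_Icc.2 ⟨le_rfl, hk⟩⟩
  obtain ⟨hx1, hxk⟩ := Finset.mem_Icc.1 hx0
  have hX : (1 : ℝ) ≤ x0 := by exact_mod_cast hx1
  set ρ : ℝ := κ x0 / (x0 : ℝ) ^ 2 with hρ
  have hρ0 : 0 < ρ := div_pos (hpos x0 hxk) (by positivity)
  have hκx : κ x0 = ρ * (x0 : ℝ) ^ 2 := by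
    rw [hρ]
    field_simp
  have hall : ∀ x : ℕ, 1 ≤ x → x ≤ k → ρ * (x : ℝ) ^ 2 ≤ κ x := by
    intro x h1 h2
    have h3 := hmin x (Finset.mem_Icc.2 ⟨h1, h2⟩)
    have hx : (0 : ℝ) < (x : ℝ) ^ 2 := by
      have : (1 : ℝ) ≤ x := by exact_mod_cast h1
      positivity
    exact (le_div_iff₀ hx).1 h3
  by_contra hcon
  push Not at hcon
  have hρ1 : ρ < 11 / 10 := by
    have h1 := hall k hk le_rfl
    have hk2 : (0 : ℝ) < (k : ℝ) ^ 2 := by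
      have : (1 : ℝ) ≤ k := by exact_mod_cast hk
      positivity
    have h2 : ρ * (k : ℝ) ^ 2 < 11 / 10 * (k : ℝ) ^ 2 := lt_of_le_of_lt h1 hcon
    exact lt_of_mul_lt_mul_right h2 hk2.le
  obtain ⟨z, rfl⟩ : ∃ z, x0 = z + 1 := ⟨x0 - 1, by omega⟩
  have hz : ρ * (z : ℝ) ^ 2 ≤ κ z := by
    rcases Nat.eq_zero_or_pos z with h | h
    · subst h
      have := (hpos 0 (by omega)).le
      simpa using this
    · exact hall z h (by omega)
  have hwz : w (z + 1) = ρ * ((z + 1 : ℕ) : ℝ) ^ 2 - κ z := by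
    have := hstep z
    rw [hκx] at this
    linarith
  have hzX : (z : ℝ) = ((z + 1 : ℕ) : ℝ) - 1 := by push_cast; ring
  rw [hzX] at hz
  have h1 := hw (z + 1) hx1 hxk
  have h2 := hB' (z + 1) hx1 hxk
  rw [hκx] at h2
  generalize ((z + 1 : ℕ) : ℝ) = X at *
  generalize w (z + 1) = W at *
  have h3 : W ≤ 2 * ρ * X := by nlinarith
  have h4 : 0 ≤ (2 * ρ * X - W) * (5 / 6 * (W + 2 * ρ * X) - 7 / 3 * X) := by
    apply mul_nonneg
    · linarith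
    · nlinarith
  have h5 : 14 / 3 * ρ * X ^ 2 - 10 / 3 * ρ ^ 2 * X ^ 2 ≤ ρ * X ^ 2 := by nlinarith
  have h6 : 0 < ρ * X ^ 2 := by positivity
  have h7 : 0 < ρ * X ^ 2 * (11 / 10 - ρ) := mul_pos h6 (by linarith)
  nlinarith

theorem numeric (c : ℝ) (hc : 3 + √(34 / 5) < c) : ∃ n₀ : ℕ, ∀ n : ℕ, n₀ ≤ n → ∀ k : ℕ, 0 < k →
    ∀ u : ℕ → ℕ, (∀ x y, x ≤ y → u x ≤ u y) → (∀ y, u y ≤ n) → (∀ y, 2 * y ≤ n → 2 * y ≤ u y) →
    ((n : ℝ) * (n - 1) + 2 * ∑ y ∈ Finset.range k, (u (y + 1) : ℝ) ≤ 6 * n * k) →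
    (∀ x δ : ℕ, 1 ≤ x → x ≤ k → 1 ≤ δ → u x < n →
      6 * (u x : ℝ) * δ * k + 6 * δ * ∑ y ∈ Finset.Ico x k, ((u (y + 1) : ℝ) - u x) ≤
        3 * δ * (6 * n * k - n * (n - 1)) + δ * (u x : ℝ) ^ 2 + 4 * δ * u x * (u x - 2 * x)
          + 8 * (δ : ℝ) ^ 2 * u x + 4 * u x * k) →
    (n : ℝ) ≤ c * k := by
  set s : ℝ := √(34 / 5) with hs
  have hs2 : s ^ 2 = 34 / 5 := Real.sq_sqrt (by norm_num)
  have hs0 : 0 ≤ s := Real.sqrt_nonneg _
  have hs1 : (13 / 5 : ℝ) < s := by nlinarith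
  obtain ⟨ε, hε⟩ : ∃ ε : ℝ, ε = (c - 3) ^ 2 - 34 / 5 := ⟨_, rfl⟩
  have hε0 : 0 < ε := by nlinarith
  obtain ⟨δ, hδ⟩ := exists_nat_gt (40 / ε)
  obtain ⟨K, hK⟩ := exists_nat_gt (4 * (7 + 20 * (δ : ℝ)) / ε)
  have hδ0 : (0 : ℝ) < δ := lt_trans (by positivity) hδ
  have hδ1 : 1 ≤ δ := by
    have : (0 : ℝ) < δ := hδ0
    have h : 0 < δ := by exact_mod_cast this
    omega
  refine ⟨7 * K, fun n hn k hk u hmono hle h2 hA hB => ?_⟩
  by_contra hcon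
  push Not at hcon
  have hkR : (1 : ℝ) ≤ k := by exact_mod_cast hk
  have hn0 : (0 : ℝ) < n := by nlinarith
  have hS0 : 0 ≤ ∑ y ∈ Finset.range k, (u (y + 1) : ℝ) := Finset.sum_nonneg fun y _ => by positivity
  have hn6 : (n : ℝ) ≤ 7 * k := by
    have h : (n : ℝ) * (n - 1) ≤ n * (6 * k) := by linarith
    have h' : (n : ℝ) - 1 ≤ 6 * k := le_of_mul_le_mul_left h hn0
    linarith
  have hn5 : 28 / 5 * (k : ℝ) < n := by nlinarith
  obtain ⟨η, hη⟩ : ∃ η : ℝ, η = 10 * δ * k + 5 * (k : ℝ) ^ 2 / δ := ⟨_, rfl⟩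
  have hη0 : 0 < η := by rw [hη]; positivity
  have hmain := F1_opt k hk (fun x => (u x : ℝ))
    ((6 * n * k - n * (n - 1)) / 2 - ∑ y ∈ Finset.range k, (u (y + 1) : ℝ) + η) (by linarith) ?_ ?_
  · -- the end
    have h1 : 11 / 10 * (k : ℝ) ^ 2 ≤ (6 * n * k - n * (n - 1)) / 2 + η := by linarith
    have h3 : ((n : ℝ) - 3 * k) ^ 2 ≤ 34 / 5 * (k : ℝ) ^ 2 + n + 2 * η := by nlinarith
    have h4 : (c - 3) * k < n - 3 * k := by linarith
    have h5 : 0 < (c - 3) * k := by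
      apply mul_pos
      · linarith
      · linarith
    have h6 : ((c - 3) * k) ^ 2 < ((n : ℝ) - 3 * k) ^ 2 := by
      exact pow_lt_pow_left₀ h4 h5.le two_ne_zero
    have h7 : ε * (k : ℝ) ^ 2 < 7 * k + 20 * δ * k + 10 * (k : ℝ) ^ 2 / δ := by
      have : ((c - 3) * k) ^ 2 = (34 / 5 + ε) * (k : ℝ) ^ 2 := by rw [hε]; ring
      rw [this] at h6
      have h8 : 2 * η = 20 * δ * k + 10 * (k : ℝ) ^ 2 / δ := by rw [hη]; ring
      linarith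
    have h8 : 10 * (k : ℝ) ^ 2 / δ ≤ ε / 4 * (k : ℝ) ^ 2 := by
      rw [div_le_iff₀ hδ0]
      have h9 : 40 < δ * ε := (div_lt_iff₀ hε0).1 hδ
      have h10 : (0 : ℝ) ≤ (k : ℝ) ^ 2 := by positivity
      nlinarith
    have hKk : (K : ℝ) ≤ k := by
      have : ((7 * K : ℕ) : ℝ) ≤ n := by exact_mod_cast hn
      push_cast at this
      linarith
    have h11 : (7 + 20 * (δ : ℝ)) * k ≤ ε / 4 * (k : ℝ) ^ 2 := by
      have h12 : 4 * (7 + 20 * (δ : ℝ)) < K * ε := (div_lt_iff₀ hε0).1 hK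
      have h13 : (7 + 20 * (δ : ℝ)) ≤ ε / 4 * k := by nlinarith
      have := mul_le_mul_of_nonneg_right h13 (by linarith : (0 : ℝ) ≤ k)
      linarith
    have h14 : 0 < ε * (k : ℝ) ^ 2 := by positivity
    nlinarith
  · intro x hx1 hxk
    have hxk' : (x : ℝ) ≤ k := by exact_mod_cast hxk
    have h : 2 * x ≤ n := by
      have : (2 : ℝ) * x ≤ n := by linarith
      exact_mod_cast this
    exact_mod_cast h2 x h
  · intro x hx1 hxk
    have hxk' : (x : ℝ) ≤ k := by exact_mod_cast hxk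
    have hx1' : (1 : ℝ) ≤ x := by exact_mod_cast hx1
    have hun : (u x : ℝ) ≤ n := by exact_mod_cast hle x
    have hu0 : (0 : ℝ) ≤ u x := by positivity
    rcases lt_or_eq_of_le (hle x) with hlt | heq
    · have hb := hB x δ hx1 hxk hδ1 hlt
      have hsum : ∑ y ∈ Finset.Ico x k, ((u (y + 1) : ℝ) - u x)
          = (∑ y ∈ Finset.range k, (u (y + 1) : ℝ) - ∑ y ∈ Finset.range x, (u (y + 1) : ℝ))
            - (k - x) * u x := by
        rw [Finset.sum_sub_distrib, Finset.sum_Ico_eq_sub _ hxk, Finset.sum_const, Nat.card_Ico,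
          nsmul_eq_mul, Nat.cast_sub hxk]
      rw [hsum] at hb
      generalize ∑ y ∈ Finset.range k, (u (y + 1) : ℝ) = S at *
      generalize ∑ y ∈ Finset.range x, (u (y + 1) : ℝ) = Q at *
      generalize (u x : ℝ) = U at *
      have hηδ : 6 * δ * η = 60 * (δ : ℝ) ^ 2 * k + 30 * (k : ℝ) ^ 2 := by
        rw [hη]
        field_simp
        ring
      have e1 : 8 * (δ : ℝ) ^ 2 * U ≤ 60 * (δ : ℝ) ^ 2 * k := by
        have : (δ : ℝ) ^ 2 * U ≤ (δ : ℝ) ^ 2 * (7 * k) :=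
          mul_le_mul_of_nonneg_left (by linarith) (by positivity)
        have h' : 0 ≤ (δ : ℝ) ^ 2 * k := by positivity
        linarith
      have e2 : 4 * U * k ≤ 30 * (k : ℝ) ^ 2 := by nlinarith
      have key : 6 * δ * (7 / 3 * x * U - 5 / 6 * U ^ 2)
          ≤ 6 * δ * ((6 * n * k - n * (n - 1)) / 2 - S + η + Q) := by
        have : 6 * (δ : ℝ) * ((6 * n * k - n * (n - 1)) / 2 - S + η + Q)
            = 3 * δ * (6 * n * k - n * (n - 1)) - 6 * δ * S + 6 * δ * η + 6 * δ * Q := by ring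
        rw [this, hηδ]
        nlinarith
      exact le_of_mul_le_mul_left key (by positivity)
    · have hQ : 0 ≤ ∑ y ∈ Finset.range x, (u (y + 1) : ℝ) :=
        Finset.sum_nonneg fun y _ => by positivity
      have hneg : 7 / 3 * (x : ℝ) * (u x : ℝ) - 5 / 6 * (u x : ℝ) ^ 2 ≤ 0 := by
        rw [heq]
        nlinarith
      linarith

end Pool.Agent.Helper96.GT
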