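import Pool.Agent.Helper96.GT.St.Base

/-!
# Project GT, piece F2: from drawings to maximal plane geometric graphs

`exists_tri`: a plane graph `G` (symmetric, irreflexive, no two edges cross) on finitely many points is contained in
a maximal one (take a plane supergraph with the largest number of edges; adding the edge `a b`, `b a` to it keeps it
plane if no edge crosses `a b`; `X` is symmetric in its pairs).
`layers`: definitions of the problem (`IsGeometricDrawing`, `Cross`, `DrawableIn`, copied from the landed hand-in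
K13ThreeLayers). For `2 ≤ n`... `GP`: no vertex is on an edge of the complete graph: `o P a b c = 0` with different
`a b c` means collinear, and then one of the three points is in the segment of the other two. If two edges of the
same colour cross properly (`X`), their segments have a common point which is not a common end point.
-/

set_option autoImplicit false

namespace Pool.Agent.Helper96.GT

/-- `p` places the vertices of `G` in the plane as a geometric drawing: different vertices get
different points, and no edge (closed segment) passes through a vertex other than its two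
endpoints. -/
def IsGeometricDrawing {V : Type*} (G : SimpleGraph V) (p : V → ℝ × ℝ) : Prop :=
  Function.Injective p ∧
    ∀ a b : V, G.Adj a b → ∀ v : V, v ≠ a → v ≠ b → p v ∉ segment ℝ (p a) (p b)

/-- The segments `p a, p b` and `p c, p d` share a point that is not a common endpoint of the
edges `ab` and `cd`. -/
def Cross {V : Type*} (p : V → ℝ × ℝ) (a b c d : V) : Prop :=
  ∃ x : ℝ × ℝ, x ∈ segment ℝ (p a) (p b) ∧ x ∈ segment ℝ (p c) (p d) ∧
    ¬ ∃ v : V, (v = a ∨ v = b) ∧ (v = c ∨ v = d) ∧ x = p v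

/-- `G` has a geometric drawing whose edges can be coloured with `k` colours so that no two
different edges of the same colour cross. -/
def DrawableIn {V : Type*} (G : SimpleGraph V) (k : ℕ) : Prop :=
  ∃ (p : V → ℝ × ℝ) (col : Sym2 V → Fin k), IsGeometricDrawing G p ∧
    ∀ a b c d : V, G.Adj a b → G.Adj c d → s(a, b) ≠ s(c, d) → col s(a, b) = col s(c, d) →
      ¬ Cross p a b c d

/-- The geometric thickness: the least `k` such that `G` is drawable in `k` plane layers. -/
noncomputable def geometricThickness {V : Type*} (G : SimpleGraph V) : ℕ :=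
  sInf {k : ℕ | DrawableIn G k}

variable {ι : Type} {P : ι → ℝ × ℝ}

private theorem F2_X_comm {a b c d : ι} (h : X P a b c d) : X P c d a b := ⟨h.2, h.1⟩

private theorem F2_X_swap1 {a b c d : ι} (h : X P a b c d) : X P b a c d := by
  refine ⟨?_, ?_⟩
  · rw [o_swap P a b c, o_swap P a b d]
    have := h.1
    nlinarith
  · rw [mul_comm]; exact h.2

private theorem F2_X_irr {a b : ι} (h : X P a b a b) : False := by
  have := h.1
  rw [o_left, zero_mul] at this
  exact lt_irrefl _ this

private theorem F2_X_irr' {a b : ι} (h : X P a b b a) : False := by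
  have := h.1
  rw [o_right, zero_mul] at this
  exact lt_irrefl _ this

theorem exists_tri [Finite ι] (G : ι → ι → Prop) (h1 : ∀ a b, G a b → G b a) (h2 : ∀ a, ¬ G a a)
    (h3 : ∀ a b c d, G a b → G c d → ¬ X P a b c d) :
    ∃ T : ι → ι → Prop, Tri P T ∧ ∀ a b, G a b → T a b := by
  classical
  set S : Set (ι → ι → Prop) := {T | (∀ a b, G a b → T a b) ∧ (∀ a b, T a b → T b a) ∧
    (∀ a, ¬ T a a) ∧ ∀ a b c d, T a b → T c d → ¬ X P a b c d} with hS
  have hGS : G ∈ S := ⟨fun a b h => h, h1, h2, h3⟩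
  obtain ⟨T, hT⟩ := (Set.toFinite S).exists_maximal ⟨G, hGS⟩
  obtain ⟨⟨hGT, hsymm, hirr, hpl⟩, hmax⟩ := hT
  refine ⟨T, ⟨hsymm, hirr, hpl, ?_⟩, hGT⟩
  intro a b hab hTab
  by_contra hcon
  push Not at hcon
  have hcon' : ∀ c d, T c d → ¬ X P b a c d := fun c d h hX => hcon c d h (F2_X_swap1 hX)
  have hT' : (fun x y => T x y ∨ (x = a ∧ y = b) ∨ (x = b ∧ y = a)) ∈ S := by
    refine ⟨fun x y h => Or.inl (hGT x y h), ?_, ?_, ?_⟩
    · rintro x y (h | ⟨rfl, rfl⟩ | ⟨rfl, rfl⟩)
      · exact Or.inl (hsymm _ _ h)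
      · exact Or.inr (Or.inr ⟨rfl, rfl⟩)
      · exact Or.inr (Or.inl ⟨rfl, rfl⟩)
    · rintro x (h | ⟨rfl, h⟩ | ⟨rfl, h⟩)
      · exact hirr _ h
      · exact hab h
      · exact hab h.symm
    · rintro x y z w (h | ⟨rfl, rfl⟩ | ⟨rfl, rfl⟩) (h' | ⟨rfl, rfl⟩ | ⟨rfl, rfl⟩) hX
      · exact hpl _ _ _ _ h h' hX
      · exact hcon _ _ h (F2_X_comm hX)
      · exact hcon' _ _ h (F2_X_comm hX)
      · exact hcon _ _ h' hX
      · exact F2_X_irr hX
      · exact F2_X_irr' hX
      · exact hcon' _ _ h' hX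
      · exact F2_X_irr' hX
      · exact F2_X_irr hX
  have hle : (T : ι → ι → Prop) ≤ (fun x y => T x y ∨ (x = a ∧ y = b) ∨ (x = b ∧ y = a)) :=
    fun x y h => Or.inl h
  have := hmax hT' hle a b (Or.inr (Or.inl ⟨rfl, rfl⟩))
  exact hTab this

/-- three collinear points: one is in the segment of the other two. -/
private theorem F2_collinear (x y z : ℝ × ℝ) (hxy : x ≠ y) (h : cr (y - x) (z - x) = 0) :
    z ∈ segment ℝ x y ∨ x ∈ segment ℝ z y ∨ y ∈ segment ℝ x z := by
  obtain ⟨x1, x2⟩ := x
  obtain ⟨y1, y2⟩ := y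
  obtain ⟨z1, z2⟩ := z
  simp only [cr, Prod.mk_sub_mk] at h
  have hD : 0 < (y1 - x1) ^ 2 + (y2 - x2) ^ 2 := by
    rcases (add_nonneg (sq_nonneg (y1 - x1)) (sq_nonneg (y2 - x2))).lt_or_eq with h' | h'
    · exact h'
    · exfalso
      have a1 : y1 - x1 = 0 := by nlinarith [sq_nonneg (y1 - x1), sq_nonneg (y2 - x2)]
      have a2 : y2 - x2 = 0 := by nlinarith [sq_nonneg (y1 - x1), sq_nonneg (y2 - x2)]
      apply hxy
      rw [Prod.mk.injEq]
      constructor <;> linarith
  set t := ((y1 - x1) * (z1 - x1) + (y2 - x2) * (z2 - x2)) / ((y1 - x1) ^ 2 + (y2 - x2) ^ 2)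
    with ht
  have e1 : z1 = x1 + t * (y1 - x1) := by
    have : (z1 - x1) * ((y1 - x1) ^ 2 + (y2 - x2) ^ 2) =
        ((y1 - x1) * (z1 - x1) + (y2 - x2) * (z2 - x2)) * (y1 - x1) := by
      linear_combination (-(y2 - x2)) * h
    rw [ht]
    field_simp
    linarith
  have e2 : z2 = x2 + t * (y2 - x2) := by
    have : (z2 - x2) * ((y1 - x1) ^ 2 + (y2 - x2) ^ 2) =
        ((y1 - x1) * (z1 - x1) + (y2 - x2) * (z2 - x2)) * (y2 - x2) := by
      linear_combination (y1 - x1) * h
    rw [ht]
    field_simp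
    linarith
  clear_value t
  rcases lt_or_ge t 0 with h0 | h0
  · right; left
    -- `x = (1/(1-t)) z + (-t/(1-t)) y`
    have h1 : 0 < 1 - t := by linarith
    refine ⟨1 / (1 - t), -t / (1 - t), by positivity, div_nonneg (by linarith) h1.le, ?_, ?_⟩
    · field_simp; ring
    · rw [Prod.smul_mk, Prod.smul_mk, Prod.mk_add_mk, Prod.mk.injEq, smul_eq_mul, smul_eq_mul,
        smul_eq_mul, smul_eq_mul, e1, e2]
      constructor
      · field_simp; ring
      · field_simp; ring
  · rcases le_or_gt t 1 with h1 | h1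
    · left
      refine ⟨1 - t, t, by linarith, h0, by ring, ?_⟩
      rw [Prod.smul_mk, Prod.smul_mk, Prod.mk_add_mk, Prod.mk.injEq, smul_eq_mul, smul_eq_mul,
        smul_eq_mul, smul_eq_mul, e1, e2]
      constructor <;> ring
    · right; right
      have h2 : 0 < t := by linarith
      refine ⟨1 - 1 / t, 1 / t, ?_, by positivity, by ring, ?_⟩
      · rw [sub_nonneg, div_le_one h2]; exact h1.le
      · rw [Prod.smul_mk, Prod.smul_mk, Prod.mk_add_mk, Prod.mk.injEq, smul_eq_mul, smul_eq_mul,
          smul_eq_mul, smul_eq_mul, e1, e2]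
        constructor
        · field_simp; ring
        · field_simp; ring

/-- properly crossing segments have a common point. -/
private theorem F2_common {a b c d : ι} (h : X P a b c d) :
    ∃ x : ℝ × ℝ, x ∈ segment ℝ (P a) (P b) ∧ x ∈ segment ℝ (P c) (P d) := by
  obtain ⟨h1, h2⟩ := h
  set α := o P a b c with hα
  set β := o P a b d with hβ
  set γ := o P c d a with hγ
  set δ := o P c d b with hδ
  have hαβ : β - α ≠ 0 := by
    intro h0
    have : β = α := by linarith
    rw [this] at h1
    nlinarith [mul_self_nonneg α]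
  have hD : γ - δ = β - α := by
    simp only [hα, hβ, hγ, hδ, o, cr, Prod.fst_sub, Prod.snd_sub]; ring
  have hs : 0 ≤ γ / (β - α) ∧ γ / (β - α) ≤ 1 := by
    rw [← hD]
    rcases lt_or_ge γ 0 with hg | hg
    · have hd : 0 < δ := by
        by_contra hcon
        push Not at hcon
        nlinarith [mul_nonneg_of_nonpos_of_nonpos hg.le hcon]
      refine ⟨div_nonneg_of_nonpos hg.le (by linarith), ?_⟩
      rw [div_le_one_of_neg (by linarith)]; linarith
    · have hd : δ < 0 := by
        by_contra hcon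
        push Not at hcon
        nlinarith [mul_nonneg hg hcon]
      refine ⟨div_nonneg hg (by linarith), ?_⟩
      rw [div_le_one (by linarith)]; linarith
  have ht : 0 ≤ -α / (β - α) ∧ -α / (β - α) ≤ 1 := by
    rcases lt_or_ge α 0 with hg | hg
    · have hd : 0 < β := by
        by_contra hcon
        push Not at hcon
        nlinarith [mul_nonneg_of_nonpos_of_nonpos hg.le hcon]
      refine ⟨div_nonneg (by linarith) (by linarith), ?_⟩
      rw [div_le_one (by linarith)]; linarith
    · have hd : β < 0 := by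
        by_contra hcon
        push Not at hcon
        nlinarith [mul_nonneg hg hcon]
      refine ⟨div_nonneg_of_nonpos (by linarith) (by linarith), ?_⟩
      rw [div_le_one_of_neg (by linarith)]; linarith
  have k1 : (β - α) * ((P a).1 - (P c).1) + γ * ((P b).1 - (P a).1) +
      α * ((P d).1 - (P c).1) = 0 := by
    simp only [hα, hβ, hγ, o, cr, Prod.fst_sub, Prod.snd_sub]; ring
  have k2 : (β - α) * ((P a).2 - (P c).2) + γ * ((P b).2 - (P a).2) +
      α * ((P d).2 - (P c).2) = 0 := by
    simp only [hα, hβ, hγ, o, cr, Prod.fst_sub, Prod.snd_sub]; ring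
  clear_value α β γ δ
  refine ⟨(1 - γ / (β - α)) • P a + (γ / (β - α)) • P b,
    ⟨1 - γ / (β - α), γ / (β - α), by linarith [hs.2], hs.1, by ring, rfl⟩,
    ⟨1 - -α / (β - α), -α / (β - α), by linarith [ht.2], ht.1, by ring, ?_⟩⟩
  refine Prod.ext ?_ ?_
  · simp only [Prod.fst_add, Prod.smul_fst, smul_eq_mul]
    field_simp
    linarith
  · simp only [Prod.snd_add, Prod.smul_snd, smul_eq_mul]
    field_simp
    linarith

private theorem F2_cross {a b c d : ι} (hP : Function.Injective P) (h : X P a b c d) :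
    Cross P a b c d := by
  obtain ⟨x, hx1, hx2⟩ := F2_common h
  refine ⟨x, hx1, hx2, ?_⟩
  rintro ⟨v, hv, hv', -⟩
  have h1 := h.1
  rcases hv with rfl | rfl <;> rcases hv' with rfl | rfl
  · rw [o_left, zero_mul] at h1; exact lt_irrefl _ h1
  · rw [o_left, mul_zero] at h1; exact lt_irrefl _ h1
  · rw [o_right, zero_mul] at h1; exact lt_irrefl _ h1
  · rw [o_right, mul_zero] at h1; exact lt_irrefl _ h1

theorem layers [Finite ι] {k : ℕ} (h : DrawableIn (⊤ : SimpleGraph ι) k) :
    ∃ (P : ι → ℝ × ℝ) (T : Fin k → ι → ι → Prop), GP P ∧ (∀ i, Tri P (T i)) ∧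
      ∀ a b, a ≠ b → ∃ i, T i a b := by
  classical
  obtain ⟨p, col, ⟨hinj, hseg⟩, hcol⟩ := h
  have key : ∀ i : Fin k, ∃ T : ι → ι → Prop, Tri p T ∧
      ∀ a b, (a ≠ b ∧ col s(a, b) = i) → T a b := by
    intro i
    refine exists_tri (P := p) (fun a b => a ≠ b ∧ col s(a, b) = i) ?_ ?_ ?_
    · rintro a b ⟨h1, h2⟩
      exact ⟨h1.symm, by rw [Sym2.eq_swap]; exact h2⟩
    · rintro a ⟨h1, -⟩
      exact h1 rfl
    · rintro a b c d ⟨h1, h2⟩ ⟨h3, h4⟩ hX
      by_cases hs : s(a, b) = s(c, d)
      · rw [Sym2.eq_iff] at hs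
        rcases hs with ⟨rfl, rfl⟩ | ⟨rfl, rfl⟩
        · exact F2_X_irr hX
        · exact F2_X_irr' hX
      · exact hcol a b c d h1 h3 hs (h2.trans h4.symm) (F2_cross hinj hX)
  choose T hT1 hT2 using key
  refine ⟨p, T, ⟨hinj, ?_⟩, hT1, fun a b hab => ⟨col s(a, b), hT2 _ a b ⟨hab, rfl⟩⟩⟩
  intro a b c hab hac hbc h0
  rcases F2_collinear (p a) (p b) (p c) (fun h => hab (hinj h)) h0 with h | h | h
  · exact hseg a b hab c hac.symm hbc.symm h
  · exact hseg c b hbc.symm a hac hab h
  · exact hseg a c hac b hab.symm hbc h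

/-- complete graphs have a drawing (points on a parabola, every edge its own colour). -/
theorem drawable_exists (n : ℕ) : ∃ k, DrawableIn (⊤ : SimpleGraph (Fin n)) k := by
  classical
  refine ⟨Fintype.card (Sym2 (Fin n)), fun i => ((i : ℝ), ((i : ℝ)) ^ 2),
    Fintype.equivFin _, ⟨?_, ?_⟩, ?_⟩
  · intro i j h
    have h1 : ((i : ℕ) : ℝ) = ((j : ℕ) : ℝ) := congrArg Prod.fst h
    exact Fin.ext (Nat.cast_injective h1)
  · rintro a b hab v hva hvb ⟨s, t, hs, ht, hst, h⟩
    have h1 : s * ((a : ℕ) : ℝ) + t * ((b : ℕ) : ℝ) = ((v : ℕ) : ℝ) := congrArg Prod.fst h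
    have h2 : s * ((a : ℕ) : ℝ) ^ 2 + t * ((b : ℕ) : ℝ) ^ 2 = ((v : ℕ) : ℝ) ^ 2 :=
      congrArg Prod.snd h
    have hs' : s = 1 - t := by linarith
    have h3 : s * t * ((((a : ℕ) : ℝ) - ((b : ℕ) : ℝ)) ^ 2) = 0 := by
      rw [← h1] at h2
      subst hs'
      nlinarith
    rcases mul_eq_zero.1 h3 with h4 | h4
    · rcases mul_eq_zero.1 h4 with h5 | h5
      · have ht1 : t = 1 := by linarith
        rw [h5, ht1, zero_mul, one_mul, zero_add] at h1
        exact hvb (Fin.ext (Nat.cast_injective h1.symm))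
      · have hs1 : s = 1 := by linarith
        rw [h5, hs1, zero_mul, one_mul, add_zero] at h1
        exact hva (Fin.ext (Nat.cast_injective h1.symm))
    · have h5 : ((a : ℕ) : ℝ) = ((b : ℕ) : ℝ) := by
        have := pow_eq_zero_iff (two_ne_zero) |>.1 h4
        linarith
      exact hab (Fin.ext (Nat.cast_injective h5))
  · intro a b c d _ _ hne hcol
    exact absurd ((Fintype.equivFin _).injective hcol) hne

end Pool.Agent.Helper96.GT
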